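import Mathlib
import Pool.Agent.Helper18.MR.BT
import Pool.Agent.Helper82.MR.CH
import Pool.Agent.Helper44.MR.DEC
import Pool.Agent.Helper99.MR.DENS
import Pool.Agent.Helper37.MR.DIST
import Pool.Agent.Helper45.MR.DL
import Pool.Agent.Helper51.MR.DUAL
import Pool.Agent.Helper52.MR.EUL
import Pool.Agent.Helper68.MR.EXP
import Pool.Agent.Helper18.MR.H1
import Pool.Agent.Helper7.MR.H2
import Pool.Agent.Helper77.MR.H3
import Pool.Agent.Helper45.MR.H4
import Pool.Agent.Helper7.MR.H5
import Pool.Agent.Helper30.MR.HAL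
import Pool.Agent.Helper13.MR.HM1
import Pool.Agent.Helper44.MR.HM2
import Pool.Agent.Helper63.MR.KER
import Pool.Agent.Helper70.MR.KL
import Pool.Agent.Helper70.MR.L1
import Pool.Agent.Helper17.MR.LB
import Pool.Agent.Helper99.MR.MAJ
import Pool.Agent.Helper82.MR.MER
import Pool.Agent.Helper39.MR.MIN
import Pool.Agent.Helper37.MR.MOM
import Pool.Agent.Helper77.MR.MR
import Pool.Agent.Helper17.MR.MU
import Pool.Agent.Helper78.MR.MV
import Pool.Agent.Helper23.MR.NT
import Pool.Agent.Helper1.MR.PA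
import Pool.Agent.Helper94.MR.PB
import Pool.Agent.Helper94.MR.PL
import Pool.Agent.Helper24.MR.PLA
import Pool.Agent.Helper18.MR.SEL
import Pool.Agent.Helper24.MR.SIG
import Pool.Agent.Helper57.MR.SM
import Pool.Agent.Helper78.MR.SUP
import Pool.Agent.Helper70.MR.T0
import Pool.Agent.Helper70.MR.TJ
import Pool.Agent.Helper51.MR.U
import Pool.Agent.Helper70.MR.UM
import Pool.Agent.Helper7.MR.VDC
import Pool.Agent.Helper44.MR.VEC
import Pool.Agent.Helper52.MR.WIN
import Pool.Agent.Helper89.MR.WV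

namespace Pool.Agent.Helper40.MR

theorem all_PL : ST_PL := st_PL st_MV st_PLA

theorem all_DEC : ST_DEC := st_DEC st_MV

theorem all_MOM : ST_MOM := st_MOM st_MV

theorem all_VDC : ST_VDC := st_VDC st_KL st_WV st_DL

theorem all_SM : ST_SM := st_SM all_VDC

theorem all_LB : ST_LB := st_LB all_VDC

theorem all_MER : ST_MER := st_MER st_EUL st_SIG

theorem all_L1 : ST_L1 := st_L1 st_EUL st_SIG

theorem all_DIST : ST_DIST := st_DIST st_EUL st_SIG all_MER all_LB all_L1

theorem all_DENS : ST_DENS := st_DENS all_MER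

theorem all_HAL : ST_HAL := st_HAL st_H1 (st_H2 (st_BT st_SEL)) st_H3 st_H4
  (st_H5 st_EUL st_SIG all_MER)

theorem all_SUP : ST_SUP := st_SUP all_HAL all_DIST all_MER

theorem all_U : ST_U := st_U all_DEC all_MOM (st_HM1 all_SM st_DUAL)
  (st_HM2 all_SM st_DUAL st_SEL) all_SUP

theorem all_CH : ST_CH := st_CH (st_T0 st_MV all_DEC) (st_TJ all_DEC all_MOM)

theorem all_MR : ST_MR := st_MR st_MV (st_UM all_MOM) all_DENS all_U all_CH st_PA st_PB

theorem all_EXP : ST_EXP := st_EXP all_MR all_PL (st_MIN st_KER) (st_MAJ st_WIN)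

theorem all_NT : ST_NT := st_NT (st_MU all_EXP st_VEC) all_DENS st_PB

end Pool.Agent.Helper40.MR
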