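import Mathlib

/-!
Matomaki-Radziwill theorem for windows of bounded length: definitions and statements of the modules.
Every module proves one `ST_X` from earlier ones, which are hypotheses of its theorem.
-/

open Finset MeasureTheory
open scoped BigOperators Nat

namespace Pool.Agent.Helper40.MR

/-! ### Definitions -/

/-- `n ^ (-i t)`. -/
noncomputable def nit (n : ℕ) (t : ℝ) : ℂ :=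
  Complex.exp (-(((t * Real.log n : ℝ)) : ℂ) * Complex.I)

/-- `x ^ (i u)` for real `x > 0`. -/
noncomputable def xiu (x u : ℝ) : ℂ := Complex.exp (((u * Real.log x : ℝ) : ℂ) * Complex.I)

/-- `exp (2 pi i x)`. -/
noncomputable def ee (x : ℝ) : ℂ := Complex.exp (((2 * Real.pi * x : ℝ) : ℂ) * Complex.I)

/-- Integers in the real interval `(a, b]` (for `0 ≤ a`). -/
noncomputable def IocN (a b : ℝ) : Finset ℕ := Finset.Ioc ⌊a⌋₊ ⌊b⌋₊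

/-- The Dirichlet polynomial with coefficients `c n` at the point `1 + i t`. -/
noncomputable def DP (s : Finset ℕ) (c : ℕ → ℂ) (t : ℝ) : ℂ := ∑ n ∈ s, c n / n * nit n t

/-- Completely multiplicative functions with values in the unit disc. -/
def CM (f : ℕ → ℂ) : Prop :=
  f 1 = 1 ∧ (∀ m n, f (m * n) = f m * f n) ∧ ∀ n, ‖f n‖ ≤ 1

/-- The Liouville function (with value `0` at `0`). -/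
noncomputable def lam (n : ℕ) : ℂ := if n = 0 then 0 else (-1) ^ (n.primeFactorsList.length)

/-- The function `lam * chi`. -/
noncomputable def lch {q : ℕ} (χ : DirichletCharacter ℂ q) (n : ℕ) : ℂ := lam n * χ n

/-- `n` has a prime factor in `(P, Q]`. -/
def Hit (P Q : ℝ) (n : ℕ) : Prop := ∃ p : ℕ, p.Prime ∧ P < p ∧ (p : ℝ) ≤ Q ∧ p ∣ n

/-- Primes in `(P, Q]`. -/
noncomputable def PrI (P Q : ℝ) : Finset ℕ := (IocN P Q).filter Nat.Prime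

/-- Primes up to `x`. -/
noncomputable def PrL (x : ℝ) : Finset ℕ := (Finset.Icc 1 ⌊x⌋₊).filter Nat.Prime

/-- Number of prime factors in `(P, Q]`, with multiplicity. -/
noncomputable def Om (P Q : ℝ) (n : ℕ) : ℕ := ∑ p ∈ PrI P Q, n.factorization p

/-- The class number `v` of the primes in `(P, Q]`. -/
noncomputable def Cls (P Q H : ℝ) (v : ℕ) : Finset ℕ :=
  (PrI P Q).filter fun p => Real.exp (v / H) < p ∧ (p : ℝ) ≤ Real.exp ((v + 1) / H)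

/-- The set of the indices of classes. -/
noncomputable def Vs (P Q H : ℝ) : Finset ℕ := Finset.Icc ⌊H * Real.log P⌋₊ ⌊H * Real.log Q⌋₊

open Classical in
/-- Coefficients of the long factors in the Ramare decomposition. -/
noncomputable def bco (P Q : ℝ) (f : ℕ → ℂ) (s : ℕ → Prop) (m : ℕ) : ℂ :=
  if s m then f m / ((Om P Q m : ℂ) + 1) else 0

open Classical in
/-- `f` restricted to a set of integers. -/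
noncomputable def res (s : ℕ → Prop) (f : ℕ → ℂ) (n : ℕ) : ℂ := if s n then f n else 0

/-- All the Dirichlet polynomials over the classes are small at `t`. -/
def Small (P Q H : ℝ) (f : ℕ → ℂ) (α t : ℝ) : Prop :=
  ∀ v ∈ Vs P Q H, ‖DP (Cls P Q H v) f t‖ ≤ Real.exp (-(α * (v / H)))

/-- Sets whose indicator does not change by multiplication with the primes in `(P, Q]`. -/
def Inv (P Q : ℝ) (s : ℕ → Prop) : Prop :=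
  ∀ p n : ℕ, p.Prime → P < p → (p : ℝ) ≤ Q → 0 < n → (s (p * n) ↔ s n)

/-- Tent function. -/
noncomputable def tri (s : ℝ) : ℝ := max 0 (1 - |s| / 4)

/-- Fourier transform of the tent function. -/
noncomputable def Fh (u : ℝ) : ℝ := if u = 0 then 4 else (1 - Real.cos (4 * u)) / (2 * u ^ 2)

/-- Smooth sum of `n ^ (-1 + i u)`. -/
noncomputable def Ksum (M u : ℝ) : ℂ :=
  ∑ n ∈ Icc 1 ⌊Real.exp 4 * M⌋₊, ((tri (Real.log (n / M)) / n : ℝ) : ℂ) * xiu n u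

/-- Iterated differences. -/
def dl : List ℕ → (ℕ → ℝ) → ℕ → ℝ
  | [], F => F
  | h :: hs, F => fun n => dl hs F (n + h) - dl hs F n

/-- Summatory function. -/
noncomputable def Sg (g : ℕ → ℂ) (x : ℝ) : ℂ := ∑ n ∈ Icc 1 ⌊x⌋₊, g n

/-- Summatory function with weight `log n`. -/
noncomputable def S1g (g : ℕ → ℂ) (x : ℝ) : ℂ := ∑ n ∈ Icc 1 ⌊x⌋₊, g n * (Real.log n : ℂ)

/-- Weighted mean square of `S1g`. -/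
noncomputable def I1 (g : ℕ → ℂ) (σ : ℝ) : ℝ :=
  ∫ u in Set.Ioi (1 : ℝ), ‖S1g g u‖ ^ 2 * u ^ (-(3 + 2 * σ))

/-- Value of the Dirichlet series of `g` at `1 + σ + i y`. -/
noncomputable def Gv (g : ℕ → ℂ) (σ y : ℝ) : ℂ :=
  LSeries g (((1 + σ : ℝ) : ℂ) + (y : ℂ) * Complex.I)

/-- The `j`-th scale, lower end. -/
noncomputable def Psc (y : ℝ) (j : ℕ) : ℝ := Real.exp (y ^ (20 ^ j))

/-- The `j`-th scale, upper end. -/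
noncomputable def Qsc (K y : ℝ) (j : ℕ) : ℝ :=
  if j = 0 then Real.exp (K * y) else Real.exp (y ^ (2 * 20 ^ j))

/-- Number of the last scale. -/
noncomputable def Jz (y Z : ℝ) : ℕ := sInf {j : ℕ | (Real.log (Real.log Z)) ^ 2 ≤ y ^ (20 ^ j)}

/-- The set of typical integers. -/
def SS (K y θ₁ θ₂ Z : ℝ) (n : ℕ) : Prop :=
  (∀ j ∈ range (Jz y Z + 1), Hit (Psc y j) (Qsc K y j) n) ∧ Hit (Z ^ θ₁) (Z ^ θ₂) n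

/-! ### Mean values and moments -/

/-- Mean value theorem. -/
def ST_MV : Prop := ∃ C : ℝ, 0 < C ∧ ∀ (N : ℕ) (T : ℝ) (c : ℕ → ℂ), 1 ≤ T →
  ∫ t in (-T)..T, ‖∑ n ∈ Icc 1 N, c n * nit n t‖ ^ 2 ≤ C * (T + N) * ∑ n ∈ Icc 1 N, ‖c n‖ ^ 2

/-- Moments of short prime polynomials times a long polynomial. -/
def ST_MOM : Prop := ∃ C : ℝ, 0 < C ∧ ∀ (P : Finset ℕ) (Y M T : ℝ) (l : ℕ) (f b : ℕ → ℂ),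
  1 ≤ Y → 0 < M → 1 ≤ T → (∀ p ∈ P, p.Prime ∧ Y < p ∧ (p : ℝ) ≤ Real.exp 1 * Y) →
  (∀ n, ‖f n‖ ≤ 1) → (∀ n, ‖b n‖ ≤ 1) →
  ∫ t in (-T)..T, ‖DP P f t‖ ^ (2 * l) * ‖DP (IocN M (2 * M)) b t‖ ^ 2 ≤
    C * (T / (Y ^ l * M) + 1) * (Real.exp (2 * l) * ((2 * l)! : ℕ))

/-- Ramare decomposition. -/
def ST_DEC : Prop := ∃ C : ℝ, 0 < C ∧ ∀ (P Q H X : ℝ) (f : ℕ → ℂ) (s : ℕ → Prop),
  2 ≤ P → P < Q → 1 ≤ H → 1 ≤ X → CM f → Inv P Q s → ∃ E : ℝ → ℂ, Continuous E ∧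
  (∀ t, DP (IocN X (2 * X)) (res (fun n => s n ∧ Hit P Q n) f) t =
    ∑ v ∈ Vs P Q H, DP (Cls P Q H v) f t *
      DP (IocN (X * Real.exp (-(v / H))) (2 * (X * Real.exp (-(v / H))))) (bco P Q f s) t
      + E t) ∧
  ∀ T, 1 ≤ T → ∫ t in (-T)..T, ‖E t‖ ^ 2 ≤ C * (T / X + 1) * (1 / H + 1 / P + 1 / X)

/-- First region. -/
def ST_T0 : Prop := ∃ C : ℝ, 0 < C ∧ ∀ (P Q H X T α : ℝ) (f : ℕ → ℂ) (s : ℕ → Prop),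
  2 ≤ P → P < Q → 1 ≤ H → 1 ≤ X → 1 ≤ T → 0 < α → α ≤ 1 → CM f → Inv P Q s →
  ∫ t in {t | t ∈ Set.Icc (-T) T ∧ Small P Q H f α t},
      ‖DP (IocN X (2 * X)) (res (fun n => s n ∧ Hit P Q n) f) t‖ ^ 2 ≤
    C * (T / X + 1) * (1 / H + 1 / P + 1 / X) +
    C * (H * Real.log Q + 1) ^ 2 * P ^ (-(2 * α)) * (T * Q / X + 1)

/-- Intermediate regions. -/
def ST_TJ : Prop := ∃ C : ℝ, 0 < C ∧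
  ∀ (P' Q' H' α' P Q H α X T : ℝ) (f : ℕ → ℂ) (s : ℕ → Prop),
  0 < P' → 2 ≤ Real.log P' → P' < Q' → 1 ≤ H' → 0 < α' →
  2 ≤ P → P < Q → 1 ≤ H → α' < α → α ≤ 1 → 1 ≤ Real.log Q →
  4 * (Real.log (Real.log Q) + 3) ≤ (α - α') * Real.log P' →
  1 ≤ X → 1 ≤ T → CM f → Inv P Q s →
  ∫ t in {t | t ∈ Set.Icc (-T) T ∧ Small P Q H f α t ∧ ¬ Small P' Q' H' f α' t},
      ‖DP (IocN X (2 * X)) (res (fun n => s n ∧ Hit P Q n) f) t‖ ^ 2 ≤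
    C * (T / X + 1) * (1 / H + 1 / P + 1 / X + (H * Real.log Q + 1) ^ 2 *
      (H' * Real.log Q' + 1) * Real.exp (-((α - α') * Real.log P) + 2 * α' * Real.log Q' +
        2 * Real.log (Real.log Q)))

/-- Measure of the last region. -/
def ST_UM : Prop := ∃ C : ℝ, 0 < C ∧ ∀ (P' Q' H' α' Z T : ℝ) (f : ℕ → ℂ),
  0 < P' → 2 ≤ Real.log P' → P' < Q' → 1 ≤ H' → 0 < α' → α' ≤ 1 → (∀ n, ‖f n‖ ≤ 1) →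
  1 ≤ T → T ≤ Z → 3 ≤ Z →
  (volume {t | t ∈ Set.Icc (-T) T ∧ ¬ Small P' Q' H' f α' t}).toReal ≤
    C * (H' * Real.log Q' + 1) * Real.exp (2 * α' * (Real.log Z + Real.log Q') +
      (4 * Real.log Z / Real.log P' + 2) * (Real.log (Real.log Z) + 3))

/-! ### Exponential sums -/

/-- Kusmin-Landau inequality. -/
def ST_KL : Prop := ∃ C : ℝ, 0 < C ∧ ∀ (G : ℕ → ℝ) (a b : ℕ) (l : ℝ), a ≤ b → 0 < l →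
  (∀ n, a ≤ n → n ≤ b → l ≤ G (n + 1) - G n ∧ G (n + 1) - G n ≤ 1 / 2) →
  ((∀ n, a ≤ n → n ≤ b → G (n + 1) - G n ≤ G (n + 2) - G (n + 1)) ∨
   (∀ n, a ≤ n → n ≤ b → G (n + 2) - G (n + 1) ≤ G (n + 1) - G n)) →
  ‖∑ n ∈ Ioc a b, ee (G n)‖ ≤ C / l

/-- Iterated van der Corput inequality. -/
def ST_WV : Prop := ∀ k : ℕ, ∃ C : ℝ, 0 < C ∧
  ∀ (F : ℕ → ℝ) (a b H : ℕ) (M : ℝ) (B : (Fin k → ℕ) → ℝ),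
  a ≤ b → ((b : ℝ) - a) ≤ M → 1 ≤ H → (H : ℝ) ≤ M → (∀ h, 0 ≤ B h) →
  (∀ h : Fin k → ℕ, (∀ i, 1 ≤ h i ∧ h i ≤ H) → ∀ a' b' : ℕ, a ≤ a' → a' ≤ b' → b' ≤ b →
    ‖∑ n ∈ Ioc a' b', ee (dl (List.ofFn h) F n)‖ ≤ B h) →
  ‖∑ n ∈ Ioc a b, ee (F n)‖ ^ (2 ^ k) ≤ C * (M ^ (2 ^ k) / H +
    M ^ (2 ^ k - 1) / (H : ℝ) ^ k * ∑ h ∈ Fintype.piFinset (fun _ : Fin k => Icc 1 H), B h)

/-- Iterated differences of the logarithm. -/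
def ST_DL : Prop := ∀ (k : ℕ) (hs : List ℕ) (β : ℝ) (n : ℕ), hs.length = k + 1 →
  (∀ h ∈ hs, 1 ≤ h) → 0 ≤ β → β ≤ 1 → 1 ≤ n →
  (k ! : ℝ) * (hs.prod : ℝ) / ((n : ℝ) + 1 + (hs.sum : ℝ)) ^ (k + 1) ≤
    (-1) ^ k * dl hs (fun n => Real.log (n + β)) n ∧
  (-1) ^ k * dl hs (fun n => Real.log (n + β)) n ≤ (k ! : ℝ) * (hs.prod : ℝ) / (n : ℝ) ^ (k + 1)

/-- Van der Corput bound for sums of `(m + β) ^ (i u)`. -/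
def ST_VDC : Prop := ∀ A : ℝ, 1 ≤ A → ∃ c : ℝ, 0 < c ∧ ∃ C : ℝ, 0 < C ∧
  ∀ (M β u : ℝ) (a b : ℕ), 1 ≤ M → 0 ≤ β → β ≤ 1 → M ^ (1 / 2 : ℝ) ≤ |u| → |u| ≤ M ^ A →
  M ≤ a → a ≤ b → (b : ℝ) ≤ 2 * M → ‖∑ m ∈ Ioc a b, xiu (m + β) u‖ ≤ C * M ^ (1 - c)

/-- Smooth sums. -/
def ST_SM : Prop := ∀ A : ℝ, 1 ≤ A → ∃ c : ℝ, 0 < c ∧ ∃ C : ℝ, 0 < C ∧
  ∀ M u : ℝ, 1 ≤ M → |u| ≤ M ^ A → ‖Ksum M u - xiu M u * (Fh u : ℂ)‖ ≤ C * M ^ (-c)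

/-! ### Selberg weights, Halasz-Montgomery inequalities -/

/-- Selberg's weights. -/
def ST_SEL : Prop := ∀ D : ℝ, 2 ≤ D → ∃ ρ : ℕ → ℝ, ρ 1 = 1 ∧ ρ 0 = 0 ∧ (∀ d, |ρ d| ≤ 1) ∧
  (∀ d : ℕ, D < d → ρ d = 0) ∧
  0 ≤ ∑ d ∈ Icc 1 ⌊D⌋₊, ∑ e ∈ Icc 1 ⌊D⌋₊, ρ d * ρ e / (Nat.lcm d e : ℝ) ∧
  ∑ d ∈ Icc 1 ⌊D⌋₊, ∑ e ∈ Icc 1 ⌊D⌋₊, ρ d * ρ e / (Nat.lcm d e : ℝ) ≤ 1 / Real.log D

/-- Duality. -/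
def ST_DUAL : Prop := ∀ (s : Finset ℕ) (w : ℕ → ℝ) (a : ℕ → ℂ) (U : Set ℝ) (T B : ℝ),
  0 ≤ B → (∀ n ∈ s, 0 ≤ w n) → (∀ n ∈ s, w n = 0 → a n = 0) →
  MeasurableSet U → U ⊆ Set.Icc (-T) T →
  (∀ t ∈ U, ∫ r in U, ‖∑ n ∈ s, (w n : ℂ) * nit n (t - r)‖ ≤ B) →
  ∫ t in U, ‖∑ n ∈ s, a n * nit n t‖ ^ 2 ≤ (∑ n ∈ s, ‖a n‖ ^ 2 / w n) * B

/-- Halasz-Montgomery inequality over the integers. -/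
def ST_HM1 : Prop := ∃ c : ℝ, 0 < c ∧ ∃ C : ℝ, 0 < C ∧ ∀ (M : ℝ) (b : ℕ → ℂ) (U : Set ℝ),
  1 ≤ M → (∀ n, ‖b n‖ ≤ 1) → MeasurableSet U → U ⊆ Set.Icc (-(M ^ 2)) (M ^ 2) →
  ∫ t in U, ‖DP (IocN M (2 * M)) b t‖ ^ 2 ≤ C * (1 + (volume U).toReal * M ^ (-c))

/-- Halasz-Montgomery inequality over the primes. -/
def ST_HM2 : Prop := ∀ A : ℝ, 1 ≤ A → ∃ c : ℝ, 0 < c ∧ ∃ C : ℝ, 0 < C ∧
  ∀ (Y : ℝ) (P : Finset ℕ) (f : ℕ → ℂ) (U : Set ℝ), 2 ≤ Y →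
  (∀ p ∈ P, p.Prime ∧ Y < p ∧ (p : ℝ) ≤ Real.exp 1 * Y) → (∀ n, ‖f n‖ ≤ 1) →
  MeasurableSet U → U ⊆ Set.Icc (-(Y ^ A)) (Y ^ A) →
  ∫ t in U, ‖DP P f t‖ ^ 2 ≤ C / (Real.log Y) ^ 2 + C * (volume U).toReal * Y ^ (-c)

/-- Brun-Titchmarsh for fixed relative length. -/
def ST_BT : Prop := ∃ C : ℝ, 0 < C ∧ ∀ h : ℝ, 1 ≤ h → ∃ y₀ : ℝ, ∀ y : ℝ, y₀ ≤ y →
  ∑ d ∈ IocN y (y + y / h), ArithmeticFunction.vonMangoldt d ≤ C * (y / h)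

/-! ### Halasz's theorem -/

/-- First step. -/
def ST_H1 : Prop := ∃ C : ℝ, 0 < C ∧ ∀ g : ℕ → ℂ, CM g → ∀ x : ℝ, 1 ≤ x →
  ‖Sg g x‖ * Real.log x ≤
    ∑ d ∈ Icc 1 ⌊x⌋₊, ArithmeticFunction.vonMangoldt d * ‖Sg g (x / d)‖ + C * x

/-- Averaging over short blocks. -/
def ST_H2 : Prop := ∃ C : ℝ, 0 < C ∧ ∀ h : ℝ, 1 ≤ h → ∃ x₀ : ℝ, ∀ x : ℝ, x₀ ≤ x →
  ∀ F : ℝ → ℝ, Measurable F → (∀ u, 0 ≤ u → 0 ≤ F u ∧ F u ≤ u) →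
  (∀ u v, 0 ≤ u → 0 ≤ v → |F u - F v| ≤ |u - v| + 1) →
  ∑ d ∈ Icc 1 ⌊x⌋₊, ArithmeticFunction.vonMangoldt d * F (x / d) ≤
    C * x * (∫ u in (1 : ℝ)..x, F u / u ^ 2) + C * x * Real.log x / h

/-- Passage to the weighted mean squares. -/
def ST_H3 : Prop := ∃ C : ℝ, 0 < C ∧ ∀ g : ℕ → ℂ, (∀ n, ‖g n‖ ≤ 1) → ∀ x : ℝ, 16 ≤ x →
  ∫ u in (1 : ℝ)..x, ‖Sg g u‖ / u ^ 2 ≤ C * (1 + Real.log (Real.log x)) +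
    C * ∑ i ∈ range (⌊Real.log (Real.log x) / Real.log 2⌋₊ + 1),
      (2 : ℝ) ^ (-(i / 2 : ℝ)) * Real.sqrt (I1 g ((2 : ℝ) ^ (-(i : ℝ))))

/-- Plancherel step. -/
def ST_H4 : Prop := ∃ C : ℝ, 0 < C ∧ ∀ g : ℕ → ℂ, CM g → ∀ σ N B : ℝ, 0 < σ → σ ≤ 1 → 1 ≤ N →
  0 ≤ B → (∀ y : ℝ, |y| ≤ N → ‖Gv g σ y‖ ≤ B) → I1 g σ ≤ C * (B ^ 2 / σ + 1 / (σ ^ 4 * N))

/-- Euler product. -/
def ST_EUL : Prop := ∃ C : ℝ, 0 < C ∧ ∀ g : ℕ → ℂ, CM g → ∀ σ y : ℝ, 0 < σ → σ ≤ 1 →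
  Gv g σ y ≠ 0 ∧ |Real.log ‖Gv g σ y‖ -
    ∑' p : Nat.Primes, (g p * nit p y).re * (p : ℝ) ^ (-(1 + σ))| ≤ C

/-- Truncation of sums over primes. -/
def ST_SIG : Prop := ∃ C : ℝ, 0 < C ∧ ∀ (a : ℕ → ℝ) (x : ℝ), (∀ n, |a n| ≤ 1) → 3 ≤ x →
  |∑' p : Nat.Primes, a p * (p : ℝ) ^ (-(1 + 1 / Real.log x)) - ∑ p ∈ PrL x, a p / p| ≤ C

/-- Bound for the Dirichlet series from the distance. -/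
def ST_H5 : Prop := ∃ C : ℝ, 0 < C ∧ ∀ g : ℕ → ℂ, CM g → ∀ x B y σ : ℝ, 3 ≤ x →
  B ≤ ∑ p ∈ PrL x, (1 - (g p * nit p y).re) / p → 1 / Real.log x ≤ σ → σ ≤ 1 →
  ‖Gv g σ y‖ ≤ C / σ ∧ ‖Gv g σ y‖ ≤ C * (σ * (Real.log x) ^ 2 * Real.exp (-B))

/-- Halasz's theorem (qualitative form). -/
def ST_HAL : Prop := ∃ C : ℝ, 0 < C ∧ ∀ h : ℝ, 1 ≤ h → ∃ x₀ : ℝ, ∀ x : ℝ, x₀ ≤ x →
  ∀ (g : ℕ → ℂ) (B : ℝ), CM g → 0 ≤ B →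
  (∀ y : ℝ, |y| ≤ x → B ≤ ∑ p ∈ PrL x, (1 - (g p * nit p y).re) / p) →
  ‖Sg g x‖ ≤ C * (Real.exp (-(B / 2)) + 1 / h) * x

/-! ### The function `lam * chi` -/

open Classical in
/-- Bound for `L (1 + 1 / log N + i u)`. -/
def ST_LB : Prop := ∀ (q : ℕ) (ψ : DirichletCharacter ℂ q) (A k : ℝ), 1 ≤ q → 1 ≤ A → 1 ≤ k →
  ∃ N₀ : ℝ, ∀ N u : ℝ, N₀ ≤ N → (u ≠ 0 ∨ ψ ≠ 1) → |u| ≤ N ^ A →
  ‖Gv (fun n => ψ n) (1 / Real.log N) u‖ ≤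
    2 / k * Real.log N + (if ψ = 1 then 1 / |u| else 0)

/-- Consequence of `L (1, ψ) ≠ 0`. -/
def ST_L1 : Prop := ∀ (q : ℕ) (ψ : DirichletCharacter ℂ q), 1 ≤ q → ψ ≠ 1 →
  ∃ C : ℝ, ∀ x : ℝ, 3 ≤ x → -C ≤ ∑ p ∈ PrL x, (ψ p).re / (p : ℝ)

/-- Mertens' theorem. -/
def ST_MER : Prop := ∃ C : ℝ, 0 < C ∧ ∀ x : ℝ, 3 ≤ x →
  |∑ p ∈ PrL x, 1 / (p : ℝ) - Real.log (Real.log x)| ≤ C ∧
  ∑ p ∈ PrL x, Real.log p / p ≤ Real.log x + C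

/-- `lam * chi` does not pretend to be `n ^ (i t)`. -/
def ST_DIST : Prop := ∀ (q : ℕ) (χ : DirichletCharacter ℂ q) (A B : ℝ), 1 ≤ q → 1 ≤ A →
  ∃ N₀ : ℝ, ∀ N t : ℝ, N₀ ≤ N → |t| ≤ N ^ A →
  B ≤ ∑ p ∈ PrL N, (1 - (lch χ p * nit p t).re) / p

/-- Pointwise bound for the long polynomials. -/
def ST_SUP : Prop := ∀ (q : ℕ) (χ : DirichletCharacter ℂ q) (J : ℕ) (P Q : ℕ → ℝ)
  (θ₁ θ₂ δ : ℝ), 1 ≤ q → 0 < θ₁ → θ₁ < θ₂ → θ₂ < 1 → 0 < δ → ∃ Z₀ : ℝ, ∀ Z M t : ℝ, Z₀ ≤ Z →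
  Z ^ (1 / 2 : ℝ) ≤ M → M ≤ Z → |t| ≤ Z →
  ‖DP (IocN M (2 * M)) (bco (Z ^ θ₁) (Z ^ θ₂) (lch χ)
    (fun n => ∀ j ∈ range J, Hit (P j) (Q j) n)) t‖ ≤ δ

/-- Density of the integers without prime factors in `(P, Q]`. -/
def ST_DENS : Prop := ∃ C : ℝ, 0 < C ∧ ∀ P Q X : ℝ, 2 ≤ P → P < Q → Q ^ 2 ≤ X →
  (Nat.card {n : ℕ // X < n ∧ (n : ℝ) ≤ 2 * X ∧ ¬ Hit P Q n} : ℝ) *
    Real.log (Real.log Q / Real.log P) ≤ C * X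

/-- The last region. -/
def ST_U : Prop := ∃ C : ℝ, 0 < C ∧ ∃ c : ℝ, 0 < c ∧
  ∀ (q : ℕ) (χ : DirichletCharacter ℂ q) (J : ℕ) (P Q : ℕ → ℝ) (θ₁ θ₂ h δ : ℝ),
  1 ≤ q → 0 < θ₁ → θ₁ < θ₂ → θ₂ ≤ 1 / 4 → 1 ≤ h → 0 < δ →
  ∃ Z₀ : ℝ, ∀ (Z X T : ℝ) (U : Set ℝ), Z₀ ≤ Z → Z ^ (9 / 10 : ℝ) ≤ X → X ≤ Z → 1 ≤ T → T ≤ X →
  MeasurableSet U → U ⊆ Set.Icc (-T) T → (volume U).toReal ≤ Z ^ c →
  ∫ t in U, ‖DP (IocN X (2 * X)) (res (fun n => (∀ j ∈ range J, Hit (P j) (Q j) n) ∧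
    Hit (Z ^ θ₁) (Z ^ θ₂) n) (lch χ)) t‖ ^ 2 ≤ C / h + δ

/-- The chain of the regions. -/
def ST_CH : Prop := ∃ C : ℝ, 0 < C ∧
  ∀ (P Q H α : ℕ → ℝ) (J : ℕ) (X T : ℝ) (f : ℕ → ℂ) (s : ℕ → Prop),
  0 < P 0 → (∀ j ≤ J, 2 ≤ Real.log (P j) ∧ P j < Q j ∧ 1 ≤ H j) →
  (∀ j < J, Q j ≤ P (j + 1) ∧ α j < α (j + 1) ∧
    4 * (Real.log (Real.log (Q (j + 1))) + 3) ≤ (α (j + 1) - α j) * Real.log (P j)) →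
  0 < α 0 → α J ≤ 1 → 1 ≤ X → 1 ≤ T → CM f → (∀ j ≤ J, Inv (P j) (Q j) s) →
  ∫ t in (-T)..T, ‖DP (IocN X (2 * X))
      (res (fun n => (∀ j ∈ range (J + 1), Hit (P j) (Q j) n) ∧ s n) f) t‖ ^ 2 ≤
    C * (T / X + 1) * ∑ j ∈ range (J + 1), (1 / H j + 1 / P j + 1 / X) +
    C * (H 0 * Real.log (Q 0) + 1) ^ 2 * (P 0) ^ (-(2 * α 0)) * (T * Q 0 / X + 1) +
    C * (T / X + 1) * ∑ j ∈ range J, (H (j + 1) * Real.log (Q (j + 1)) + 1) ^ 2 *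
      (H j * Real.log (Q j) + 1) * Real.exp (-((α (j + 1) - α j) * Real.log (P (j + 1))) +
        2 * α j * Real.log (Q j) + 2 * Real.log (Real.log (Q (j + 1)))) +
    ∫ t in {t | t ∈ Set.Icc (-T) T ∧ ¬ Small (P J) (Q J) (H J) f (α J) t},
      ‖DP (IocN X (2 * X))
        (res (fun n => (∀ j ∈ range (J + 1), Hit (P j) (Q j) n) ∧ s n) f) t‖ ^ 2

/-- The numbers `H j`. -/
noncomputable def Hsc (η y : ℝ) (j : ℕ) : ℝ := 2 ^ j * Real.exp (η * y / 4)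

/-- The exponents. -/
noncomputable def Asc (η : ℝ) (j : ℕ) : ℝ := η * (2 - (1 / 2) ^ j)

/-- Parameters, part 1. -/
def ST_PA : Prop := ∀ K η : ℝ, 2 ≤ K → 0 < η → η ≤ 1 / 4 → ∃ y₀ : ℝ, ∀ y : ℝ, y₀ ≤ y →
  (∀ j, 2 ≤ Real.log (Psc y j) ∧ Psc y j < Qsc K y j ∧ 1 ≤ Hsc η y j ∧
    Qsc K y j ≤ Psc y (j + 1) ∧ Asc η j < Asc η (j + 1) ∧ Asc η (j + 1) ≤ 1 ∧
    4 * (Real.log (Real.log (Qsc K y (j + 1))) + 3) ≤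
      (Asc η (j + 1) - Asc η j) * Real.log (Psc y j)) ∧
  (Hsc η y 0 * Real.log (Qsc K y 0) + 1) ^ 2 * (Psc y 0) ^ (-(2 * Asc η 0)) ≤
    Real.exp (-(η * y / 4)) ∧
  (∀ J : ℕ, ∑ j ∈ range (J + 1), (1 / Hsc η y j + 1 / Psc y j) ≤
    3 * Real.exp (-(η * y / 4))) ∧
  ∀ J : ℕ, ∑ j ∈ range J, (Hsc η y (j + 1) * Real.log (Qsc K y (j + 1)) + 1) ^ 2 *
      (Hsc η y j * Real.log (Qsc K y j) + 1) *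
      Real.exp (-((Asc η (j + 1) - Asc η j) * Real.log (Psc y (j + 1))) +
        2 * Asc η j * Real.log (Qsc K y j) +
        2 * Real.log (Real.log (Qsc K y (j + 1)))) ≤ Real.exp (-(η * y / 4))

/-- Parameters, part 2. -/
def ST_PB : Prop := ∀ K η y θ C : ℝ, 2 ≤ K → 0 < η → η ≤ 1 / 4 → 2 ≤ y → 0 < θ → 0 < C →
  ∃ Z₀ : ℝ, ∀ Z : ℝ, Z₀ ≤ Z →
  (Real.log (Real.log Z)) ^ 2 ≤ Real.log (Psc y (Jz y Z)) ∧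
  (∀ j ≤ Jz y Z, Qsc K y j ≤ Z ^ θ) ∧ ((Jz y Z : ℝ) + 1 ≤ Real.log Z) ∧
  C * (Hsc η y (Jz y Z) * Real.log (Qsc K y (Jz y Z)) + 1) *
    Real.exp (2 * Asc η (Jz y Z) * (Real.log Z + Real.log (Qsc K y (Jz y Z))) +
      (4 * Real.log Z / Real.log (Psc y (Jz y Z)) + 2) * (Real.log (Real.log Z) + 3)) ≤
    Z ^ (5 * η)

/-- The Matomaki-Radziwill theorem for Dirichlet polynomials. -/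
def ST_MR : Prop := ∀ K θ₁ θ₂ : ℝ, 2 ≤ K → 0 < θ₁ → θ₁ < θ₂ → θ₂ ≤ 1 / 4 →
  ∃ κ : ℝ, 0 < κ ∧ ∃ L₀ : ℝ, ∀ L : ℝ, L₀ ≤ L →
  ∀ (q : ℕ) (χ : DirichletCharacter ℂ q), 1 ≤ q → ∃ Z₀ : ℝ, ∀ Z X T : ℝ, Z₀ ≤ Z →
  Z / L ≤ X → X ≤ Z → 1 ≤ T → T ≤ X →
  ∫ t in (-T)..T,
    ‖DP (IocN X (2 * X)) (res (SS K (Real.log L / (4 * K)) θ₁ θ₂ Z) (lch χ)) t‖ ^ 2 ≤
    (T * L ^ (1 / 4 : ℝ) / X + 1) * L ^ (-κ)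

/-! ### Short intervals and exponential sums -/

/-- Plancherel inequality for sums over short multiplicative intervals. -/
def ST_PLA : Prop := ∃ C : ℝ, 0 < C ∧ ∀ (s : Finset ℕ) (δ : ℝ) (a : ℕ → ℂ),
  (∀ n ∈ s, 1 ≤ n) → 0 < δ → δ ≤ 1 →
  ∫ u : ℝ, ‖∑ n ∈ s.filter (fun n : ℕ => u < Real.log n ∧ Real.log n ≤ u + δ), a n‖ ^ 2 *
      Real.exp (-(2 * u)) ≤
    C * ∫ t : ℝ, ‖DP s a t‖ ^ 2 * min (δ ^ 2) (1 / (1 + t ^ 2))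

/-- From mean squares of Dirichlet polynomials to short intervals. -/
def ST_PL : Prop := ∃ C : ℝ, 0 < C ∧ ∀ (X h E B : ℝ) (a : ℕ → ℂ), (∀ n, ‖a n‖ ≤ 1) →
  1 ≤ B → B ≤ h → h ≤ X → 0 ≤ E → E ≤ 1 →
  (∀ T, 1 ≤ T → T ≤ X → ∫ t in (-T)..T, ‖DP (IocN X (2 * X)) a t‖ ^ 2 ≤ (T * B / X + 1) * E) →
  ∫ u : ℝ, ‖∑ n ∈ (IocN X (2 * X)).filter
      (fun n : ℕ => u < Real.log n ∧ Real.log n ≤ u + h / X), a n‖ ≤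
    C * h * (Real.sqrt E + 1 / h)

open Classical in
/-- `min (V, 1 / ‖x‖)`. -/
noncomputable def mn (V x : ℝ) : ℝ := if V * |x - round x| ≤ 1 then V else 1 / |x - round x|

/-- Sums of the kernel. -/
def ST_KER : Prop := ∃ C : ℝ, 0 < C ∧ ∀ (θ V : ℝ) (a : ℤ) (q R : ℕ), 1 ≤ q → 1 ≤ R → 1 ≤ V →
  IsCoprime a (q : ℤ) → |θ - a / q| ≤ 1 / (q : ℝ) ^ 2 →
  ∑ d ∈ Icc 1 R, mn V (d * θ) ≤ C * (R / q + 1) * (V + q * Real.log (2 * q))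

/-- Minor arcs. -/
def ST_MIN : Prop := ∃ C : ℝ, 0 < C ∧ ∀ (P Q X θ : ℝ) (f : ℕ → ℂ) (s : ℕ → Prop) (L q : ℕ)
  (a : ℤ), 2 ≤ P → P < Q → Q ≤ L → (L : ℝ) ≤ X → CM f → Inv P Q s → 1 ≤ q →
  IsCoprime a (q : ℤ) → |θ - a / q| ≤ 1 / (q : ℝ) ^ 2 →
  ∑ m ∈ range (⌊2 * X⌋₊ + 1), ‖∑ j ∈ range L,
      res (fun n => X < n ∧ (n : ℝ) ≤ 2 * X ∧ s n ∧ Hit P Q n) f (m + j) * ee (j * θ)‖ ≤
    C * X * L * (Real.log Q * Real.sqrt (1 / q + 1 / P + (Q + q) * Real.log (2 * q) / L) + 1 / P)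

/-- From windows to short multiplicative intervals. -/
def ST_WIN : Prop := ∃ C : ℝ, 0 < C ∧ ∀ (X δ : ℝ) (L : ℕ) (b : ℕ → ℂ), (∀ n, ‖b n‖ ≤ 1) →
  0 < δ → δ ≤ 1 → 1 ≤ X → (L : ℝ) ≤ X → (∀ n : ℕ, (n : ℝ) ≤ X ∨ 2 * X < n → b n = 0) →
  ∑ m ∈ range (⌊2 * X⌋₊ + 1), ‖∑ j ∈ range L, b (m + j)‖ ≤
    L / δ * (∫ u : ℝ, ‖∑ n ∈ (IocN X (2 * X)).filter
      (fun n : ℕ => u < Real.log n ∧ Real.log n ≤ u + δ), b n‖) + C * X * (X * δ + 1)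

/-- Major arcs. -/
def ST_MAJ : Prop := ∃ C : ℝ, 0 < C ∧ ∀ (X W E : ℝ) (L : ℕ) (s : ℕ → Prop),
  1 ≤ W → W ^ 2 ≤ L → (L : ℝ) ≤ X → 0 ≤ E →
  (∀ d n : ℕ, 1 ≤ d → (d : ℝ) ≤ W → 0 < n → (s (d * n) ↔ s n)) →
  (∀ (d r : ℕ) (χ : DirichletCharacter ℂ r), 1 ≤ d → (d : ℝ) ≤ W → 1 ≤ r → (r : ℝ) ≤ W →
    ∫ u : ℝ, ‖∑ n ∈ (IocN (X / d) (2 * (X / d))).filter
      (fun n : ℕ => u < Real.log n ∧ Real.log n ≤ u + L / (W ^ 2 * X)), res s (lch χ) n‖ ≤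
      L / (W ^ 2 * d) * E) →
  ∀ (θ : ℝ) (a : ℤ) (q : ℕ), 1 ≤ q → (q : ℝ) ≤ W → |θ - a / q| ≤ W / (q * L) →
  ∑ m ∈ range (⌊2 * X⌋₊ + 1), ‖∑ j ∈ range L,
      res (fun n => X < n ∧ (n : ℝ) ≤ 2 * X ∧ s n) lam (m + j) * ee (j * θ)‖ ≤
    C * X * L * (W * E + 1 / W)

/-- Exponential sums in short windows. -/
def ST_EXP : Prop := ∀ K θ₁ θ₂ : ℝ, 2 ≤ K → 0 < θ₁ → θ₁ < θ₂ → θ₂ ≤ 1 / 4 →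
  ∃ κ : ℝ, 0 < κ ∧ ∃ L₀ : ℝ, ∀ L : ℝ, L₀ ≤ L → ∃ Z₀ : ℝ, ∀ (Z X : ℝ) (L' : ℕ) (θ : ℝ), Z₀ ≤ Z →
  Z / L ^ κ ≤ X → X ≤ Z → L ^ (9 / 10 : ℝ) ≤ L' → (L' : ℝ) ≤ L →
  ∑ m ∈ range (⌊2 * X⌋₊ + 1), ‖∑ j ∈ range L',
      res (fun n => X < n ∧ (n : ℝ) ≤ 2 * X ∧ SS K (Real.log L / (4 * K)) θ₁ θ₂ Z n)
        lam (m + j) * ee (j * θ)‖ ≤ X * L' * L ^ (-κ)

/-- From exponentials to arbitrary test vectors. -/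
def ST_VEC : Prop := ∃ C : ℝ, 0 < C ∧ ∀ (N L : ℕ) (a : ℕ → ℂ) (E : ℝ), 1 ≤ L → L ≤ N →
  (∀ n, ‖a n‖ ≤ 1) → (∀ n, N < n → a n = 0) → (∀ n, n ≤ L → a n = 0) →
  (∀ θ : ℝ, ∑ m ∈ range (N + 1), ‖∑ j ∈ range L, a (m + j) * ee (j * θ)‖ ≤ N * L * E) →
  ∀ c : ℕ → ℂ, (∀ j, ‖c j‖ ≤ 1) →
  ∑ m ∈ range (N + 1), ‖∑ j ∈ range L, a (m + j) * c j‖ ^ 2 ≤ C * N * (L : ℝ) ^ 2 * Real.sqrt E

/-- The same for the Moebius function. -/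
def ST_MU : Prop := ∀ K θ₁ θ₂ : ℝ, 2 ≤ K → 0 < θ₁ → θ₁ < θ₂ → θ₂ ≤ 1 / 4 →
  ∃ κ : ℝ, 0 < κ ∧ ∃ L₀ : ℕ, ∀ L : ℕ, L₀ ≤ L → ∃ Z₀ : ℝ, ∀ (Z X : ℝ) (c : ℕ → ℂ), Z₀ ≤ Z →
  Z / (L : ℝ) ^ κ ≤ X → X ≤ Z → (∀ j, ‖c j‖ ≤ 1) →
  ∑ m ∈ range (⌊2 * X⌋₊ + 1), ‖∑ j ∈ range L,
      res (fun n => X < n ∧ (n : ℝ) ≤ 2 * X ∧ SS K (Real.log L / (4 * K)) θ₁ θ₂ Z n)
        (fun n => (ArithmeticFunction.moebius n : ℂ)) (m + j) * c j‖ ^ 2 ≤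
    X * (L : ℝ) ^ (2 - κ)

/-- The final number theoretic statement. -/
def ST_NT : Prop := ∀ ε : ℝ, 0 < ε → ε < 1 → ∃ κ : ℝ, 0 < κ ∧ ∃ L₀ : ℕ, ∀ L : ℕ, L₀ ≤ L →
  ∃ Z₀ : ℝ, ∀ Z : ℝ, Z₀ ≤ Z → ∃ s : ℕ → Prop, ∀ X : ℝ, ε * Z ≤ X → X ≤ Z →
  (Nat.card {n : ℕ // X < n ∧ (n : ℝ) ≤ 2 * X ∧ ¬ s n} : ℝ) ≤ ε * X ∧
  ∀ c : ℕ → ℂ, (∀ j, ‖c j‖ ≤ 1) →
  ∑ m ∈ range (⌊2 * X⌋₊ + 1), ‖∑ j ∈ range L,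
      res (fun n => X < n ∧ (n : ℝ) ≤ 2 * X ∧ s n)
        (fun n => (ArithmeticFunction.moebius n : ℂ)) (m + j) * c j‖ ^ 2 ≤
    X * (L : ℝ) ^ (2 - κ)

end Pool.Agent.Helper40.MR
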