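import Mathlib
import Pool.Agent.Helper40.MobDefs

open Filter Topology MeasureTheory
open scoped InnerProductSpace ComplexConjugate ComplexOrder

set_option linter.unusedSectionVars false

namespace Pool.Agent.Helper40.MR

open Pool.Agent.Helper40.Mob

universe u

variable {A : Type u} [CStarAlgebra A]

/-- the GNS representation -/
theorem cst_exists_gns (ρ : A →L[ℂ] ℂ) (hρ : IsState ρ) :
    ∃ (H : Type u) (_ : NormedAddCommGroup H) (_ : InnerProductSpace ℂ H) (_ : CompleteSpace H)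
      (π : A →⋆ₐ[ℂ] (H →L[ℂ] H)) (ζ : H), ∀ a, ρ a = inner ℂ ζ (π a ζ) := by
  let _ := CStarAlgebra.spectralOrder A
  have := CStarAlgebra.spectralOrderedRing A
  have hpos : ∀ a : A, 0 ≤ a → 0 ≤ (ρ : A →ₗ[ℂ] ℂ) a := by
    intro a ha
    obtain ⟨b, rfl⟩ := CStarAlgebra.nonneg_iff_eq_star_mul_self.1 ha
    obtain ⟨r, hr, h1⟩ := hρ.1 b
    change 0 ≤ ρ (star b * b)
    rw [h1]
    exact_mod_cast hr
  let f : A →ₚ[ℂ] ℂ := PositiveLinearMap.mk₀ (ρ : A →ₗ[ℂ] ℂ) hpos
  refine ⟨f.GNS, inferInstance, inferInstance, inferInstance, f.gnsStarAlgHom,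
    ((f.toPreGNS 1 : f.PreGNS) : f.GNS), fun a => ?_⟩
  change ρ a = inner ℂ ((f.toPreGNS 1 : f.PreGNS) : f.GNS)
    (f.gnsNonUnitalStarAlgHom a ((f.toPreGNS 1 : f.PreGNS) : f.GNS))
  rw [PositiveLinearMap.gnsNonUnitalStarAlgHom_apply_coe,
    UniformSpace.Completion.inner_coe, PositiveLinearMap.preGNS_inner_def]
  simp only [PositiveLinearMap.ofPreGNS_toPreGNS, star_one, one_mul,
    PositiveLinearMap.leftMulMapPreGNS_apply, mul_one]
  rfl

/-- a functional with norm one and value one at the unit is a state -/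
theorem cst_isState_of_norm (g : A →L[ℂ] ℂ) (h1 : g 1 = 1) (h2 : ‖g‖ = 1) : IsState g := by
  let _ := CStarAlgebra.spectralOrder A
  have := CStarAlgebra.spectralOrderedRing A
  have hle : ∀ a, ‖g a‖ ≤ ‖a‖ := fun a => by
    have := g.le_opNorm a
    rwa [h2, one_mul] at this
  have hnt : Nontrivial A := by
    by_contra h
    rw [not_nontrivial_iff_subsingleton] at h
    rw [Subsingleton.elim (1 : A) 0, map_zero] at h1
    exact zero_ne_one h1
  refine ⟨fun b => ?_, h2⟩
  have hsa : IsSelfAdjoint (star b * b) := IsSelfAdjoint.star_mul_self b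
  have him : (g (star b * b)).im = 0 := by
    by_contra him
    set c := star b * b with hc
    set α := (g c).re
    set β := (g c).im
    have key : ∀ s : ℝ, α ^ 2 + (β + s) ^ 2 ≤ ‖c‖ ^ 2 + s ^ 2 := by
      intro s
      have h3 := hle (c + ((s : ℂ) * Complex.I) • 1)
      have h4 : ‖g (c + ((s : ℂ) * Complex.I) • 1)‖ ^ 2 = α ^ 2 + (β + s) ^ 2 := by
        rw [map_add, map_smul, h1, smul_eq_mul, mul_one, ← Complex.normSq_eq_norm_sq,
          Complex.normSq_apply]
        simp [α, β]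
        ring
      have h5 : ‖c + ((s : ℂ) * Complex.I) • (1 : A)‖ ^ 2 ≤ ‖c‖ ^ 2 + s ^ 2 := by
        rw [sq, ← CStarRing.norm_star_mul_self]
        have h6 : star (c + ((s : ℂ) * Complex.I) • (1 : A)) * (c + ((s : ℂ) * Complex.I) • (1 : A)) =
            c * c + ((s : ℂ) ^ 2) • (1 : A) := by
          rw [star_add, star_smul, star_one, hsa.star_eq]
          have h7 : star ((s : ℂ) * Complex.I) = -((s : ℂ) * Complex.I) := by
            rw [Complex.star_def, map_mul, Complex.conj_ofReal, Complex.conj_I, mul_neg]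
          rw [h7, neg_smul, add_mul, mul_add, mul_add, neg_mul, neg_mul, smul_mul_assoc, one_mul,
            mul_smul_comm, mul_one, smul_mul_smul_comm, one_mul]
          have h8 : ((s : ℂ) * Complex.I) * ((s : ℂ) * Complex.I) = -((s : ℂ) ^ 2) := by
            linear_combination ((s : ℂ) ^ 2) * Complex.I_mul_I
          rw [h8, neg_smul]
          abel
        rw [h6]
        refine (norm_add_le _ _).trans ?_
        have h9 : ‖c * c‖ ≤ ‖c‖ ^ 2 := by rw [sq]; exact norm_mul_le _ _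
        have h10 : ‖((s : ℂ) ^ 2) • (1 : A)‖ = s ^ 2 := by
          rw [norm_smul, norm_one, mul_one, norm_pow, Complex.norm_real, Real.norm_eq_abs, sq_abs]
        rw [h10]
        gcongr
      rw [← h4]
      refine le_trans ?_ h5
      gcongr
    have h11 := key ((‖c‖ ^ 2 + 1) / (2 * β))
    have h12 : β ≠ 0 := him
    have h13 : 2 * β * ((‖c‖ ^ 2 + 1) / (2 * β)) = ‖c‖ ^ 2 + 1 := by field_simp
    nlinarith [sq_nonneg α, sq_nonneg β]
  have hre : 0 ≤ (g (star b * b)).re := by
    have h3 : ‖algebraMap ℝ A ‖star b * b‖ - star b * b‖ ≤ ‖star b * b‖ := by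
      have h4 : (0 : A) ≤ algebraMap ℝ A ‖star b * b‖ - star b * b :=
        sub_nonneg.2 hsa.le_algebraMap_norm_self
      have h5 : algebraMap ℝ A ‖star b * b‖ - star b * b ≤ algebraMap ℝ A ‖star b * b‖ :=
        sub_le_self _ (star_mul_self_nonneg b)
      refine (CStarAlgebra.norm_le_norm_of_nonneg_of_le h4 h5).trans ?_
      rw [norm_algebraMap', Real.norm_of_nonneg (norm_nonneg _)]
    have h6 := (hle _).trans h3
    rw [map_sub, Algebra.algebraMap_eq_smul_one] at h6
    have h7 : g (‖star b * b‖ • (1 : A)) = (‖star b * b‖ : ℂ) := by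
      have : (‖star b * b‖ • (1 : A)) = ((‖star b * b‖ : ℂ)) • (1 : A) := by
        rw [← Complex.coe_smul]
      rw [this, map_smul, h1, smul_eq_mul, mul_one]
    rw [h7] at h6
    have h8 := (Complex.abs_re_le_norm _).trans h6
    rw [Complex.sub_re, Complex.ofReal_re] at h8
    have := (abs_le.1 h8).2
    linarith
  refine ⟨(g (star b * b)).re, hre, ?_⟩
  apply Complex.ext
  · simp
  · rw [him]; simp

theorem cst_state_one (ρ : A →L[ℂ] ℂ) (hρ : IsState ρ) : ρ 1 = 1 := by
  obtain ⟨H, _, _, _, π, ζ, hζ⟩ := cst_exists_gns ρ hρ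
  have hnt : Nontrivial A := by
    by_contra h
    rw [not_nontrivial_iff_subsingleton] at h
    have h1 : ρ = 0 := by
      ext x
      rw [Subsingleton.elim x 0]
      simp
    have := hρ.2
    rw [h1, norm_zero] at this
    exact zero_ne_one this
  have h1 : ρ 1 = ((‖ζ‖ ^ 2 : ℝ) : ℂ) := by
    rw [hζ, map_one, one_apply_eq_self, inner_self_eq_norm_sq_to_K]
    push_cast
    rfl
  have h2 : ‖ρ‖ ≤ ‖ζ‖ ^ 2 := by
    apply ρ.opNorm_le_bound (by positivity)
    intro a
    rw [hζ]
    refine (norm_inner_le_norm _ _).trans ?_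
    have h3 : ‖π a ζ‖ ≤ ‖a‖ * ‖ζ‖ := by
      refine (ContinuousLinearMap.le_opNorm _ _).trans ?_
      gcongr
      exact NonUnitalStarAlgHom.norm_apply_le π a
    calc _ ≤ ‖ζ‖ * (‖a‖ * ‖ζ‖) := by gcongr
      _ = _ := by ring
  have h4 : ‖ζ‖ ^ 2 ≤ 1 := by
    have h5 := ρ.le_opNorm 1
    rw [h1, hρ.2, norm_one, one_mul, Complex.norm_real, Real.norm_of_nonneg (by positivity)] at h5
    exact h5
  rw [hρ.2] at h2
  have h6 : ‖ζ‖ ^ 2 = 1 := le_antisymm h4 h2
  rw [h1, h6]
  simp


end Pool.Agent.Helper40.MR
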