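import Mathlib
import Pool.Agent.Helper40.MR.CSTc

open Filter Topology Finset
open scoped ComplexConjugate

namespace Pool.Agent.Helper40.MR

open Pool.Agent.Helper40.Mob

universe u

variable {A : Type u} [CStarAlgebra A]

/-- a linear functional dominated on the range of a linear map -/
theorem cst_factor {V E : Type*} [AddCommGroup V] [Module ℂ V] [NormedAddCommGroup E]
    [NormedSpace ℂ E] (T : V →ₗ[ℂ] E) (l : V →ₗ[ℂ] ℂ) (h : ∀ v, ‖l v‖ ≤ ‖T v‖) :
    ∃ g : E →L[ℂ] ℂ, ‖g‖ ≤ 1 ∧ ∀ v, g (T v) = l v := by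
  have hker : LinearMap.ker T ≤ LinearMap.ker l := by
    intro v hv
    rw [LinearMap.mem_ker] at hv ⊢
    have := h v
    rw [hv, norm_zero] at this
    exact norm_le_zero_iff.mp this
  let f : LinearMap.range T →ₗ[ℂ] ℂ :=
    ((LinearMap.ker T).liftQ l hker) ∘ₗ (T.quotKerEquivRange.symm : LinearMap.range T →ₗ[ℂ] _)
  have hf : ∀ v, f ⟨T v, LinearMap.mem_range_self T v⟩ = l v := by
    intro v
    have h1 : T.quotKerEquivRange.symm ⟨T v, LinearMap.mem_range_self T v⟩ =
        (LinearMap.ker T).mkQ v := LinearMap.quotKerEquivRange_symm_apply_image T v _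
    change (LinearMap.ker T).liftQ l hker (T.quotKerEquivRange.symm _) = _
    rw [h1, Submodule.mkQ_apply, Submodule.liftQ_apply]
  have hf2 : ∀ x, ‖f x‖ ≤ 1 * ‖x‖ := by
    rintro ⟨x, v, rfl⟩
    rw [hf, one_mul]
    exact h v
  obtain ⟨g, hg1, hg2⟩ := exists_extension_norm_eq _ (f.mkContinuous 1 hf2)
  refine ⟨g, ?_, fun v => ?_⟩
  · rw [hg2]
    exact LinearMap.mkContinuous_norm_le f zero_le_one hf2
  · have := hg1 ⟨T v, LinearMap.mem_range_self T v⟩
    rw [this]
    exact hf v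

theorem cst_exists_state_sa [Nontrivial A] (a : A) (ha : IsSelfAdjoint a) :
    ∃ ρ : A →L[ℂ] ℂ, IsState ρ ∧ ‖ρ a‖ = ‖a‖ := by
  obtain ⟨k, hk, hk2⟩ := spectrum.exists_nnnorm_eq_spectralRadius a
  have hk3 : ‖k‖ = ‖a‖ := by
    rw [ha.spectralRadius_eq_nnnorm] at hk2
    have : ‖k‖₊ = ‖a‖₊ := by exact_mod_cast hk2
    exact congrArg NNReal.toReal this
  let T : ℂ × ℂ →ₗ[ℂ] A :=
    { toFun := fun v => v.1 • (1 : A) + v.2 • a
      map_add' := fun v w => by
        simp only [Prod.fst_add, Prod.snd_add, add_smul]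
        abel
      map_smul' := fun c v => by
        simp only [Prod.smul_fst, Prod.smul_snd, smul_eq_mul, RingHom.id_apply, smul_add,
          mul_smul] }
  let l : ℂ × ℂ →ₗ[ℂ] ℂ :=
    { toFun := fun v => v.1 + v.2 * k
      map_add' := fun v w => by
        simp only [Prod.fst_add, Prod.snd_add]
        ring
      map_smul' := fun c v => by
        simp only [Prod.smul_fst, Prod.smul_snd, smul_eq_mul, RingHom.id_apply]
        ring }
  have h : ∀ v, ‖l v‖ ≤ ‖T v‖ := by
    rintro ⟨s, t⟩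
    change ‖s + t * k‖ ≤ ‖s • (1 : A) + t • a‖
    have h1 : s + t * k ∈ spectrum ℂ (s • (1 : A) + t • a) := by
      have h2 : t • k ∈ spectrum ℂ (t • a) := by
        rw [spectrum.smul_eq_smul t a ⟨k, hk⟩]
        exact Set.smul_mem_smul_set hk
      have h3 := spectrum.add_mem_add_iff (r := t • k) (s := s) (a := t • a)
      rw [← Algebra.algebraMap_eq_smul_one, add_comm s]
      rw [← smul_eq_mul]
      exact h3.mpr h2
    exact spectrum.norm_le_norm_of_mem h1
  obtain ⟨g, hg1, hg2⟩ := cst_factor T l h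
  have hg3 : g 1 = 1 := by
    have := hg2 (1, 0)
    change g ((1 : ℂ) • (1 : A) + (0 : ℂ) • a) = 1 + 0 * k at this
    simpa using this
  have hg4 : g a = k := by
    have := hg2 (0, 1)
    change g ((0 : ℂ) • (1 : A) + (1 : ℂ) • a) = 0 + 1 * k at this
    simpa using this
  have hg5 : ‖g‖ = 1 := by
    apply le_antisymm hg1
    have := g.le_opNorm 1
    rw [hg3, norm_one, norm_one, mul_one] at this
    exact this
  exact ⟨g, cst_isState_of_norm g hg3 hg5, by rw [hg4, hk3]⟩

theorem cst_state_star (ρ : A →L[ℂ] ℂ) (hρ : IsState ρ) (a : A) :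
    ρ (star a) = conj (ρ a) := by
  obtain ⟨H, _, _, _, π, ζ, hζ⟩ := cst_exists_gns ρ hρ
  rw [hζ, hζ, map_star, ContinuousLinearMap.star_eq_adjoint,
    ContinuousLinearMap.adjoint_inner_right, inner_conj_symm]

/-- the states see at least half of the norm -/
theorem cst_exists_state [Nontrivial A] (x : A) :
    ∃ ρ : A →L[ℂ] ℂ, IsState ρ ∧ ‖x‖ ≤ 2 * ‖ρ x‖ := by
  have hx : ((realPart x : selfAdjoint A) : A) + Complex.I • ((imaginaryPart x : selfAdjoint A) : A) = x :=
    realPart_add_I_smul_imaginaryPart x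
  have h1 : ‖x‖ ≤ ‖((realPart x : selfAdjoint A) : A)‖ + ‖((imaginaryPart x : selfAdjoint A) : A)‖ := by
    calc ‖x‖ = ‖((realPart x : selfAdjoint A) : A) +
          Complex.I • ((imaginaryPart x : selfAdjoint A) : A)‖ := by rw [hx]
      _ ≤ _ := by
        refine (norm_add_le _ _).trans ?_
        rw [norm_smul, Complex.norm_I, one_mul]
  have hre : ∀ (ρ : A →L[ℂ] ℂ), IsState ρ → ∀ b : selfAdjoint A, (ρ (b : A)).im = 0 := by
    intro ρ hρ b
    have h2 := cst_state_star ρ hρ (b : A)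
    rw [b.2.star_eq] at h2
    exact Complex.conj_eq_iff_im.mp h2.symm
  rcases le_total ‖((realPart x : selfAdjoint A) : A)‖ ‖((imaginaryPart x : selfAdjoint A) : A)‖ with h | h
  · obtain ⟨ρ, hρ, h2⟩ := cst_exists_state_sa ((imaginaryPart x : selfAdjoint A) : A)
      (imaginaryPart x).2
    refine ⟨ρ, hρ, ?_⟩
    have h3 : (ρ x).im = (ρ ((imaginaryPart x : selfAdjoint A) : A)).re := by
      conv_lhs => rw [← hx]
      rw [map_add, map_smul, smul_eq_mul, Complex.add_im, Complex.mul_im, Complex.I_re,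
        Complex.I_im, hre ρ hρ (realPart x)]
      ring
    have h4 : ‖ρ ((imaginaryPart x : selfAdjoint A) : A)‖ =
        |(ρ ((imaginaryPart x : selfAdjoint A) : A)).re| := by
      rw [← Complex.abs_re_eq_norm.mpr (hre ρ hρ (imaginaryPart x))]
    have h5 := Complex.abs_im_le_norm (ρ x)
    rw [h3, ← h4, h2] at h5
    linarith
  · obtain ⟨ρ, hρ, h2⟩ := cst_exists_state_sa ((realPart x : selfAdjoint A) : A)
      (realPart x).2
    refine ⟨ρ, hρ, ?_⟩
    have h3 : (ρ x).re = (ρ ((realPart x : selfAdjoint A) : A)).re := by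
      conv_lhs => rw [← hx]
      rw [map_add, map_smul, smul_eq_mul, Complex.add_re, Complex.mul_re, Complex.I_re,
        Complex.I_im, hre ρ hρ (imaginaryPart x)]
      ring
    have h4 : ‖ρ ((realPart x : selfAdjoint A) : A)‖ =
        |(ρ ((realPart x : selfAdjoint A) : A)).re| := by
      rw [← Complex.abs_re_eq_norm.mpr (hre ρ hρ (realPart x))]
    have h5 := Complex.abs_re_le_norm (ρ x)
    rw [h3, ← h4, h2] at h5
    linarith

end Pool.Agent.Helper40.MR
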