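import Mathlib

open Finset Filter Topology

namespace Pool.Agent.Helper40.MR

theorem cst_proj {A H : Type*} [AddCommGroup A] [Module ℂ A] [NormedAddCommGroup H]
    [InnerProductSpace ℂ H] (ι : A →ₗ[ℂ] H) (F : Submodule ℂ A) [FiniteDimensional ℂ F] :
    ∃ (d : ℕ) (e : Fin d → A), d ≤ Module.finrank ℂ F ∧
      (∀ k, ‖ι (e k)‖ = 1) ∧
      ∀ x : A, ∀ y ∈ F, ‖ι (x - ∑ k, (inner ℂ (ι (e k)) (ι x) : ℂ) • e k)‖ ≤ ‖ι (x - y)‖ := by
  classical
  set G : Submodule ℂ H := F.map ι with hG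
  have hGf : FiniteDimensional ℂ G := by infer_instance
  set b := stdOrthonormalBasis ℂ G with hb
  have hex : ∀ k, ∃ a ∈ F, ι a = (b k : H) := fun k => by
    obtain ⟨a, ha, h⟩ := Submodule.mem_map.mp (b k).2
    exact ⟨a, ha, h⟩
  choose e he1 he2 using hex
  refine ⟨Module.finrank ℂ G, e, ?_, ?_, ?_⟩
  · exact Submodule.finrank_map_le ι F
  · intro k
    rw [he2]
    exact b.orthonormal.1 k
  · intro x y hy
    have h1 : ι (x - ∑ k, (inner ℂ (ι (e k)) (ι x) : ℂ) • e k) =
        ι x - G.starProjection (ι x) := by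
      rw [map_sub, map_sum]
      congr 1
      rw [Submodule.starProjection_apply, b.orthogonalProjectionOnto_apply_eq_sum]
      rw [Submodule.coe_sum]
      refine Finset.sum_congr rfl fun k _ => ?_
      rw [map_smul, he2, Submodule.coe_smul]
    rw [h1, Submodule.starProjection_minimal, map_sub]
    exact ciInf_le ⟨0, by rintro _ ⟨z, rfl⟩; exact norm_nonneg _⟩
      (⟨ι y, Submodule.mem_map_of_mem hy⟩ : G)

end Pool.Agent.Helper40.MR
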