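import Mathlib

open Finset Filter Topology

namespace Pool.Agent.Helper40.MR

theorem cst_shift (F : ℕ → ℂ) (L M j : ℕ) (hj : j < L) (h1 : ∀ n, n < L → F n = 0)
    (h2 : ∀ n, M < n → F n = 0) :
    ∑ m ∈ range (M + 1), F (m + j) = ∑ n ∈ range (M + 1), F n := by
  have e1 : ∑ n ∈ range (j + (M + 1)), F n =
      ∑ n ∈ range j, F n + ∑ m ∈ range (M + 1), F (j + m) := Finset.sum_range_add F j (M + 1)
  have e2 : ∑ n ∈ range ((M + 1) + j), F n =
      ∑ n ∈ range (M + 1), F n + ∑ m ∈ range j, F ((M + 1) + m) :=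
    Finset.sum_range_add F (M + 1) j
  have e3 : ∑ n ∈ range j, F n = 0 :=
    Finset.sum_eq_zero fun n hn => h1 n (by have := Finset.mem_range.mp hn; omega)
  have e4 : ∑ m ∈ range j, F ((M + 1) + m) = 0 :=
    Finset.sum_eq_zero fun n _ => h2 _ (by omega)
  rw [add_comm j (M + 1), e2, e3, e4, add_zero, zero_add] at e1
  rw [e1]
  exact Finset.sum_congr rfl fun m _ => by rw [add_comm]

theorem cst_window (a w : ℕ → ℂ) (L M : ℕ) (h1 : ∀ n, n < L → a n = 0)
    (h2 : ∀ n, M < n → a n = 0) :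
    (L : ℂ) * ∑ n ∈ range (M + 1), a n * w n =
      ∑ m ∈ range (M + 1), ∑ j ∈ range L, a (m + j) * w (m + j) := by
  rw [Finset.sum_comm]
  have : ∀ j ∈ range L, ∑ m ∈ range (M + 1), a (m + j) * w (m + j) =
      ∑ n ∈ range (M + 1), a n * w n := fun j hj =>
    cst_shift (fun n => a n * w n) L M j (Finset.mem_range.mp hj)
      (fun n hn => by simp [h1 n hn]) (fun n hn => by simp [h2 n hn])
  rw [Finset.sum_congr rfl this, Finset.sum_const, Finset.card_range, nsmul_eq_mul]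

/-- Cauchy-Schwarz for complex sums. -/
theorem cst_cs {ι : Type*} (s : Finset ι) (f g : ι → ℂ) :
    ‖∑ i ∈ s, f i * g i‖ ≤ Real.sqrt (∑ i ∈ s, ‖f i‖ ^ 2) * Real.sqrt (∑ i ∈ s, ‖g i‖ ^ 2) := by
  refine (norm_sum_le _ _).trans ?_
  simp only [norm_mul]
  exact Real.sum_mul_le_sqrt_mul_sqrt s _ _

theorem cst_block (a w : ℕ → ℂ) (d L M : ℕ) (c : Fin d → ℕ → ℂ) (g : Fin d → ℕ → ℂ)
    (z : ℕ → ℕ → ℂ) (B1 B2 : ℝ) (B3 : ℕ → ℝ)
    (ha : ∀ n, ‖a n‖ ≤ 1) (h1 : ∀ n, n < L → a n = 0) (h2 : ∀ n, M < n → a n = 0)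
    (hw : ∀ m, ∀ j < L, w (m + j) = ∑ k, c k j * g k m + z j m)
    (hB1 : ∀ k, ∑ m ∈ range (M + 1), ‖∑ j ∈ range L, a (m + j) * c k j‖ ^ 2 ≤ B1)
    (hB2 : ∀ k, ∑ m ∈ range (M + 1), ‖g k m‖ ^ 2 ≤ B2)
    (hB3 : ∀ j < L, ∑ m ∈ range (M + 1), ‖z j m‖ ^ 2 ≤ B3 j) :
    L * ‖∑ n ∈ range (M + 1), a n * w n‖ ≤
      d * (Real.sqrt B1 * Real.sqrt B2) +
        Real.sqrt (M + 1) * ∑ j ∈ range L, Real.sqrt (B3 j) := by
  have e0 : (L : ℝ) * ‖∑ n ∈ range (M + 1), a n * w n‖ =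
      ‖(L : ℂ) * ∑ n ∈ range (M + 1), a n * w n‖ := by
    rw [norm_mul]; simp
  rw [e0, cst_window a w L M h1 h2]
  have e1 : ∑ m ∈ range (M + 1), ∑ j ∈ range L, a (m + j) * w (m + j) =
      ∑ k, ∑ m ∈ range (M + 1), (∑ j ∈ range L, a (m + j) * c k j) * g k m +
      ∑ j ∈ range L, ∑ m ∈ range (M + 1), a (m + j) * z j m := by
    have e2 : ∀ m ∈ range (M + 1), ∑ j ∈ range L, a (m + j) * w (m + j) =
        ∑ k, (∑ j ∈ range L, a (m + j) * c k j) * g k m +
          ∑ j ∈ range L, a (m + j) * z j m := by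
      intro m _
      have e3 : ∀ j ∈ range L, a (m + j) * w (m + j) =
          ∑ k, (a (m + j) * c k j) * g k m + a (m + j) * z j m := by
        intro j hj
        rw [hw m j (Finset.mem_range.mp hj), mul_add, Finset.mul_sum]
        congr 1
        exact Finset.sum_congr rfl fun k _ => by ring
      rw [Finset.sum_congr rfl e3, Finset.sum_add_distrib, Finset.sum_comm]
      congr 1
      exact Finset.sum_congr rfl fun k _ => by rw [Finset.sum_mul]
    rw [Finset.sum_congr rfl e2, Finset.sum_add_distrib, Finset.sum_comm]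
    congr 1
    rw [Finset.sum_comm]
  rw [e1]
  refine (norm_add_le _ _).trans (add_le_add ?_ ?_)
  · refine (norm_sum_le _ _).trans ?_
    calc ∑ k : Fin d, ‖∑ m ∈ range (M + 1), (∑ j ∈ range L, a (m + j) * c k j) * g k m‖
        ≤ ∑ k : Fin d, Real.sqrt B1 * Real.sqrt B2 := by
          refine Finset.sum_le_sum fun k _ => ?_
          refine (cst_cs _ _ _).trans ?_
          exact mul_le_mul (Real.sqrt_le_sqrt (hB1 k)) (Real.sqrt_le_sqrt (hB2 k))
            (Real.sqrt_nonneg _) (Real.sqrt_nonneg _)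
      _ = _ := by simp
  · refine (norm_sum_le _ _).trans ?_
    rw [Finset.mul_sum]
    refine Finset.sum_le_sum fun j hj => ?_
    refine (cst_cs _ _ _).trans ?_
    refine mul_le_mul (Real.sqrt_le_sqrt ?_) (Real.sqrt_le_sqrt (hB3 j (Finset.mem_range.mp hj)))
            (Real.sqrt_nonneg _) (Real.sqrt_nonneg _)
    calc ∑ m ∈ range (M + 1), ‖a (m + j)‖ ^ 2 ≤ ∑ m ∈ range (M + 1), (1 : ℝ) := by
          refine Finset.sum_le_sum fun m _ => ?_
          have := ha (m + j)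
          have h0 := norm_nonneg (a (m + j))
          nlinarith
      _ = _ := by simp

end Pool.Agent.Helper40.MR
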