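import Mathlib
import Pool.Agent.Helper40.MR.CSTc

open Filter Topology Finset
open scoped ComplexConjugate

namespace Pool.Agent.Helper40.MR

open Pool.Agent.Helper40.Mob

universe u

variable {A : Type u} [CStarAlgebra A]

theorem cst_iter_norm (α : A →⋆ₐ[ℂ] A) (n : ℕ) (x : A) : ‖α^[n] x‖ ≤ ‖x‖ := by
  induction n with
  | zero => simp
  | succ n ih =>
    rw [Function.iterate_succ', Function.comp_apply]
    exact (NonUnitalStarAlgHom.norm_apply_le α _).trans ih

theorem cst_iter_add (α : A →⋆ₐ[ℂ] A) (n : ℕ) (x y : A) :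
    α^[n] (x + y) = α^[n] x + α^[n] y := iterate_map_add α n x y

theorem cst_iter_smul (α : A →⋆ₐ[ℂ] A) (n : ℕ) (c : ℂ) (x : A) :
    α^[n] (c • x) = c • α^[n] x := by
  induction n with
  | zero => rfl
  | succ n ih => rw [Function.iterate_succ', Function.comp_apply, ih, map_smul]; rfl

/-- Cesaro averages. -/
noncomputable def cstf (α : A →⋆ₐ[ℂ] A) (ρ : A →L[ℂ] ℂ) (N : ℕ) (a : A) : ℂ :=
  (1 / (N : ℂ)) * ∑ m ∈ range N, ρ (α^[m] a)

theorem cst_state_le (ρ : A →L[ℂ] ℂ) (hρ : IsState ρ) (a : A) : ‖ρ a‖ ≤ ‖a‖ := by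
  have := ρ.le_opNorm a
  rwa [hρ.2, one_mul] at this

theorem cstf_norm (α : A →⋆ₐ[ℂ] A) (ρ : A →L[ℂ] ℂ) (hρ : IsState ρ) (N : ℕ) (a : A) :
    ‖cstf α ρ N a‖ ≤ ‖a‖ := by
  unfold cstf
  rcases Nat.eq_zero_or_pos N with h | h
  · subst h; simp
  have hN : (0 : ℝ) < N := by exact_mod_cast h
  rw [norm_mul, norm_div, norm_one, Complex.norm_natCast, one_div, inv_mul_le_iff₀ hN]
  refine (norm_sum_le _ _).trans ?_
  calc ∑ m ∈ range N, ‖ρ (α^[m] a)‖ ≤ ∑ m ∈ range N, ‖a‖ :=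
        Finset.sum_le_sum fun m _ => (cst_state_le ρ hρ _).trans (cst_iter_norm α m a)
    _ = N * ‖a‖ := by simp

theorem cstf_add (α : A →⋆ₐ[ℂ] A) (ρ : A →L[ℂ] ℂ) (N : ℕ) (a b : A) :
    cstf α ρ N (a + b) = cstf α ρ N a + cstf α ρ N b := by
  unfold cstf
  simp only [cst_iter_add, map_add, Finset.sum_add_distrib, mul_add]

theorem cstf_smul (α : A →⋆ₐ[ℂ] A) (ρ : A →L[ℂ] ℂ) (N : ℕ) (c : ℂ) (a : A) :
    cstf α ρ N (c • a) = c * cstf α ρ N a := by
  unfold cstf
  simp only [cst_iter_smul, map_smul, smul_eq_mul, ← Finset.mul_sum]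
  ring

theorem cst_limit (α : A →⋆ₐ[ℂ] A) (ρ : A →L[ℂ] ℂ) (hρ : IsState ρ) (F : Ultrafilter ℕ)
    (hF : (F : Filter ℕ) ≤ atTop) :
    ∃ φ : A →L[ℂ] ℂ, IsState φ ∧ (∀ a, φ (α a) = φ a) ∧
      ∀ a, Tendsto (fun N => cstf α ρ N a) F (𝓝 (φ a)) := by
  have hex : ∀ a, ∃ z : ℂ, Tendsto (fun N => cstf α ρ N a) F (𝓝 z) := by
    intro a
    obtain ⟨z, -, hz⟩ := (isCompact_closedBall (0 : ℂ) ‖a‖).ultrafilter_le_nhds
      (F.map (fun N => cstf α ρ N a)) (by
        rw [Ultrafilter.coe_map, Filter.le_principal_iff, Filter.mem_map]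
        exact Filter.Eventually.of_forall fun N => by
          simpa using cstf_norm α ρ hρ N a)
    exact ⟨z, hz⟩
  choose φ0 hφ0 using hex
  have hadd : ∀ a b, φ0 (a + b) = φ0 a + φ0 b := fun a b =>
    tendsto_nhds_unique ((hφ0 (a + b)).congr fun N => cstf_add α ρ N a b)
      ((hφ0 a).add (hφ0 b))
  have hsmul : ∀ (c : ℂ) a, φ0 (c • a) = c * φ0 a := fun c a =>
    tendsto_nhds_unique ((hφ0 (c • a)).congr fun N => cstf_smul α ρ N c a)
      ((hφ0 a).const_mul c)
  have hbd : ∀ a, ‖φ0 a‖ ≤ ‖a‖ := fun a =>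
    le_of_tendsto (hφ0 a).norm (Filter.Eventually.of_forall fun N => cstf_norm α ρ hρ N a)
  let L : A →ₗ[ℂ] ℂ :=
    { toFun := φ0
      map_add' := hadd
      map_smul' := fun c a => by simp [hsmul] }
  let φ : A →L[ℂ] ℂ := L.mkContinuous 1 (fun a => by simpa [L] using hbd a)
  have hφ : ∀ a, φ a = φ0 a := fun a => rfl
  have h1 : φ 1 = 1 := by
    rw [hφ]
    refine tendsto_nhds_unique (hφ0 1) ?_
    refine tendsto_const_nhds.congr' ?_
    have : ∀ᶠ N : ℕ in F, 1 ≤ N := hF (Filter.eventually_ge_atTop 1)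
    filter_upwards [this] with N hN
    unfold cstf
    have h2 : ∀ m : ℕ, α^[m] (1 : A) = 1 := fun m => by
      induction m with
      | zero => rfl
      | succ m ih => rw [Function.iterate_succ', Function.comp_apply, ih, map_one]
    simp only [h2, cst_state_one ρ hρ, Finset.sum_const, Finset.card_range, nsmul_eq_mul, mul_one]
    have : (N : ℂ) ≠ 0 := by exact_mod_cast (by omega : N ≠ 0)
    field_simp
  have hnt : Nontrivial A := by
    by_contra h
    rw [not_nontrivial_iff_subsingleton] at h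
    rw [Subsingleton.elim (1 : A) 0, map_zero] at h1
    exact zero_ne_one h1
  have h2 : ‖φ‖ = 1 := by
    apply le_antisymm
    · exact LinearMap.mkContinuous_norm_le L zero_le_one _
    · have := φ.le_opNorm 1
      rw [h1, norm_one, norm_one, mul_one] at this
      exact this
  refine ⟨φ, cst_isState_of_norm φ h1 h2, ?_, fun a => hφ0 a⟩
  intro a
  rw [hφ, hφ]
  refine tendsto_nhds_unique (hφ0 (α a)) ?_
  have hdiff : Tendsto (fun N => cstf α ρ N (α a) - cstf α ρ N a) F (𝓝 0) := by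
    have h3 : Tendsto (fun N : ℕ => 2 * ‖a‖ / (N : ℝ)) F (𝓝 0) :=
      ((tendsto_const_div_atTop_nhds_zero_nat (2 * ‖a‖))).mono_left hF
    refine squeeze_zero_norm (fun N => ?_) h3
    rcases Nat.eq_zero_or_pos N with h | h
    · subst h; simp [cstf]
    have hN : (0 : ℝ) < N := by exact_mod_cast h
    have h4 : cstf α ρ N (α a) - cstf α ρ N a =
        (1 / (N : ℂ)) * (ρ (α^[N] a) - ρ a) := by
      unfold cstf
      rw [← mul_sub, ← Finset.sum_sub_distrib]
      congr 1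
      have : ∀ m : ℕ, ρ (α^[m] (α a)) = ρ (α^[m + 1] a) := fun m => by
        rw [Function.iterate_succ_apply]
      simp only [this]
      exact Finset.sum_range_sub (fun m => ρ (α^[m] a)) N
    rw [h4, norm_mul, norm_div, norm_one, Complex.norm_natCast, one_div, div_eq_inv_mul]
    gcongr
    refine (norm_sub_le _ _).trans ?_
    have h5 := (cst_state_le ρ hρ (α^[N] a)).trans (cst_iter_norm α N a)
    have h6 := cst_state_le ρ hρ a
    linarith
  have := hdiff.add (hφ0 a)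
  simpa using this

end Pool.Agent.Helper40.MR
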