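import Mathlib
import Pool.Agent.Helper40.MR.Defs

open Filter Topology Finset
open scoped ComplexConjugate

namespace Pool.Agent.Helper40.MR

theorem cst_mob (n : ℕ) : ‖(ArithmeticFunction.moebius n : ℂ)‖ ≤ 1 := by
  rw [Complex.norm_intCast]
  exact_mod_cast ArithmeticFunction.abs_moebius_le_one

theorem cst_card_fin (a b : ℝ) (s : ℕ → Prop) :
    Finite {n : ℕ // a < n ∧ (n : ℝ) ≤ b ∧ ¬ s n} := by
  refine Set.Finite.subset (Set.finite_Iic ⌊b⌋₊) ?_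
  rintro n ⟨-, h2, -⟩
  exact Nat.le_floor h2

theorem cst_step (w : ℕ → ℂ) (U0 : ℝ) (hU0 : 0 ≤ U0) (hU : ∀ n, ‖w n‖ ≤ U0) (s : ℕ → Prop)
    (N : ℕ) (X ε T : ℝ) (hX : 0 ≤ X) (hXN : 2 * X ≤ N)
    (hT : ‖∑ n ∈ range (⌊2 * X⌋₊ + 1), res (fun n => X < n ∧ (n : ℝ) ≤ 2 * X ∧ s n)
      (fun n => (ArithmeticFunction.moebius n : ℂ)) n * w n‖ ≤ T)
    (hc : (Nat.card {n : ℕ // X < n ∧ (n : ℝ) ≤ 2 * X ∧ ¬ s n} : ℝ) ≤ ε * X) :
    ‖∑ n ∈ (Icc 1 N).filter (fun n : ℕ => (n : ℝ) ≤ 2 * X),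
        (ArithmeticFunction.moebius n : ℂ) * w n‖ ≤
      ‖∑ n ∈ (Icc 1 N).filter (fun n : ℕ => (n : ℝ) ≤ X),
        (ArithmeticFunction.moebius n : ℂ) * w n‖ + T + U0 * (ε * X) := by
  classical
  have key : ∑ n ∈ (Icc 1 N).filter (fun n : ℕ => (n : ℝ) ≤ 2 * X),
        (ArithmeticFunction.moebius n : ℂ) * w n =
      ∑ n ∈ (Icc 1 N).filter (fun n : ℕ => (n : ℝ) ≤ X),
        (ArithmeticFunction.moebius n : ℂ) * w n +
      ∑ n ∈ range (⌊2 * X⌋₊ + 1), res (fun n => X < n ∧ (n : ℝ) ≤ 2 * X ∧ s n)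
        (fun n => (ArithmeticFunction.moebius n : ℂ)) n * w n +
      ∑ n ∈ (range (⌊2 * X⌋₊ + 1)).filter (fun n : ℕ => X < n ∧ (n : ℝ) ≤ 2 * X ∧ ¬ s n),
        (ArithmeticFunction.moebius n : ℂ) * w n := by
    have e1 : (Icc 1 N).filter (fun n : ℕ => (n : ℝ) ≤ 2 * X) =
        (Icc 1 N).filter (fun n : ℕ => (n : ℝ) ≤ X) ∪
          (range (⌊2 * X⌋₊ + 1)).filter (fun n : ℕ => X < n ∧ (n : ℝ) ≤ 2 * X) := by
      ext n
      simp only [Finset.mem_union, Finset.mem_filter, Finset.mem_Icc, Finset.mem_range]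
      constructor
      · rintro ⟨⟨h1, h2⟩, h3⟩
        rcases le_or_gt (n : ℝ) X with h4 | h4
        · exact Or.inl ⟨⟨h1, h2⟩, h4⟩
        · exact Or.inr ⟨Nat.lt_succ_of_le (Nat.le_floor h3), h4, h3⟩
      · rintro (⟨⟨h1, h2⟩, h3⟩ | ⟨h1, h2, h3⟩)
        · exact ⟨⟨h1, h2⟩, by linarith⟩
        · refine ⟨⟨?_, ?_⟩, h3⟩
          · by_contra h
            have : n = 0 := by omega
            subst this
            simp at h2
            linarith
          · exact_mod_cast h3.trans hXN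
    have e2 : Disjoint ((Icc 1 N).filter (fun n : ℕ => (n : ℝ) ≤ X))
        ((range (⌊2 * X⌋₊ + 1)).filter (fun n : ℕ => X < n ∧ (n : ℝ) ≤ 2 * X)) := by
      rw [Finset.disjoint_left]
      intro n h1 h2
      rw [Finset.mem_filter] at h1 h2
      linarith [h1.2, h2.2.1]
    rw [e1, Finset.sum_union e2, add_assoc]
    congr 1
    have e3 : ∑ n ∈ range (⌊2 * X⌋₊ + 1), res (fun n => X < n ∧ (n : ℝ) ≤ 2 * X ∧ s n)
        (fun n => (ArithmeticFunction.moebius n : ℂ)) n * w n =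
        ∑ n ∈ ((range (⌊2 * X⌋₊ + 1)).filter (fun n : ℕ => X < n ∧ (n : ℝ) ≤ 2 * X)).filter
          (fun n => s n), (ArithmeticFunction.moebius n : ℂ) * w n := by
      rw [Finset.filter_filter, Finset.sum_filter]
      refine Finset.sum_congr rfl fun n _ => ?_
      unfold res
      by_cases h : X < n ∧ (n : ℝ) ≤ 2 * X ∧ s n
      · rw [if_pos h, if_pos ⟨⟨h.1, h.2.1⟩, h.2.2⟩]
      · rw [if_neg h, if_neg (fun h' => h ⟨h'.1.1, h'.1.2, h'.2⟩), zero_mul]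
    have e4 : (range (⌊2 * X⌋₊ + 1)).filter (fun n : ℕ => X < n ∧ (n : ℝ) ≤ 2 * X ∧ ¬ s n) =
        ((range (⌊2 * X⌋₊ + 1)).filter (fun n : ℕ => X < n ∧ (n : ℝ) ≤ 2 * X)).filter
          (fun n => ¬ s n) := by
      rw [Finset.filter_filter]
      exact Finset.filter_congr fun n _ => by tauto
    rw [e3, e4, Finset.sum_filter_add_sum_filter_not]
  rw [key]
  refine (norm_add_le _ _).trans (add_le_add ((norm_add_le _ _).trans ?_) ?_)
  · gcongr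
  · have hfin := cst_card_fin X (2 * X) s
    have e5 : (((range (⌊2 * X⌋₊ + 1)).filter
        (fun n : ℕ => X < n ∧ (n : ℝ) ≤ 2 * X ∧ ¬ s n)).card : ℝ) ≤
        (Nat.card {n : ℕ // X < n ∧ (n : ℝ) ≤ 2 * X ∧ ¬ s n} : ℝ) := by
      have : Fintype {n : ℕ // X < n ∧ (n : ℝ) ≤ 2 * X ∧ ¬ s n} := Fintype.ofFinite _
      rw [Nat.card_eq_fintype_card]
      norm_cast
      rw [← Fintype.card_coe]
      refine Fintype.card_le_of_injective
        (fun x => ⟨x.1, (Finset.mem_filter.mp x.2).2⟩) ?_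
      intro x y h
      simp only [Subtype.mk.injEq] at h
      exact Subtype.ext h
    refine (norm_sum_le _ _).trans ?_
    calc ∑ n ∈ (range (⌊2 * X⌋₊ + 1)).filter (fun n : ℕ => X < n ∧ (n : ℝ) ≤ 2 * X ∧ ¬ s n),
          ‖(ArithmeticFunction.moebius n : ℂ) * w n‖
        ≤ ∑ n ∈ (range (⌊2 * X⌋₊ + 1)).filter
            (fun n : ℕ => X < n ∧ (n : ℝ) ≤ 2 * X ∧ ¬ s n), U0 := by
          refine Finset.sum_le_sum fun n _ => ?_
          rw [norm_mul]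
          calc _ ≤ 1 * U0 := mul_le_mul (cst_mob n) (hU n) (norm_nonneg _) zero_le_one
            _ = U0 := one_mul _
      _ = ((range (⌊2 * X⌋₊ + 1)).filter
            (fun n : ℕ => X < n ∧ (n : ℝ) ≤ 2 * X ∧ ¬ s n)).card * U0 := by
          rw [Finset.sum_const, nsmul_eq_mul]
      _ ≤ (ε * X) * U0 := mul_le_mul_of_nonneg_right (e5.trans hc) hU0
      _ = _ := by ring

theorem cst_dyadic (w : ℕ → ℂ) (U0 : ℝ) (hU0 : 0 ≤ U0) (hU : ∀ n, ‖w n‖ ≤ U0) (s : ℕ → Prop)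
    (N : ℕ) (ε T : ℝ) (hε : 0 ≤ ε) (I : ℕ)
    (hT : ∀ i < I, ‖∑ n ∈ range (⌊2 * ((N : ℝ) / 2 ^ (i + 1))⌋₊ + 1),
      res (fun n => (N : ℝ) / 2 ^ (i + 1) < n ∧ (n : ℝ) ≤ 2 * ((N : ℝ) / 2 ^ (i + 1)) ∧ s n)
      (fun n => (ArithmeticFunction.moebius n : ℂ)) n * w n‖ ≤ T)
    (hc : ∀ i < I, (Nat.card {n : ℕ // (N : ℝ) / 2 ^ (i + 1) < n ∧
      (n : ℝ) ≤ 2 * ((N : ℝ) / 2 ^ (i + 1)) ∧ ¬ s n} : ℝ) ≤ ε * ((N : ℝ) / 2 ^ (i + 1))) :
    ‖∑ n ∈ Icc 1 N, (ArithmeticFunction.moebius n : ℂ) * w n‖ ≤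
      U0 * (N / 2 ^ I) + I * T + U0 * ε * N := by
  have claim : ∀ J ≤ I, ‖∑ n ∈ Icc 1 N, (ArithmeticFunction.moebius n : ℂ) * w n‖ ≤
      ‖∑ n ∈ (Icc 1 N).filter (fun n : ℕ => (n : ℝ) ≤ N / 2 ^ J),
        (ArithmeticFunction.moebius n : ℂ) * w n‖ + J * T + U0 * ε * N * (1 - 1 / 2 ^ J) := by
    intro J
    induction J with
    | zero =>
      intro _
      have : (Icc 1 N).filter (fun n : ℕ => (n : ℝ) ≤ N / 2 ^ 0) = Icc 1 N := by
        refine Finset.filter_true_of_mem fun n hn => ?_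
        rw [pow_zero, div_one]
        exact_mod_cast (Finset.mem_Icc.mp hn).2
      rw [this]
      simp
    | succ J ih =>
      intro hJ
      refine (ih (by omega)).trans ?_
      have hX : (0 : ℝ) ≤ (N : ℝ) / 2 ^ (J + 1) := by positivity
      have h2X : 2 * ((N : ℝ) / 2 ^ (J + 1)) = N / 2 ^ J := by
        rw [pow_succ]; field_simp
      have h2 : (N : ℝ) / 2 ^ J ≤ N := div_le_self (by positivity) (one_le_pow₀ (by norm_num))
      have := cst_step w U0 hU0 hU s N ((N : ℝ) / 2 ^ (J + 1)) ε T hX (by rw [h2X]; exact h2)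
        (hT J (by omega)) (hc J (by omega))
      rw [h2X] at this
      have e1 : U0 * (ε * ((N : ℝ) / 2 ^ (J + 1))) + U0 * ε * N * (1 - 1 / 2 ^ J) =
          U0 * ε * N * (1 - 1 / 2 ^ (J + 1)) := by
        rw [pow_succ]; field_simp; ring
      push_cast
      linarith
  refine (claim I le_rfl).trans ?_
  have h1 : ‖∑ n ∈ (Icc 1 N).filter (fun n : ℕ => (n : ℝ) ≤ N / 2 ^ I),
        (ArithmeticFunction.moebius n : ℂ) * w n‖ ≤ U0 * (N / 2 ^ I) := by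
    refine (norm_sum_le _ _).trans ?_
    calc _ ≤ ∑ n ∈ (Icc 1 N).filter (fun n : ℕ => (n : ℝ) ≤ N / 2 ^ I), U0 := by
          refine Finset.sum_le_sum fun n _ => ?_
          rw [norm_mul]
          calc _ ≤ 1 * U0 := mul_le_mul (cst_mob n) (hU n) (norm_nonneg _) zero_le_one
            _ = U0 := one_mul _
      _ = ((Icc 1 N).filter (fun n : ℕ => (n : ℝ) ≤ N / 2 ^ I)).card * U0 := by
          rw [Finset.sum_const, nsmul_eq_mul]
      _ ≤ (N / 2 ^ I) * U0 := by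
          refine mul_le_mul_of_nonneg_right ?_ hU0
          have : (Icc 1 N).filter (fun n : ℕ => (n : ℝ) ≤ N / 2 ^ I) ⊆
              Icc 1 ⌊(N : ℝ) / 2 ^ I⌋₊ := by
            intro n hn
            rw [Finset.mem_filter, Finset.mem_Icc] at hn
            rw [Finset.mem_Icc]
            exact ⟨hn.1.1, Nat.le_floor hn.2⟩
          have h3 := Finset.card_le_card this
          rw [Nat.card_Icc, Nat.add_sub_cancel] at h3
          calc (((Icc 1 N).filter (fun n : ℕ => (n : ℝ) ≤ N / 2 ^ I)).card : ℝ)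
              ≤ (⌊(N : ℝ) / 2 ^ I⌋₊ : ℝ) := Nat.cast_le.mpr h3
            _ ≤ _ := Nat.floor_le (by positivity)
      _ = _ := by ring
  have h4 : U0 * ε * N * (1 - 1 / 2 ^ I) ≤ U0 * ε * N := by
    have : (0 : ℝ) ≤ 1 / 2 ^ I := by positivity
    have h5 : 0 ≤ U0 * ε * N := by positivity
    nlinarith
  linarith

end Pool.Agent.Helper40.MR
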