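import Mathlib
import Pool.Agent.Helper40.MR.CSTa
import Pool.Agent.Helper40.MR.CSTb
import Pool.Agent.Helper40.MR.CSTd
import Pool.Agent.Helper40.MR.CSTe

open Filter Topology Finset
open scoped ComplexConjugate

namespace Pool.Agent.Helper40.MR

open Pool.Agent.Helper40.Mob

universe u

variable {A : Type u} [CStarAlgebra A]

/-- the GNS vectors of a state -/
theorem cst_gns_vec (φ : A →L[ℂ] ℂ) (hφ : IsState φ) :
    ∃ (H : Type u) (_ : NormedAddCommGroup H) (_ : InnerProductSpace ℂ H)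
      (ι : A →ₗ[ℂ] H), ∀ a b, φ (star a * b) = inner ℂ (ι a) (ι b) := by
  obtain ⟨H, i1, i2, i3, π, ζ, hζ⟩ := cst_exists_gns φ hφ
  let ι : A →ₗ[ℂ] H :=
    { toFun := fun a => π a ζ
      map_add' := fun a b => by simp
      map_smul' := fun c a => by simp }
  refine ⟨H, i1, i2, ι, fun a b => ?_⟩
  rw [hζ]
  change inner ℂ ζ (π (star a * b) ζ) = inner ℂ (π a ζ) (π b ζ)
  rw [map_mul, map_star, mul_apply_eq_comp, ContinuousLinearMap.star_eq_adjoint,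
    ContinuousLinearMap.adjoint_inner_right]

theorem cst_state_sq (φ : A →L[ℂ] ℂ) (hφ : IsState φ) (x : A) :
    ‖φ x‖ ^ 2 ≤ ‖φ (star x * x)‖ := by
  obtain ⟨H, i1, i2, ι, hι⟩ := cst_gns_vec φ hφ
  have h1 : φ x = inner ℂ (ι 1) (ι x) := by rw [← hι]; simp
  have h2 : ‖φ (star x * x)‖ = ‖ι x‖ ^ 2 := by
    rw [hι, inner_self_eq_norm_sq_to_K]
    simp
  have h3 : ‖ι (1 : A)‖ ^ 2 = 1 := by
    have : φ (star 1 * 1) = inner ℂ (ι (1 : A)) (ι 1) := hι 1 1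
    rw [star_one, mul_one, cst_state_one φ hφ, inner_self_eq_norm_sq_to_K] at this
    have h4 : ((‖ι (1 : A)‖ ^ 2 : ℝ) : ℂ) = ((1 : ℝ) : ℂ) := by
      rw [Complex.ofReal_one, this]; push_cast; rfl
    exact_mod_cast h4
  rw [h1, h2]
  have h5 := norm_inner_le_norm (𝕜 := ℂ) (ι 1) (ι x)
  calc ‖inner ℂ (ι (1 : A)) (ι x)‖ ^ 2 ≤ (‖ι (1 : A)‖ * ‖ι x‖) ^ 2 := by gcongr
    _ = ‖ι x‖ ^ 2 := by rw [mul_pow, h3, one_mul]

theorem cst_state_norm_re (φ : A →L[ℂ] ℂ) (hφ : IsState φ) (x : A) :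
    ((‖φ (star x * x)‖ : ℝ) : ℂ) = φ (star x * x) := by
  obtain ⟨r, hr, h⟩ := hφ.1 x
  rw [h, Complex.norm_real, Real.norm_of_nonneg hr]

theorem cst_iter_star_mul (α : A →⋆ₐ[ℂ] A) (m : ℕ) (x : A) :
    α^[m] (star x * x) = star (α^[m] x) * α^[m] x := by
  induction m with
  | zero => rfl
  | succ m ih =>
    rw [Function.iterate_succ', Function.comp_apply, Function.comp_apply, ih, map_mul, map_star]

/-- sums of squares along the orbit, in terms of the limit state -/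
theorem cst_sumsq (α : A →⋆ₐ[ℂ] A) (ρ φ : A →L[ℂ] ℂ) (hρ : IsState ρ)
    (F : Filter ℕ) (hF : F ≤ atTop)
    (hlim : ∀ a, Tendsto (fun N => cstf α ρ N a) F (𝓝 (φ a))) (x : A) (η : ℝ) (hη : 0 < η) :
    ∀ᶠ N in F, ∀ M ≤ N, ∑ m ∈ range (M + 1), ‖ρ (α^[m] x)‖ ^ 2 ≤
      N * (‖φ (star x * x)‖ + η) := by
  have h1 : ∀ᶠ N in F, ‖cstf α ρ N (star x * x)‖ < ‖φ (star x * x)‖ + η / 2 :=
    (hlim (star x * x)).norm.eventually_lt_const (by linarith)
  have h2 : ∀ᶠ N : ℕ in F, ‖star x * x‖ ≤ N * (η / 2) := by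
    refine hF ?_
    have := tendsto_natCast_atTop_atTop (R := ℝ)
    filter_upwards [this.eventually_ge_atTop (‖star x * x‖ / (η / 2))] with N hN
    rwa [div_le_iff₀ (by positivity)] at hN
  have h3 : ∀ᶠ N : ℕ in F, 1 ≤ N := hF (Filter.eventually_ge_atTop 1)
  filter_upwards [h1, h2, h3] with N h1 h2 h3 M hM
  have hN : (0 : ℝ) < N := by exact_mod_cast h3
  have e1 : ∑ m ∈ range (M + 1), ‖ρ (α^[m] x)‖ ^ 2 ≤
      ∑ m ∈ range (N + 1), ‖ρ (α^[m] (star x * x))‖ := by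
    calc ∑ m ∈ range (M + 1), ‖ρ (α^[m] x)‖ ^ 2
        ≤ ∑ m ∈ range (M + 1), ‖ρ (α^[m] (star x * x))‖ := by
          refine Finset.sum_le_sum fun m _ => ?_
          rw [cst_iter_star_mul]
          exact cst_state_sq ρ hρ _
      _ ≤ _ := Finset.sum_le_sum_of_subset_of_nonneg
          (Finset.range_mono (by omega)) fun _ _ _ => norm_nonneg _
  have e2 : ∑ m ∈ range N, ‖ρ (α^[m] (star x * x))‖ =
      ‖∑ m ∈ range N, ρ (α^[m] (star x * x))‖ := by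
    have : ∑ m ∈ range N, ρ (α^[m] (star x * x)) =
        ((∑ m ∈ range N, ‖ρ (α^[m] (star x * x))‖ : ℝ) : ℂ) := by
      rw [Complex.ofReal_sum]
      refine Finset.sum_congr rfl fun m _ => ?_
      rw [cst_iter_star_mul]
      exact (cst_state_norm_re ρ hρ _).symm
    rw [this, Complex.norm_real, Real.norm_of_nonneg
      (Finset.sum_nonneg fun _ _ => norm_nonneg _)]
  have e3 : ‖∑ m ∈ range N, ρ (α^[m] (star x * x))‖ = N * ‖cstf α ρ N (star x * x)‖ := by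
    unfold cstf
    rw [norm_mul, norm_div, norm_one, Complex.norm_natCast]
    field_simp
  have e4 : ‖ρ (α^[N] (star x * x))‖ ≤ ‖star x * x‖ :=
    (cst_state_le ρ hρ _).trans (cst_iter_norm α N _)
  rw [Finset.sum_range_succ (fun m => ‖ρ (α^[m] (star x * x))‖) N, e2, e3] at e1
  have e5 : (N : ℝ) * ‖cstf α ρ N (star x * x)‖ ≤ N * (‖φ (star x * x)‖ + η / 2) := by
    gcongr
  nlinarith

end Pool.Agent.Helper40.MR
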