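import Mathlib

open Filter Topology Finset
open scoped ComplexConjugate

namespace Pool.Agent.Helper40.MR

theorem cst_T (N L d M : ℕ) (X κ U0 ε' S : ℝ) (B3 : ℕ → ℝ) (hL : 1 ≤ L) (hN : 1 ≤ N)
    (hU0 : 0 ≤ U0) (hX : 0 ≤ X) (hXN : X ≤ N) (hMN : M ≤ N)
    (hd : (d : ℝ) ≤ (L : ℝ) ^ (κ / 4)) (hB3 : ∀ j < L, 0 ≤ B3 j)
    (hB3s : ∑ j ∈ range L, B3 j ≤ 2 * ε' * N * L)
    (h : L * S ≤ d * (Real.sqrt (U0 ^ 2 * (X * (L : ℝ) ^ (2 - κ))) * Real.sqrt (2 * N)) +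
      Real.sqrt (M + 1) * ∑ j ∈ range L, Real.sqrt (B3 j)) :
    S ≤ N * (2 * U0 * (L : ℝ) ^ (-(κ / 4)) + 2 * Real.sqrt ε') := by
  have hLr : (0 : ℝ) < L := by exact_mod_cast hL
  have hNr : (1 : ℝ) ≤ N := by exact_mod_cast hN
  have hMr : (M : ℝ) ≤ N := by exact_mod_cast hMN
  have e1 : Real.sqrt (U0 ^ 2 * (X * (L : ℝ) ^ (2 - κ))) * Real.sqrt (2 * N) ≤
      2 * U0 * N * (L : ℝ) ^ (1 - κ / 2) := by
    rw [← Real.sqrt_mul (by positivity)]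
    apply Real.sqrt_le_iff.mpr
    refine ⟨by positivity, ?_⟩
    have h1 : ((L : ℝ) ^ (1 - κ / 2)) ^ 2 = (L : ℝ) ^ (2 - κ) := by
      rw [← Real.rpow_natCast, ← Real.rpow_mul hLr.le]
      congr 1; push_cast; ring
    have h2 : 0 ≤ (L : ℝ) ^ (2 - κ) := by positivity
    rw [mul_pow, h1]
    have h3 : U0 ^ 2 * (X * (L : ℝ) ^ (2 - κ)) * (2 * N) =
        (U0 ^ 2 * (L : ℝ) ^ (2 - κ) * N) * (2 * X) := by ring
    have h4 : (2 * U0 * N) ^ 2 * (L : ℝ) ^ (2 - κ) =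
        (U0 ^ 2 * (L : ℝ) ^ (2 - κ) * N) * (4 * N) := by ring
    rw [h3, h4]
    refine mul_le_mul_of_nonneg_left (by linarith) (by positivity)
  have e2 : d * (Real.sqrt (U0 ^ 2 * (X * (L : ℝ) ^ (2 - κ))) * Real.sqrt (2 * N)) ≤
      L * (N * (2 * U0 * (L : ℝ) ^ (-(κ / 4)))) := by
    calc d * (Real.sqrt (U0 ^ 2 * (X * (L : ℝ) ^ (2 - κ))) * Real.sqrt (2 * N))
        ≤ (L : ℝ) ^ (κ / 4) * (2 * U0 * N * (L : ℝ) ^ (1 - κ / 2)) :=
          mul_le_mul hd e1 (by positivity) (by positivity)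
      _ = 2 * U0 * N * ((L : ℝ) ^ (κ / 4) * (L : ℝ) ^ (1 - κ / 2)) := by ring
      _ = 2 * U0 * N * ((L : ℝ) ^ (1 : ℝ) * (L : ℝ) ^ (-(κ / 4))) := by
          rw [← Real.rpow_add hLr, ← Real.rpow_add hLr]
          congr 2; ring
      _ = _ := by rw [Real.rpow_one]; ring
  have e3 : ∑ j ∈ range L, Real.sqrt (B3 j) ≤ Real.sqrt (L * (2 * ε' * N * L)) := by
    have h1 : ∑ j ∈ range L, 1 * Real.sqrt (B3 j) ≤
        Real.sqrt (∑ j ∈ range L, (1 : ℝ) ^ 2) * Real.sqrt (∑ j ∈ range L, Real.sqrt (B3 j) ^ 2) :=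
      Real.sum_mul_le_sqrt_mul_sqrt _ _ _
    have h2 : ∑ j ∈ range L, Real.sqrt (B3 j) ^ 2 = ∑ j ∈ range L, B3 j :=
      Finset.sum_congr rfl fun j hj => Real.sq_sqrt (hB3 j (Finset.mem_range.mp hj))
    rw [h2] at h1
    simp only [one_mul, one_pow, Finset.sum_const, Finset.card_range, nsmul_eq_mul, mul_one] at h1
    refine h1.trans ?_
    rw [Real.sqrt_mul hLr.le]
    gcongr
  have e4 : Real.sqrt (M + 1) * ∑ j ∈ range L, Real.sqrt (B3 j) ≤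
      L * (N * (2 * Real.sqrt ε')) := by
    calc Real.sqrt (M + 1) * ∑ j ∈ range L, Real.sqrt (B3 j)
        ≤ Real.sqrt (2 * N) * Real.sqrt (L * (2 * ε' * N * L)) := by
          refine mul_le_mul (Real.sqrt_le_sqrt (by linarith)) e3
            (Finset.sum_nonneg fun _ _ => Real.sqrt_nonneg _) (Real.sqrt_nonneg _)
      _ = Real.sqrt ((2 * N * L) ^ 2 * ε') := by
          rw [← Real.sqrt_mul (by positivity)]
          congr 1; ring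
      _ = 2 * N * L * Real.sqrt ε' := by
          rw [Real.sqrt_mul (by positivity), Real.sqrt_sq (by positivity)]
      _ = _ := by ring
  have e5 : L * S ≤ L * (N * (2 * U0 * (L : ℝ) ^ (-(κ / 4)) + 2 * Real.sqrt ε')) := by
    calc (L : ℝ) * S ≤ _ := h
      _ ≤ L * (N * (2 * U0 * (L : ℝ) ^ (-(κ / 4)))) + L * (N * (2 * Real.sqrt ε')) :=
        add_le_add e2 e4
      _ = _ := by ring
  exact le_of_mul_le_mul_left e5 hLr

end Pool.Agent.Helper40.MR
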