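import Mathlib
import Pool.Agent.Helper40.MR.CSTf
import Pool.Agent.Helper40.MR.CSTg

open Filter Topology Finset
open scoped ComplexConjugate

namespace Pool.Agent.Helper40.MR

open Pool.Agent.Helper40.Mob

universe u v

theorem cst_iter_sum {A : Type u} [CStarAlgebra A] {ι : Type*} (α : A →⋆ₐ[ℂ] A) (m : ℕ)
    (s : Finset ι) (f : ι → A) :
    α^[m] (∑ k ∈ s, f k) = ∑ k ∈ s, α^[m] (f k) := by
  induction m with
  | zero => rfl
  | succ m ih =>
    simp only [Function.iterate_succ', Function.comp_apply]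
    rw [ih, map_sum]

theorem cst_iter_sub {A : Type u} [CStarAlgebra A] (α : A →⋆ₐ[ℂ] A) (m : ℕ) (x y : A) :
    α^[m] (x - y) = α^[m] x - α^[m] y := iterate_map_sub α m x y

theorem cst_res_norm (s : ℕ → Prop) (n : ℕ) :
    ‖res s (fun n => (ArithmeticFunction.moebius n : ℂ)) n‖ ≤ 1 := by
  unfold res
  split_ifs
  · exact cst_mob n
  · simp

/-- extension of states -/
theorem cst_ext {A : Type u} {B : Type v} [CStarAlgebra A] [CStarAlgebra B] (i : A →⋆ₐ[ℂ] B)
    (hi : Function.Injective i) (φ : A →L[ℂ] ℂ) (hφ : IsState φ) :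
    ∃ ψ : B →L[ℂ] ℂ, IsState ψ ∧ ∀ a, ψ (i a) = φ a := by
  have hiso : ∀ a, ‖i a‖ = ‖a‖ := fun a => NonUnitalStarAlgHom.norm_map i hi a
  let li : A →ₗᵢ[ℂ] B := { toLinearMap := (i : A →ₗ[ℂ] B), norm_map' := hiso }
  let e : A ≃ₗᵢ[ℂ] LinearMap.range li.toLinearMap := li.equivRange
  let f : LinearMap.range li.toLinearMap →L[ℂ] ℂ :=
    φ.comp (e.symm.toContinuousLinearEquiv : LinearMap.range li.toLinearMap →L[ℂ] A)
  obtain ⟨g, hg1, hg2⟩ := exists_extension_norm_eq _ f
  have hga : ∀ a, g (i a) = φ a := by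
    intro a
    have h1 := hg1 (e a)
    have h2 : ((e a : LinearMap.range li.toLinearMap) : B) = i a := rfl
    rw [h2] at h1
    rw [h1]
    change φ (e.symm (e a)) = φ a
    rw [LinearIsometryEquiv.symm_apply_apply]
  have hg3 : ‖g‖ ≤ 1 := by
    rw [hg2]
    refine ContinuousLinearMap.opNorm_le_bound _ zero_le_one fun x => ?_
    rw [one_mul]
    change ‖φ (e.symm x)‖ ≤ ‖x‖
    refine (cst_state_le φ hφ _).trans ?_
    rw [LinearIsometryEquiv.norm_map]
  have hg4 : g 1 = 1 := by
    have := hga 1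
    rwa [map_one, cst_state_one φ hφ] at this
  have hnt : Nontrivial B := by
    by_contra h
    rw [not_nontrivial_iff_subsingleton] at h
    rw [Subsingleton.elim (1 : B) 0, map_zero] at hg4
    exact zero_ne_one hg4
  have hg5 : ‖g‖ = 1 := by
    apply le_antisymm hg3
    have := g.le_opNorm 1
    rw [hg4, norm_one, norm_one, mul_one] at this
    exact this
  exact ⟨g, cst_isState_of_norm g hg4 hg5, hga⟩

/-- the GNS vectors of a state -/
theorem cst_gns_vec' {A : Type u} [CStarAlgebra A] (φ : A →L[ℂ] ℂ) (hφ : IsState φ) :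
    ∃ (H : Type u) (_ : NormedAddCommGroup H) (_ : InnerProductSpace ℂ H) (_ : CompleteSpace H)
      (ι : A →ₗ[ℂ] H), ∀ a b, φ (star a * b) = inner ℂ (ι a) (ι b) := by
  obtain ⟨H, i1, i2, i3, π, ζ, hζ⟩ := cst_exists_gns φ hφ
  let ι : A →ₗ[ℂ] H :=
    { toFun := fun a => π a ζ
      map_add' := fun a b => by simp
      map_smul' := fun c a => by simp }
  refine ⟨H, i1, i2, i3, ι, fun a b => ?_⟩
  rw [hζ]
  change inner ℂ ζ (π (star a * b) ζ) = inner ℂ (π a ζ) (π b ζ)
  rw [map_mul, map_star, mul_apply_eq_comp, ContinuousLinearMap.star_eq_adjoint,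
    ContinuousLinearMap.adjoint_inner_right]

/-- projection onto the closure of the small algebra, then onto a finite dimensional space -/
theorem cst_proj' {A B H : Type*} [AddCommGroup A] [Module ℂ A] [AddCommGroup B] [Module ℂ B]
    [NormedAddCommGroup H] [InnerProductSpace ℂ H] [CompleteSpace H] (κ : A →ₗ[ℂ] H)
    (ι : B →ₗ[ℂ] H) (F : Submodule ℂ B) [FiniteDimensional ℂ F] (η : ℝ) (hη : 0 < η) :
    ∃ (d : ℕ) (b : Fin d → H) (e : Fin d → A), d ≤ Module.finrank ℂ F ∧
      (∀ k, ‖b k‖ = 1) ∧ (∀ k, ‖κ (e k) - b k‖ ≤ η) ∧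
      ∀ x : A, ∀ y ∈ F, ‖κ x - ∑ k, (inner ℂ (b k) (κ x) : ℂ) • b k‖ ≤ ‖κ x - ι y‖ := by
  classical
  set K : Submodule ℂ H := (LinearMap.range κ).topologicalClosure with hK
  have hKc : IsClosed (K : Set H) := Submodule.isClosed_topologicalClosure _
  have : CompleteSpace K := hKc.completeSpace_coe
  set G : Submodule ℂ H := (F.map ι).map (K.starProjection : H →ₗ[ℂ] H) with hG
  have hGf : FiniteDimensional ℂ G := by infer_instance
  set b := stdOrthonormalBasis ℂ G with hb
  have hGK : ∀ x ∈ G, x ∈ K := by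
    intro x hx
    obtain ⟨y, -, rfl⟩ := Submodule.mem_map.mp hx
    exact Submodule.starProjection_apply_mem K y
  have hex : ∀ k, ∃ a, ‖κ a - (b k : H)‖ ≤ η := fun k => by
    have h1 : (b k : H) ∈ closure ((LinearMap.range κ : Submodule ℂ H) : Set H) := by
      have := hGK _ (b k).2
      rwa [hK, ← SetLike.mem_coe, Submodule.topologicalClosure_coe] at this
    obtain ⟨z, ⟨a, rfl⟩, h2⟩ := Metric.mem_closure_iff.mp h1 η hη
    refine ⟨a, ?_⟩
    rw [← dist_eq_norm, dist_comm]
    exact h2.le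
  choose e he using hex
  refine ⟨Module.finrank ℂ G, fun k => (b k : H), e, ?_, ?_, he, ?_⟩
  · exact (Submodule.finrank_map_le _ _).trans (Submodule.finrank_map_le ι F)
  · intro k
    exact b.orthonormal.1 k
  · intro x y hy
    have h1 : κ x - ∑ k, (inner ℂ ((b k : G) : H) (κ x) : ℂ) • ((b k : G) : H) =
        κ x - G.starProjection (κ x) := by
      congr 1
      rw [Submodule.starProjection_apply, b.orthogonalProjectionOnto_apply_eq_sum]
      rw [Submodule.coe_sum]
      refine Finset.sum_congr rfl fun k _ => ?_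
      rw [Submodule.coe_smul]
    rw [h1, Submodule.starProjection_minimal]
    have h2 : K.starProjection (κ x) = κ x := by
      rw [Submodule.starProjection_eq_self_iff]
      exact Submodule.le_topologicalClosure _ (LinearMap.mem_range_self κ x)
    have h3 : ‖κ x - K.starProjection (ι y)‖ ≤ ‖κ x - ι y‖ := by
      calc ‖κ x - K.starProjection (ι y)‖ = ‖K.starProjection (κ x - ι y)‖ := by
            rw [map_sub, h2]
        _ ≤ _ := Submodule.norm_starProjection_apply_le K _
    refine le_trans ?_ h3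
    exact ciInf_le ⟨0, by rintro _ ⟨z, rfl⟩; exact norm_nonneg _⟩
      (⟨K.starProjection (ι y), Submodule.mem_map_of_mem (Submodule.mem_map_of_mem hy)⟩ : G)

end Pool.Agent.Helper40.MR
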