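import Mathlib
import Pool.Agent.Helper40.MR.CSTi

open Filter Topology Finset
open scoped ComplexConjugate

namespace Pool.Agent.Helper40.MR

open Pool.Agent.Helper40.Mob

universe u

variable {A : Type u} [CStarAlgebra A]

/-- limits of averages of a sequence of states -/
theorem cst_limit' (α : A →⋆ₐ[ℂ] A) (ρ : ℕ → A →L[ℂ] ℂ) (hρ : ∀ N, IsState (ρ N)) (F : Ultrafilter ℕ)
    (hF : (F : Filter ℕ) ≤ atTop) :
    ∃ φ : A →L[ℂ] ℂ, IsState φ ∧ (∀ a, φ (α a) = φ a) ∧
      ∀ a, Tendsto (fun N => cstf α (ρ N) N a) F (𝓝 (φ a)) := by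
  have hex : ∀ a, ∃ z : ℂ, Tendsto (fun N => cstf α (ρ N) N a) F (𝓝 z) := by
    intro a
    obtain ⟨z, -, hz⟩ := (isCompact_closedBall (0 : ℂ) ‖a‖).ultrafilter_le_nhds
      (F.map (fun N => cstf α (ρ N) N a)) (by
        rw [Ultrafilter.coe_map, Filter.le_principal_iff, Filter.mem_map]
        exact Filter.Eventually.of_forall fun N => by
          simpa using cstf_norm α (ρ N) (hρ N) N a)
    exact ⟨z, hz⟩
  choose φ0 hφ0 using hex
  have hadd : ∀ a b, φ0 (a + b) = φ0 a + φ0 b := fun a b =>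
    tendsto_nhds_unique ((hφ0 (a + b)).congr fun N => cstf_add α (ρ N) N a b)
      ((hφ0 a).add (hφ0 b))
  have hsmul : ∀ (c : ℂ) a, φ0 (c • a) = c * φ0 a := fun c a =>
    tendsto_nhds_unique ((hφ0 (c • a)).congr fun N => cstf_smul α (ρ N) N c a)
      ((hφ0 a).const_mul c)
  have hbd : ∀ a, ‖φ0 a‖ ≤ ‖a‖ := fun a =>
    le_of_tendsto (hφ0 a).norm (Filter.Eventually.of_forall fun N => cstf_norm α (ρ N) (hρ N) N a)
  let L : A →ₗ[ℂ] ℂ :=
    { toFun := φ0
      map_add' := hadd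
      map_smul' := fun c a => by simp [hsmul] }
  let φ : A →L[ℂ] ℂ := L.mkContinuous 1 (fun a => by simpa [L] using hbd a)
  have hφ : ∀ a, φ a = φ0 a := fun a => rfl
  have h1 : φ 1 = 1 := by
    rw [hφ]
    refine tendsto_nhds_unique (hφ0 1) ?_
    refine tendsto_const_nhds.congr' ?_
    have : ∀ᶠ N : ℕ in F, 1 ≤ N := hF (Filter.eventually_ge_atTop 1)
    filter_upwards [this] with N hN
    unfold cstf
    have h2 : ∀ m : ℕ, α^[m] (1 : A) = 1 := fun m => by
      induction m with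
      | zero => rfl
      | succ m ih => rw [Function.iterate_succ', Function.comp_apply, ih, map_one]
    simp only [h2, cst_state_one (ρ N) (hρ N), Finset.sum_const, Finset.card_range, nsmul_eq_mul, mul_one]
    have : (N : ℂ) ≠ 0 := by exact_mod_cast (by omega : N ≠ 0)
    field_simp
  have hnt : Nontrivial A := by
    by_contra h
    rw [not_nontrivial_iff_subsingleton] at h
    rw [Subsingleton.elim (1 : A) 0, map_zero] at h1
    exact zero_ne_one h1
  have h2 : ‖φ‖ = 1 := by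
    apply le_antisymm
    · exact LinearMap.mkContinuous_norm_le L zero_le_one _
    · have := φ.le_opNorm 1
      rw [h1, norm_one, norm_one, mul_one] at this
      exact this
  refine ⟨φ, cst_isState_of_norm φ h1 h2, ?_, fun a => hφ0 a⟩
  intro a
  rw [hφ, hφ]
  refine tendsto_nhds_unique (hφ0 (α a)) ?_
  have hdiff : Tendsto (fun N => cstf α (ρ N) N (α a) - cstf α (ρ N) N a) F (𝓝 0) := by
    have h3 : Tendsto (fun N : ℕ => 2 * ‖a‖ / (N : ℝ)) F (𝓝 0) :=
      ((tendsto_const_div_atTop_nhds_zero_nat (2 * ‖a‖))).mono_left hF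
    refine squeeze_zero_norm (fun N => ?_) h3
    rcases Nat.eq_zero_or_pos N with h | h
    · subst h; simp [cstf]
    have hN : (0 : ℝ) < N := by exact_mod_cast h
    have h4 : cstf α (ρ N) N (α a) - cstf α (ρ N) N a =
        (1 / (N : ℂ)) * (ρ N (α^[N] a) - ρ N a) := by
      unfold cstf
      rw [← mul_sub, ← Finset.sum_sub_distrib]
      congr 1
      have : ∀ m : ℕ, ρ N (α^[m] (α a)) = ρ N (α^[m + 1] a) := fun m => by
        rw [Function.iterate_succ_apply]
      simp only [this]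
      exact Finset.sum_range_sub (fun m => ρ N (α^[m] a)) N
    rw [h4, norm_mul, norm_div, norm_one, Complex.norm_natCast, one_div, div_eq_inv_mul]
    gcongr
    refine (norm_sub_le _ _).trans ?_
    have h5 := (cst_state_le (ρ N) (hρ N) (α^[N] a)).trans (cst_iter_norm α N a)
    have h6 := cst_state_le (ρ N) (hρ N) a
    linarith
  have := hdiff.add (hφ0 a)
  simpa using this

/-- sums of squares along the orbit, in terms of the limit state -/
theorem cst_sumsq' (α : A →⋆ₐ[ℂ] A) (ρ : ℕ → A →L[ℂ] ℂ) (φ : A →L[ℂ] ℂ)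
    (hρ : ∀ N, IsState (ρ N))
    (F : Filter ℕ) (hF : F ≤ atTop)
    (hlim : ∀ a, Tendsto (fun N => cstf α (ρ N) N a) F (𝓝 (φ a))) (x : A) (η : ℝ) (hη : 0 < η) :
    ∀ᶠ N in F, ∀ M ≤ N, ∑ m ∈ range (M + 1), ‖ρ N (α^[m] x)‖ ^ 2 ≤
      N * (‖φ (star x * x)‖ + η) := by
  have h1 : ∀ᶠ N in F, ‖cstf α (ρ N) N (star x * x)‖ < ‖φ (star x * x)‖ + η / 2 :=
    (hlim (star x * x)).norm.eventually_lt_const (by linarith)
  have h2 : ∀ᶠ N : ℕ in F, ‖star x * x‖ ≤ N * (η / 2) := by
    refine hF ?_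
    have := tendsto_natCast_atTop_atTop (R := ℝ)
    filter_upwards [this.eventually_ge_atTop (‖star x * x‖ / (η / 2))] with N hN
    rwa [div_le_iff₀ (by positivity)] at hN
  have h3 : ∀ᶠ N : ℕ in F, 1 ≤ N := hF (Filter.eventually_ge_atTop 1)
  filter_upwards [h1, h2, h3] with N h1 h2 h3 M hM
  have hN : (0 : ℝ) < N := by exact_mod_cast h3
  have e1 : ∑ m ∈ range (M + 1), ‖ρ N (α^[m] x)‖ ^ 2 ≤
      ∑ m ∈ range (N + 1), ‖ρ N (α^[m] (star x * x))‖ := by
    calc ∑ m ∈ range (M + 1), ‖ρ N (α^[m] x)‖ ^ 2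
        ≤ ∑ m ∈ range (M + 1), ‖ρ N (α^[m] (star x * x))‖ := by
          refine Finset.sum_le_sum fun m _ => ?_
          rw [cst_iter_star_mul]
          exact cst_state_sq (ρ N) (hρ N) _
      _ ≤ _ := Finset.sum_le_sum_of_subset_of_nonneg
          (Finset.range_mono (by omega)) fun _ _ _ => norm_nonneg _
  have e2 : ∑ m ∈ range N, ‖ρ N (α^[m] (star x * x))‖ =
      ‖∑ m ∈ range N, ρ N (α^[m] (star x * x))‖ := by
    have : ∑ m ∈ range N, ρ N (α^[m] (star x * x)) =
        ((∑ m ∈ range N, ‖ρ N (α^[m] (star x * x))‖ : ℝ) : ℂ) := by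
      rw [Complex.ofReal_sum]
      refine Finset.sum_congr rfl fun m _ => ?_
      rw [cst_iter_star_mul]
      exact (cst_state_norm_re (ρ N) (hρ N) _).symm
    rw [this, Complex.norm_real, Real.norm_of_nonneg
      (Finset.sum_nonneg fun _ _ => norm_nonneg _)]
  have e3 : ‖∑ m ∈ range N, ρ N (α^[m] (star x * x))‖ = N * ‖cstf α (ρ N) N (star x * x)‖ := by
    unfold cstf
    rw [norm_mul, norm_div, norm_one, Complex.norm_natCast]
    field_simp
  have e4 : ‖ρ N (α^[N] (star x * x))‖ ≤ ‖star x * x‖ :=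
    (cst_state_le (ρ N) (hρ N) _).trans (cst_iter_norm α N _)
  rw [Finset.sum_range_succ (fun m => ‖ρ N (α^[m] (star x * x))‖) N, e2, e3] at e1
  have e5 : (N : ℝ) * ‖cstf α (ρ N) N (star x * x)‖ ≤ N * (‖φ (star x * x)‖ + η / 2) := by
    gcongr
  nlinarith

end Pool.Agent.Helper40.MR
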