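import Mathlib
import Pool.Agent.Helper40.MR.CSTi
import Pool.Agent.Helper40.MR.CSTk

open Filter Topology Finset
open scoped ComplexConjugate

namespace Pool.Agent.Helper40.MR

open Pool.Agent.Helper40.Mob

universe u v

/-- The number theoretic statement for progressions with differences in `S`. -/
def ST_NTS (S : Set ℕ) : Prop := ∀ ε C : ℝ, 0 < ε → ε < 1 → 0 < C → ∃ κ : ℝ, 0 < κ ∧ ∃ L₀ : ℕ,
  ∀ L : ℕ, L₀ ≤ L → ∀ q ∈ S, 1 ≤ q → ∑ p ∈ q.primeFactors, 1 / (p : ℝ) ≤ C →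
  ∃ Z₀ : ℝ, ∀ Z : ℝ, Z₀ ≤ Z → ∃ s : ℕ → Prop, ∀ X : ℝ, ε * Z ≤ X → X ≤ Z →
  (Nat.card {n : ℕ // X < n ∧ (n : ℝ) ≤ 2 * X ∧ ¬ s n} : ℝ) ≤ ε * X ∧
  ∀ c : ℕ → ℂ, (∀ j, ‖c j‖ ≤ 1) →
  ∑ m ∈ range (⌊2 * X⌋₊ + 1), ‖∑ j ∈ range L,
      res (fun n => X < n ∧ (n : ℝ) ≤ 2 * X ∧ s n)
        (fun n => (ArithmeticFunction.moebius n : ℂ)) (m + q * j) * c j‖ ^ 2 ≤
    X * (L : ℝ) ^ (2 - κ)

variable {A : Type u} [CStarAlgebra A]

/-- limits of asymptotically invariant functionals -/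
theorem cst_limit3 (α : A →⋆ₐ[ℂ] A) (Λ : ℕ → A → ℂ) (F : Ultrafilter ℕ)
    (ha : ∀ i a b, Λ i (a + b) = Λ i a + Λ i b) (hs : ∀ i (c : ℂ) a, Λ i (c • a) = c * Λ i a)
    (hn : ∀ i a, ‖Λ i a‖ ≤ ‖a‖) (h1 : ∀ᶠ i in (F : Filter ℕ), Λ i 1 = 1)
    (hinv : ∀ a, Tendsto (fun i => Λ i (α a) - Λ i a) F (𝓝 0)) :
    ∃ φ : A →L[ℂ] ℂ, IsState φ ∧ (∀ a, φ (α a) = φ a) ∧
      ∀ a, Tendsto (fun i => Λ i a) F (𝓝 (φ a)) := by
  have hex : ∀ a, ∃ z : ℂ, Tendsto (fun i => Λ i a) F (𝓝 z) := by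
    intro a
    obtain ⟨z, -, hz⟩ := (isCompact_closedBall (0 : ℂ) ‖a‖).ultrafilter_le_nhds
      (F.map (fun i => Λ i a)) (by
        rw [Ultrafilter.coe_map, Filter.le_principal_iff, Filter.mem_map]
        exact Filter.Eventually.of_forall fun i => by
          simpa using hn i a)
    exact ⟨z, hz⟩
  choose φ0 hφ0 using hex
  have hadd : ∀ a b, φ0 (a + b) = φ0 a + φ0 b := fun a b =>
    tendsto_nhds_unique ((hφ0 (a + b)).congr fun i => ha i a b)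
      ((hφ0 a).add (hφ0 b))
  have hsmul : ∀ (c : ℂ) a, φ0 (c • a) = c * φ0 a := fun c a =>
    tendsto_nhds_unique ((hφ0 (c • a)).congr fun i => hs i c a)
      ((hφ0 a).const_mul c)
  have hbd : ∀ a, ‖φ0 a‖ ≤ ‖a‖ := fun a =>
    le_of_tendsto (hφ0 a).norm (Filter.Eventually.of_forall fun i => hn i a)
  let L : A →ₗ[ℂ] ℂ :=
    { toFun := φ0
      map_add' := hadd
      map_smul' := fun c a => by simp [hsmul] }
  let φ : A →L[ℂ] ℂ := L.mkContinuous 1 (fun a => by simpa [L] using hbd a)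
  have hφ : ∀ a, φ a = φ0 a := fun a => rfl
  have h11 : φ 1 = 1 := by
    rw [hφ]
    refine tendsto_nhds_unique (hφ0 1) ?_
    refine tendsto_const_nhds.congr' ?_
    filter_upwards [h1] with i hi
    rw [hi]
  have hnt : Nontrivial A := by
    by_contra h
    rw [not_nontrivial_iff_subsingleton] at h
    rw [Subsingleton.elim (1 : A) 0, map_zero] at h11
    exact zero_ne_one h11
  have h2 : ‖φ‖ = 1 := by
    apply le_antisymm
    · exact LinearMap.mkContinuous_norm_le L zero_le_one _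
    · have := φ.le_opNorm 1
      rw [h11, norm_one, norm_one, mul_one] at this
      exact this
  refine ⟨φ, cst_isState_of_norm φ h11 h2, ?_, fun a => hφ0 a⟩
  intro a
  rw [hφ, hφ]
  refine tendsto_nhds_unique (hφ0 (α a)) ?_
  have := (hinv a).add (hφ0 a)
  simpa using this

/-- Double averages. -/
noncomputable def cstg (α : A →⋆ₐ[ℂ] A) (ρ : ℕ → A →L[ℂ] ℂ) (N H : ℕ) (a : A) : ℂ :=
  (1 / ((N : ℂ) * H)) * ∑ m ∈ range N, ∑ h ∈ range H, ρ m (α^[h] a)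

theorem cstg_norm (α : A →⋆ₐ[ℂ] A) (ρ : ℕ → A →L[ℂ] ℂ) (hρ : ∀ m, IsState (ρ m)) (N H : ℕ)
    (a : A) : ‖cstg α ρ N H a‖ ≤ ‖a‖ := by
  unfold cstg
  rcases Nat.eq_zero_or_pos N with h | h
  · subst h; simp
  rcases Nat.eq_zero_or_pos H with h' | h'
  · subst h'; simp
  have hN : (0 : ℝ) < N := by exact_mod_cast h
  have hH : (0 : ℝ) < H := by exact_mod_cast h'
  rw [norm_mul, norm_div, norm_one, norm_mul, Complex.norm_natCast, Complex.norm_natCast,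
    one_div, inv_mul_le_iff₀ (by positivity)]
  refine (norm_sum_le _ _).trans ?_
  calc ∑ m ∈ range N, ‖∑ h ∈ range H, ρ m (α^[h] a)‖ ≤ ∑ m ∈ range N, H * ‖a‖ := by
        refine Finset.sum_le_sum fun m _ => ?_
        refine (norm_sum_le _ _).trans ?_
        calc ∑ h ∈ range H, ‖ρ m (α^[h] a)‖ ≤ ∑ h ∈ range H, ‖a‖ :=
              Finset.sum_le_sum fun h _ =>
                (cst_state_le (ρ m) (hρ m) _).trans (cst_iter_norm α h a)
          _ = H * ‖a‖ := by simp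
    _ = N * H * ‖a‖ := by simp; ring

theorem cstg_add (α : A →⋆ₐ[ℂ] A) (ρ : ℕ → A →L[ℂ] ℂ) (N H : ℕ) (a b : A) :
    cstg α ρ N H (a + b) = cstg α ρ N H a + cstg α ρ N H b := by
  unfold cstg
  simp only [cst_iter_add, map_add, Finset.sum_add_distrib, mul_add]

theorem cstg_smul (α : A →⋆ₐ[ℂ] A) (ρ : ℕ → A →L[ℂ] ℂ) (N H : ℕ) (c : ℂ) (a : A) :
    cstg α ρ N H (c • a) = c * cstg α ρ N H a := by
  unfold cstg
  simp only [cst_iter_smul, map_smul, smul_eq_mul, ← Finset.mul_sum]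
  ring

theorem cstg_one (α : A →⋆ₐ[ℂ] A) (ρ : ℕ → A →L[ℂ] ℂ) (hρ : ∀ m, IsState (ρ m)) (N H : ℕ)
    (hN : 1 ≤ N) (hH : 1 ≤ H) : cstg α ρ N H 1 = 1 := by
  unfold cstg
  have h2 : ∀ m : ℕ, α^[m] (1 : A) = 1 := fun m => by
    induction m with
    | zero => rfl
    | succ m ih => rw [Function.iterate_succ', Function.comp_apply, ih, map_one]
  simp only [h2, cst_state_one _ (hρ _), Finset.sum_const, Finset.card_range, nsmul_eq_mul,
    mul_one]
  have h3 : (N : ℂ) ≠ 0 := by exact_mod_cast (by omega : N ≠ 0)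
  have h4 : (H : ℂ) ≠ 0 := by exact_mod_cast (by omega : H ≠ 0)
  field_simp

theorem cstg_inv (α : A →⋆ₐ[ℂ] A) (ρ : ℕ → A →L[ℂ] ℂ) (hρ : ∀ m, IsState (ρ m)) (N H : ℕ)
    (a : A) : ‖cstg α ρ N H (α a) - cstg α ρ N H a‖ ≤ 2 * ‖a‖ / H := by
  unfold cstg
  rcases Nat.eq_zero_or_pos N with h | h
  · subst h; simp; positivity
  rcases Nat.eq_zero_or_pos H with h' | h'
  · subst h'; simp
  have hN : (0 : ℝ) < N := by exact_mod_cast h
  have hH : (0 : ℝ) < H := by exact_mod_cast h'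
  have h4 : ∑ m ∈ range N, ∑ h ∈ range H, ρ m (α^[h] (α a)) -
      ∑ m ∈ range N, ∑ h ∈ range H, ρ m (α^[h] a) =
      ∑ m ∈ range N, (ρ m (α^[H] a) - ρ m a) := by
    rw [← Finset.sum_sub_distrib]
    refine Finset.sum_congr rfl fun m _ => ?_
    rw [← Finset.sum_sub_distrib]
    have : ∀ h : ℕ, ρ m (α^[h] (α a)) = ρ m (α^[h + 1] a) := fun h => by
      rw [Function.iterate_succ_apply]
    simp only [this]
    exact Finset.sum_range_sub (fun h => ρ m (α^[h] a)) H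
  rw [← mul_sub, h4, norm_mul, norm_div, norm_one, norm_mul, Complex.norm_natCast,
    Complex.norm_natCast, one_div, inv_mul_le_iff₀ (by positivity)]
  refine (norm_sum_le _ _).trans ?_
  calc ∑ m ∈ range N, ‖ρ m (α^[H] a) - ρ m a‖ ≤ ∑ m ∈ range N, 2 * ‖a‖ := by
        refine Finset.sum_le_sum fun m _ => ?_
        refine (norm_sub_le _ _).trans ?_
        have h5 := (cst_state_le (ρ m) (hρ m) (α^[H] a)).trans (cst_iter_norm α H a)
        have h6 := cst_state_le (ρ m) (hρ m) a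
        linarith
    _ = N * (2 * ‖a‖) := by simp
    _ = _ := by field_simp

theorem cstg_sumsq (α : A →⋆ₐ[ℂ] A) (ρ : ℕ → A →L[ℂ] ℂ) (hρ : ∀ m, IsState (ρ m)) (N H : ℕ)
    (x : A) : ∑ m ∈ range N, ∑ h ∈ range H, ‖ρ m (α^[h] x)‖ ^ 2 ≤
      N * H * ‖cstg α ρ N H (star x * x)‖ := by
  rcases Nat.eq_zero_or_pos N with h | h
  · subst h; simp
  rcases Nat.eq_zero_or_pos H with h' | h'
  · subst h'; simp
  have hN : (0 : ℝ) < N := by exact_mod_cast h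
  have hH : (0 : ℝ) < H := by exact_mod_cast h'
  have e2 : ∑ m ∈ range N, ∑ h ∈ range H, ‖ρ m (α^[h] (star x * x))‖ =
      ‖∑ m ∈ range N, ∑ h ∈ range H, ρ m (α^[h] (star x * x))‖ := by
    have : ∑ m ∈ range N, ∑ h ∈ range H, ρ m (α^[h] (star x * x)) =
        ((∑ m ∈ range N, ∑ h ∈ range H, ‖ρ m (α^[h] (star x * x))‖ : ℝ) : ℂ) := by
      rw [Complex.ofReal_sum]
      refine Finset.sum_congr rfl fun m _ => ?_
      rw [Complex.ofReal_sum]
      refine Finset.sum_congr rfl fun h _ => ?_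
      rw [cst_iter_star_mul]
      exact (cst_state_norm_re (ρ m) (hρ m) _).symm
    rw [this, Complex.norm_real, Real.norm_of_nonneg
      (Finset.sum_nonneg fun _ _ => Finset.sum_nonneg fun _ _ => norm_nonneg _)]
  have e3 : ‖∑ m ∈ range N, ∑ h ∈ range H, ρ m (α^[h] (star x * x))‖ =
      N * H * ‖cstg α ρ N H (star x * x)‖ := by
    unfold cstg
    rw [norm_mul, norm_div, norm_one, norm_mul, Complex.norm_natCast, Complex.norm_natCast]
    field_simp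
  rw [← e3, ← e2]
  refine Finset.sum_le_sum fun m _ => Finset.sum_le_sum fun h _ => ?_
  rw [cst_iter_star_mul]
  exact cst_state_sq (ρ m) (hρ m) _

end Pool.Agent.Helper40.MR
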