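import Mathlib
import Pool.Agent.Helper40.MR.CSTe

open Filter Topology Finset
open scoped ComplexConjugate

namespace Pool.Agent.Helper40.MR

theorem cst_res0 (s : ℕ → Prop) (f : ℕ → ℂ) (n : ℕ) (h : ¬ s n) : res s f n = 0 := by
  unfold res
  rw [if_neg h]

theorem cst_res1 (s : ℕ → Prop) (n : ℕ) :
    ‖res s (fun n => (ArithmeticFunction.moebius n : ℂ)) n‖ ≤ 1 := by
  unfold res
  split_ifs
  · exact cst_mob n
  · simp

theorem cst_shift2 (f : ℕ → ℂ) (H i : ℕ) (B : ℝ) (hf : ∀ n, ‖f n‖ ≤ B) :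
    ‖∑ h ∈ range H, f h - ∑ h ∈ range H, f (h + i)‖ ≤ 2 * i * B := by
  have e1 : ∑ n ∈ range (i + H), f n = ∑ n ∈ range i, f n + ∑ h ∈ range H, f (i + h) :=
    Finset.sum_range_add f i H
  have e2 : ∑ n ∈ range (H + i), f n = ∑ n ∈ range H, f n + ∑ h ∈ range i, f (H + h) :=
    Finset.sum_range_add f H i
  rw [add_comm i H, e2] at e1
  have e3 : ∑ h ∈ range H, f (h + i) = ∑ h ∈ range H, f (i + h) :=
    Finset.sum_congr rfl fun h _ => by rw [add_comm]
  have e4 : ∑ h ∈ range H, f h - ∑ h ∈ range H, f (h + i) =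
      ∑ n ∈ range i, f n - ∑ h ∈ range i, f (H + h) := by
    rw [e3]
    linear_combination e1
  rw [e4]
  have h1 : ‖∑ n ∈ range i, f n‖ ≤ i * B := by
    refine (norm_sum_le _ _).trans ((Finset.sum_le_sum fun n _ => hf n).trans ?_)
    simp
  have h2 : ‖∑ h ∈ range i, f (H + h)‖ ≤ i * B := by
    refine (norm_sum_le _ _).trans ((Finset.sum_le_sum fun n _ => hf _).trans ?_)
    simp
  refine (norm_sub_le _ _).trans ?_
  linarith

/-- double sums of functions with bounded support -/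
theorem cst_dbl (f : ℕ → ℝ) (hf : ∀ n, 0 ≤ f n) (N H M : ℕ) (h2 : ∀ n, M < n → f n = 0) :
    ∑ m ∈ range N, ∑ h ∈ range H, f (m + h) ≤ H * ∑ n ∈ range (M + 1), f n := by
  rw [Finset.sum_comm]
  have : ∀ h ∈ range H, ∑ m ∈ range N, f (m + h) ≤ ∑ n ∈ range (M + 1), f n := by
    intro h _
    have e1 : ∑ m ∈ range N, f (m + h) = ∑ n ∈ (range N).map (addRightEmbedding h), f n := by
      rw [Finset.sum_map]; rfl
    rw [e1]
    have e2 : ∑ n ∈ (range N).map (addRightEmbedding h), f n =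
        ∑ n ∈ ((range N).map (addRightEmbedding h)).filter (fun n => n ≤ M), f n := by
      rw [Finset.sum_filter_of_ne]
      intro n _ hn
      by_contra hc
      exact hn (h2 n (by omega))
    rw [e2]
    refine Finset.sum_le_sum_of_subset_of_nonneg ?_ fun _ _ _ => hf _
    intro n hn
    rw [Finset.mem_filter] at hn
    rw [Finset.mem_range]
    omega
  calc ∑ h ∈ range H, ∑ m ∈ range N, f (m + h) ≤ ∑ h ∈ range H, ∑ n ∈ range (M + 1), f n :=
        Finset.sum_le_sum this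
    _ = _ := by rw [Finset.sum_const, Finset.card_range, nsmul_eq_mul]

/-- Cauchy-Schwarz for double sums. -/
theorem cst_cs2 (N H : ℕ) (f g : ℕ → ℕ → ℂ) :
    ∑ m ∈ range N, ∑ h ∈ range H, ‖f m h * g m h‖ ≤
      Real.sqrt (∑ m ∈ range N, ∑ h ∈ range H, ‖f m h‖ ^ 2) *
        Real.sqrt (∑ m ∈ range N, ∑ h ∈ range H, ‖g m h‖ ^ 2) := by
  rw [← Finset.sum_product', ← Finset.sum_product', ← Finset.sum_product']
  simp only [norm_mul]
  exact Real.sum_mul_le_sqrt_mul_sqrt _ _ _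

theorem cst_block2 (a : ℕ → ℂ) (w : ℕ → ℕ → ℂ) (N H L d q M : ℕ) (U0 : ℝ)
    (c : Fin d → ℕ → ℂ) (g : Fin d → ℕ → ℕ → ℂ) (z : ℕ → ℕ → ℕ → ℂ) (B1 B2 : ℝ) (B3 : ℕ → ℝ)
    (ha : ∀ n, ‖a n‖ ≤ 1) (h2 : ∀ n, M < n → a n = 0) (hw0 : ∀ m h, ‖w m h‖ ≤ U0)
    (hU0 : 0 ≤ U0)
    (hw : ∀ m h, ∀ j < L, w m (h + q * j) = ∑ k, c k j * g k m h + z j m h)
    (hB1 : ∀ k, ∑ m ∈ range (M + 1), ‖∑ j ∈ range L, a (m + q * j) * c k j‖ ^ 2 ≤ B1)
    (hB2 : ∀ k, ∑ m ∈ range N, ∑ h ∈ range H, ‖g k m h‖ ^ 2 ≤ B2)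
    (hB3 : ∀ j < L, ∑ m ∈ range N, ∑ h ∈ range H, ‖z j m h‖ ^ 2 ≤ B3 j) :
    L * ∑ m ∈ range N, ‖∑ h ∈ range H, a (m + h) * w m h‖ ≤
      N * (L * (2 * (q * L) * U0)) + d * (Real.sqrt (H * B1) * Real.sqrt B2) +
        Real.sqrt (N * H) * ∑ j ∈ range L, Real.sqrt (B3 j) := by
  have e1 : ∀ m, (L : ℝ) * ‖∑ h ∈ range H, a (m + h) * w m h‖ ≤
      L * (2 * (q * L) * U0) +
      (∑ k, ∑ h ∈ range H, ‖(∑ j ∈ range L, a (m + h + q * j) * c k j) * g k m h‖ +
        ∑ j ∈ range L, ∑ h ∈ range H, ‖a (m + h + q * j) * z j m h‖) := by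
    intro m
    have e2 : (L : ℝ) * ‖∑ h ∈ range H, a (m + h) * w m h‖ =
        ‖∑ j ∈ range L, ∑ h ∈ range H, a (m + h) * w m h‖ := by
      rw [Finset.sum_const, Finset.card_range, nsmul_eq_mul, norm_mul]
      simp
    have e3 : ‖∑ j ∈ range L, ∑ h ∈ range H, a (m + h) * w m h -
        ∑ j ∈ range L, ∑ h ∈ range H, a (m + (h + q * j)) * w m (h + q * j)‖ ≤
        L * (2 * (q * L) * U0) := by
      rw [← Finset.sum_sub_distrib]
      refine (norm_sum_le _ _).trans ?_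
      calc ∑ j ∈ range L, ‖∑ h ∈ range H, a (m + h) * w m h -
            ∑ h ∈ range H, a (m + (h + q * j)) * w m (h + q * j)‖
          ≤ ∑ j ∈ range L, 2 * (q * L) * U0 := by
            refine Finset.sum_le_sum fun j hj => ?_
            refine (cst_shift2 (fun h => a (m + h) * w m h) H (q * j) U0 (fun n => ?_)).trans ?_
            · rw [norm_mul]
              calc _ ≤ 1 * U0 := mul_le_mul (ha _) (hw0 m n) (norm_nonneg _) zero_le_one
                _ = U0 := one_mul _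
            · push_cast
              have : (j : ℝ) ≤ L := by exact_mod_cast (Finset.mem_range.mp hj).le
              gcongr
        _ = _ := by simp
    have e4 : ∑ j ∈ range L, ∑ h ∈ range H, a (m + (h + q * j)) * w m (h + q * j) =
        ∑ k, ∑ h ∈ range H, (∑ j ∈ range L, a (m + h + q * j) * c k j) * g k m h +
        ∑ j ∈ range L, ∑ h ∈ range H, a (m + h + q * j) * z j m h := by
      have e5 : ∀ j ∈ range L, ∑ h ∈ range H, a (m + (h + q * j)) * w m (h + q * j) =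
          ∑ k, ∑ h ∈ range H, a (m + h + q * j) * c k j * g k m h +
          ∑ h ∈ range H, a (m + h + q * j) * z j m h := by
        intro j hj
        rw [Finset.sum_comm, ← Finset.sum_add_distrib]
        refine Finset.sum_congr rfl fun h _ => ?_
        rw [hw m h j (Finset.mem_range.mp hj), ← add_assoc, mul_add, Finset.mul_sum]
        congr 1
        exact Finset.sum_congr rfl fun k _ => by ring
      rw [Finset.sum_congr rfl e5, Finset.sum_add_distrib]
      congr 1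
      rw [Finset.sum_comm]
      refine Finset.sum_congr rfl fun k _ => ?_
      rw [Finset.sum_comm]
      refine Finset.sum_congr rfl fun h _ => ?_
      rw [Finset.sum_mul]
    rw [e2]
    have e6 : ‖∑ j ∈ range L, ∑ h ∈ range H, a (m + h) * w m h‖ ≤
        ‖∑ j ∈ range L, ∑ h ∈ range H, a (m + h) * w m h -
          ∑ j ∈ range L, ∑ h ∈ range H, a (m + (h + q * j)) * w m (h + q * j)‖ +
        ‖∑ j ∈ range L, ∑ h ∈ range H, a (m + (h + q * j)) * w m (h + q * j)‖ := by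
      have := norm_add_le (∑ j ∈ range L, ∑ h ∈ range H, a (m + h) * w m h -
          ∑ j ∈ range L, ∑ h ∈ range H, a (m + (h + q * j)) * w m (h + q * j))
        (∑ j ∈ range L, ∑ h ∈ range H, a (m + (h + q * j)) * w m (h + q * j))
      rwa [sub_add_cancel] at this
    refine e6.trans (add_le_add e3 ?_)
    rw [e4]
    refine (norm_add_le _ _).trans (add_le_add ?_ ?_)
    · refine (norm_sum_le _ _).trans (Finset.sum_le_sum fun k _ => ?_)
      exact norm_sum_le _ _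
    · refine (norm_sum_le _ _).trans (Finset.sum_le_sum fun j _ => ?_)
      exact norm_sum_le _ _
  rw [Finset.mul_sum]
  refine (Finset.sum_le_sum fun m _ => e1 m).trans ?_
  rw [Finset.sum_add_distrib, Finset.sum_add_distrib, Finset.sum_const, Finset.card_range,
    nsmul_eq_mul, add_assoc]
  refine add_le_add le_rfl (add_le_add ?_ ?_)
  · rw [Finset.sum_comm]
    calc ∑ k : Fin d, ∑ m ∈ range N, ∑ h ∈ range H,
          ‖(∑ j ∈ range L, a (m + h + q * j) * c k j) * g k m h‖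
        ≤ ∑ k : Fin d, Real.sqrt (H * B1) * Real.sqrt B2 := by
          refine Finset.sum_le_sum fun k _ => ?_
          refine (cst_cs2 N H (fun m h => ∑ j ∈ range L, a (m + h + q * j) * c k j)
            (fun m h => g k m h)).trans ?_
          refine mul_le_mul (Real.sqrt_le_sqrt ?_) (Real.sqrt_le_sqrt (hB2 k))
            (Real.sqrt_nonneg _) (Real.sqrt_nonneg _)
          refine (cst_dbl (fun n => ‖∑ j ∈ range L, a (n + q * j) * c k j‖ ^ 2)
            (fun n => by positivity) N H M (fun n hn => ?_)).trans ?_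
          · have : ∑ j ∈ range L, a (n + q * j) * c k j = 0 :=
              Finset.sum_eq_zero fun j _ => by rw [h2 _ (by omega), zero_mul]
            simp only [this, norm_zero]
            norm_num
          · exact mul_le_mul_of_nonneg_left (hB1 k) (Nat.cast_nonneg H)
      _ = _ := by simp
  · rw [Finset.sum_comm, Finset.mul_sum]
    refine Finset.sum_le_sum fun j hj => ?_
    refine (cst_cs2 N H (fun m h => a (m + h + q * j)) (fun m h => z j m h)).trans ?_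
    refine mul_le_mul (Real.sqrt_le_sqrt ?_) (Real.sqrt_le_sqrt (hB3 j (Finset.mem_range.mp hj)))
      (Real.sqrt_nonneg _) (Real.sqrt_nonneg _)
    calc ∑ m ∈ range N, ∑ h ∈ range H, ‖a (m + h + q * j)‖ ^ 2 ≤
        ∑ m ∈ range N, ∑ h ∈ range H, (1 : ℝ) := by
          refine Finset.sum_le_sum fun m _ => Finset.sum_le_sum fun h _ => ?_
          have := ha (m + h + q * j)
          have h0 := norm_nonneg (a (m + h + q * j))
          nlinarith
      _ = _ := by simp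

theorem cst_T2 (N H L d q : ℕ) (X κ U0 ε' S : ℝ) (B3 : ℕ → ℝ) (hL : 1 ≤ L) (hN : 1 ≤ N)
    (hH : 1 ≤ H) (hU0 : 0 ≤ U0) (hX : 0 ≤ X) (hXN : X ≤ 2 * N)
    (hd : (d : ℝ) ≤ (L : ℝ) ^ (κ / 4)) (hB3 : ∀ j < L, 0 ≤ B3 j)
    (hB3s : ∑ j ∈ range L, B3 j ≤ 2 * ε' * (N * H) * L)
    (h : L * S ≤ N * (L * (2 * (q * L) * U0)) +
      d * (Real.sqrt (H * (U0 ^ 2 * (X * (L : ℝ) ^ (2 - κ)))) * Real.sqrt (2 * (N * H))) +
      Real.sqrt (N * H) * ∑ j ∈ range L, Real.sqrt (B3 j)) :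
    S ≤ N * H * (2 * q * L * U0 / H + 2 * U0 * (L : ℝ) ^ (-(κ / 4)) + 2 * Real.sqrt ε') := by
  have hLr : (0 : ℝ) < L := by exact_mod_cast hL
  have hNr : (1 : ℝ) ≤ N := by exact_mod_cast hN
  have hHr : (1 : ℝ) ≤ H := by exact_mod_cast hH
  have e1 : Real.sqrt (H * (U0 ^ 2 * (X * (L : ℝ) ^ (2 - κ)))) * Real.sqrt (2 * (N * H)) ≤
      2 * U0 * (N * H) * (L : ℝ) ^ (1 - κ / 2) := by
    rw [← Real.sqrt_mul (by positivity)]
    apply Real.sqrt_le_iff.mpr
    refine ⟨by positivity, ?_⟩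
    have h1 : ((L : ℝ) ^ (1 - κ / 2)) ^ 2 = (L : ℝ) ^ (2 - κ) := by
      rw [← Real.rpow_natCast, ← Real.rpow_mul hLr.le]
      congr 1; push_cast; ring
    have h2 : 0 ≤ (L : ℝ) ^ (2 - κ) := by positivity
    rw [mul_pow, h1]
    have h3 : H * (U0 ^ 2 * (X * (L : ℝ) ^ (2 - κ))) * (2 * (N * H)) =
        (U0 ^ 2 * (L : ℝ) ^ (2 - κ) * N * H ^ 2) * (2 * X) := by ring
    have h4 : (2 * U0 * (N * H)) ^ 2 * (L : ℝ) ^ (2 - κ) =
        (U0 ^ 2 * (L : ℝ) ^ (2 - κ) * N * H ^ 2) * (4 * N) := by ring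
    rw [h3, h4]
    refine mul_le_mul_of_nonneg_left (by linarith) (by positivity)
  have e2 : d * (Real.sqrt (H * (U0 ^ 2 * (X * (L : ℝ) ^ (2 - κ)))) *
      Real.sqrt (2 * (N * H))) ≤ L * (N * H * (2 * U0 * (L : ℝ) ^ (-(κ / 4)))) := by
    calc d * (Real.sqrt (H * (U0 ^ 2 * (X * (L : ℝ) ^ (2 - κ)))) * Real.sqrt (2 * (N * H)))
        ≤ (L : ℝ) ^ (κ / 4) * (2 * U0 * (N * H) * (L : ℝ) ^ (1 - κ / 2)) :=
          mul_le_mul hd e1 (by positivity) (by positivity)
      _ = 2 * U0 * (N * H) * ((L : ℝ) ^ (κ / 4) * (L : ℝ) ^ (1 - κ / 2)) := by ring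
      _ = 2 * U0 * (N * H) * ((L : ℝ) ^ (1 : ℝ) * (L : ℝ) ^ (-(κ / 4))) := by
          rw [← Real.rpow_add hLr, ← Real.rpow_add hLr]
          congr 2; ring
      _ = _ := by rw [Real.rpow_one]; ring
  have e3 : ∑ j ∈ range L, Real.sqrt (B3 j) ≤ Real.sqrt (L * (2 * ε' * (N * H) * L)) := by
    have h1 : ∑ j ∈ range L, 1 * Real.sqrt (B3 j) ≤
        Real.sqrt (∑ j ∈ range L, (1 : ℝ) ^ 2) * Real.sqrt (∑ j ∈ range L, Real.sqrt (B3 j) ^ 2) :=
      Real.sum_mul_le_sqrt_mul_sqrt _ _ _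
    have h2 : ∑ j ∈ range L, Real.sqrt (B3 j) ^ 2 = ∑ j ∈ range L, B3 j :=
      Finset.sum_congr rfl fun j hj => Real.sq_sqrt (hB3 j (Finset.mem_range.mp hj))
    rw [h2] at h1
    simp only [one_mul, one_pow, Finset.sum_const, Finset.card_range, nsmul_eq_mul, mul_one] at h1
    refine h1.trans ?_
    rw [Real.sqrt_mul hLr.le]
    gcongr
  have e4 : Real.sqrt (N * H) * ∑ j ∈ range L, Real.sqrt (B3 j) ≤
      L * (N * H * (2 * Real.sqrt ε')) := by
    calc Real.sqrt (N * H) * ∑ j ∈ range L, Real.sqrt (B3 j)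
        ≤ Real.sqrt (2 * (N * H)) * Real.sqrt (L * (2 * ε' * (N * H) * L)) := by
          refine mul_le_mul (Real.sqrt_le_sqrt ?_) e3
            (Finset.sum_nonneg fun _ _ => Real.sqrt_nonneg _) (Real.sqrt_nonneg _)
          nlinarith
      _ = Real.sqrt ((2 * (N * H) * L) ^ 2 * ε') := by
          rw [← Real.sqrt_mul (by positivity)]
          congr 1; ring
      _ = 2 * (N * H) * L * Real.sqrt ε' := by
          rw [Real.sqrt_mul (by positivity), Real.sqrt_sq (by positivity)]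
      _ = _ := by ring
  have e6 : (N : ℝ) * (L * (2 * (q * L) * U0)) = L * (N * H * (2 * q * L * U0 / H)) := by
    field_simp
  have e5 : L * S ≤ L * (N * H * (2 * q * L * U0 / H + 2 * U0 * (L : ℝ) ^ (-(κ / 4)) +
      2 * Real.sqrt ε')) := by
    calc (L : ℝ) * S ≤ _ := h
      _ ≤ L * (N * H * (2 * q * L * U0 / H)) + L * (N * H * (2 * U0 * (L : ℝ) ^ (-(κ / 4)))) +
          L * (N * H * (2 * Real.sqrt ε')) :=
        add_le_add (add_le_add e6.le e2) e4
      _ = _ := by ring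
  exact le_of_mul_le_mul_left e5 hLr

open Classical in
/-- dyadic decomposition -/
theorem cst_dec (f : ℕ → ℂ) (s : ℕ → Prop) (Z : ℝ) (I : ℕ) (n : ℕ) (hn : (n : ℝ) ≤ Z) :
    f n = ∑ i ∈ range I, res (fun n => Z / 2 ^ (i + 1) < n ∧
        (n : ℝ) ≤ 2 * (Z / 2 ^ (i + 1)) ∧ s n) f n +
      ∑ i ∈ range I, res (fun n => Z / 2 ^ (i + 1) < n ∧
        (n : ℝ) ≤ 2 * (Z / 2 ^ (i + 1)) ∧ ¬ s n) f n +
      res (fun n => (n : ℝ) ≤ Z / 2 ^ I) f n := by
  induction I with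
  | zero => simp [res, hn]
  | succ I ih =>
    rw [Finset.sum_range_succ, Finset.sum_range_succ]
    have h2X : 2 * (Z / 2 ^ (I + 1)) = Z / 2 ^ I := by
      rw [pow_succ]; field_simp
    have hle : n = 0 ∨ Z / 2 ^ (I + 1) ≤ Z / 2 ^ I := by
      right
      have hZ : 0 ≤ Z := (Nat.cast_nonneg n).trans hn
      rw [pow_succ]
      gcongr
      nlinarith [pow_pos (two_pos (α := ℝ)) I]
    have key : res (fun n => (n : ℝ) ≤ Z / 2 ^ I) f n =
        res (fun n => Z / 2 ^ (I + 1) < n ∧ (n : ℝ) ≤ 2 * (Z / 2 ^ (I + 1)) ∧ s n) f n +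
        res (fun n => Z / 2 ^ (I + 1) < n ∧ (n : ℝ) ≤ 2 * (Z / 2 ^ (I + 1)) ∧ ¬ s n) f n +
        res (fun n => (n : ℝ) ≤ Z / 2 ^ (I + 1)) f n := by
      unfold res
      rw [h2X]
      by_cases h1 : (n : ℝ) ≤ Z / 2 ^ (I + 1)
      · have h3 : (n : ℝ) ≤ Z / 2 ^ I := by
          rcases hle with h0 | h0
          · subst h0
            have hZ : 0 ≤ Z := (Nat.cast_nonneg 0).trans hn
            simp only [Nat.cast_zero]
            positivity
          · exact h1.trans h0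
        rw [if_pos h3, if_neg (fun h => not_lt.mpr h1 h.1), if_neg (fun h => not_lt.mpr h1 h.1),
          if_pos h1]
        ring
      · by_cases h3 : (n : ℝ) ≤ Z / 2 ^ I
        · by_cases h4 : s n
          · rw [if_pos h3, if_pos ⟨not_le.mp h1, h3, h4⟩, if_neg (fun h => h.2.2 h4), if_neg h1]
            ring
          · rw [if_pos h3, if_neg (fun h => h4 h.2.2), if_pos ⟨not_le.mp h1, h3, h4⟩, if_neg h1]
            ring
        · rw [if_neg h3, if_neg (fun h => h3 h.2.1), if_neg (fun h => h3 h.2.1), if_neg h1]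
          ring
    rw [key] at ih
    rw [ih]
    ring

theorem cst_dyadic2 (w : ℕ → ℕ → ℂ) (U0 : ℝ) (hU0 : 0 ≤ U0) (hU : ∀ m h, ‖w m h‖ ≤ U0)
    (s : ℕ → Prop) (N H : ℕ) (hHN : H ≤ N) (ε T : ℝ) (hε : 0 ≤ ε) (I : ℕ)
    (hT : ∀ i < I, ∑ m ∈ range N, ‖∑ h ∈ range H,
      res (fun n => ((2 * N : ℕ) : ℝ) / 2 ^ (i + 1) < n ∧
        (n : ℝ) ≤ 2 * (((2 * N : ℕ) : ℝ) / 2 ^ (i + 1)) ∧ s n)
      (fun n => (ArithmeticFunction.moebius n : ℂ)) (m + h) * w m h‖ ≤ T)
    (hc : ∀ i < I, (Nat.card {n : ℕ // ((2 * N : ℕ) : ℝ) / 2 ^ (i + 1) < n ∧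
      (n : ℝ) ≤ 2 * (((2 * N : ℕ) : ℝ) / 2 ^ (i + 1)) ∧ ¬ s n} : ℝ) ≤
        ε * (((2 * N : ℕ) : ℝ) / 2 ^ (i + 1))) :
    ∑ m ∈ range N, ‖∑ h ∈ range H, (ArithmeticFunction.moebius (m + h) : ℂ) * w m h‖ ≤
      I * T + U0 * (H * (ε * (2 * N) + 2 * N / 2 ^ I)) := by
  classical
  set Z : ℝ := ((2 * N : ℕ) : ℝ) with hZ
  set f : ℕ → ℂ := fun n => (ArithmeticFunction.moebius n : ℂ) with hf
  set a : ℕ → ℕ → ℂ := fun i => res (fun n => Z / 2 ^ (i + 1) < n ∧
        (n : ℝ) ≤ 2 * (Z / 2 ^ (i + 1)) ∧ s n) f with ha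
  set b : ℕ → ℕ → ℂ := fun i => res (fun n => Z / 2 ^ (i + 1) < n ∧
        (n : ℝ) ≤ 2 * (Z / 2 ^ (i + 1)) ∧ ¬ s n) f with hb
  set r : ℕ → ℂ := res (fun n => (n : ℝ) ≤ Z / 2 ^ I) f with hr
  have hZ0 : 0 ≤ Z := Nat.cast_nonneg _
  have e1 : ∀ m < N, ‖∑ h ∈ range H, (ArithmeticFunction.moebius (m + h) : ℂ) * w m h‖ ≤
      ∑ i ∈ range I, ‖∑ h ∈ range H, a i (m + h) * w m h‖ +
      U0 * (∑ i ∈ range I, ∑ h ∈ range H, ‖b i (m + h)‖) +
      U0 * ∑ h ∈ range H, ‖r (m + h)‖ := by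
    intro m hm
    have e2 : ∑ h ∈ range H, (ArithmeticFunction.moebius (m + h) : ℂ) * w m h =
        ∑ i ∈ range I, ∑ h ∈ range H, a i (m + h) * w m h +
        ∑ i ∈ range I, ∑ h ∈ range H, b i (m + h) * w m h +
        ∑ h ∈ range H, r (m + h) * w m h := by
      have e3 : ∀ h ∈ range H, (ArithmeticFunction.moebius (m + h) : ℂ) * w m h =
          ∑ i ∈ range I, a i (m + h) * w m h + ∑ i ∈ range I, b i (m + h) * w m h +
          r (m + h) * w m h := by
        intro h hh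
        have hle : ((m + h : ℕ) : ℝ) ≤ Z := by
          rw [hZ]
          have := Finset.mem_range.mp hh
          exact_mod_cast (by omega : m + h ≤ 2 * N)
        have := cst_dec f s Z I (m + h) hle
        change f (m + h) * w m h = _
        rw [this, add_mul, add_mul, Finset.sum_mul, Finset.sum_mul]
      rw [Finset.sum_congr rfl e3, Finset.sum_add_distrib, Finset.sum_add_distrib,
        Finset.sum_comm (s := range H) (t := range I) (f := fun h i => a i (m + h) * w m h),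
        Finset.sum_comm (s := range H) (t := range I) (f := fun h i => b i (m + h) * w m h)]
    rw [e2]
    refine (norm_add_le _ _).trans (add_le_add ((norm_add_le _ _).trans (add_le_add ?_ ?_)) ?_)
    · exact norm_sum_le _ _
    · rw [Finset.mul_sum]
      refine (norm_sum_le _ _).trans (Finset.sum_le_sum fun i _ => ?_)
      rw [Finset.mul_sum]
      refine (norm_sum_le _ _).trans (Finset.sum_le_sum fun h _ => ?_)
      rw [norm_mul, mul_comm]
      exact mul_le_mul_of_nonneg_right (hU m h) (norm_nonneg _)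
    · rw [Finset.mul_sum]
      refine (norm_sum_le _ _).trans (Finset.sum_le_sum fun h _ => ?_)
      rw [norm_mul, mul_comm]
      exact mul_le_mul_of_nonneg_right (hU m h) (norm_nonneg _)
  refine (Finset.sum_le_sum fun m hm => e1 m (Finset.mem_range.mp hm)).trans ?_
  rw [Finset.sum_add_distrib, Finset.sum_add_distrib]
  have h1 : ∑ m ∈ range N, ∑ i ∈ range I, ‖∑ h ∈ range H, a i (m + h) * w m h‖ ≤ I * T := by
    rw [Finset.sum_comm]
    refine (Finset.sum_le_sum fun i hi => hT i (Finset.mem_range.mp hi)).trans ?_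
    simp
  have h2 : ∑ m ∈ range N, U0 * ∑ i ∈ range I, ∑ h ∈ range H, ‖b i (m + h)‖ ≤
      U0 * (H * (ε * (2 * N))) := by
    rw [← Finset.mul_sum]
    refine mul_le_mul_of_nonneg_left ?_ hU0
    rw [Finset.sum_comm]
    have h3 : ∀ i ∈ range I, ∑ m ∈ range N, ∑ h ∈ range H, ‖b i (m + h)‖ ≤
        H * (ε * (Z / 2 ^ (i + 1))) := by
      intro i hi
      refine (cst_dbl (fun n => ‖b i n‖) (fun _ => norm_nonneg _) N H
        ⌊2 * (Z / 2 ^ (i + 1))⌋₊ (fun n hn => ?_)).trans ?_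
      · rw [norm_eq_zero]
        refine cst_res0 _ _ _ ?_
        rintro ⟨-, h4, -⟩
        have := Nat.le_floor h4
        omega
      · refine mul_le_mul_of_nonneg_left ?_ (Nat.cast_nonneg H)
        refine le_trans ?_ (hc i (Finset.mem_range.mp hi))
        have hfin := cst_card_fin (Z / 2 ^ (i + 1)) (2 * (Z / 2 ^ (i + 1))) s
        have e5 : (((range (⌊2 * (Z / 2 ^ (i + 1))⌋₊ + 1)).filter (fun n : ℕ =>
            Z / 2 ^ (i + 1) < n ∧ (n : ℝ) ≤ 2 * (Z / 2 ^ (i + 1)) ∧ ¬ s n)).card : ℝ) ≤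
            (Nat.card {n : ℕ // Z / 2 ^ (i + 1) < n ∧
              (n : ℝ) ≤ 2 * (Z / 2 ^ (i + 1)) ∧ ¬ s n} : ℝ) := by
          have : Fintype {n : ℕ // Z / 2 ^ (i + 1) < n ∧
              (n : ℝ) ≤ 2 * (Z / 2 ^ (i + 1)) ∧ ¬ s n} := Fintype.ofFinite _
          rw [Nat.card_eq_fintype_card, Nat.cast_le, ← Fintype.card_coe]
          refine Fintype.card_le_of_injective
            (fun x => ⟨x.1, (Finset.mem_filter.mp x.2).2⟩) ?_
          intro x y h
          simp only [Subtype.mk.injEq] at h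
          exact Subtype.ext h
        refine le_trans ?_ e5
        rw [Finset.card_filter]
        push_cast
        refine Finset.sum_le_sum fun n _ => ?_
        split_ifs with h4
        · exact cst_res1 _ n
        · have h5 : b i n = 0 := cst_res0 _ _ _ h4
          rw [h5, norm_zero]
    refine (Finset.sum_le_sum h3).trans ?_
    rw [← Finset.mul_sum, ← Finset.mul_sum]
    have h4 : ∑ i ∈ range I, Z / 2 ^ (i + 1) ≤ Z := by
      have h5 : ∀ J : ℕ, ∑ i ∈ range J, Z / 2 ^ (i + 1) = Z - Z / 2 ^ J := by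
        intro J
        induction J with
        | zero => simp
        | succ J ih =>
          rw [Finset.sum_range_succ, ih, pow_succ]
          field_simp
          ring
      rw [h5]
      have : 0 ≤ Z / 2 ^ I := by positivity
      linarith
    have h6 : Z = 2 * N := by rw [hZ]; push_cast; ring
    rw [h6] at h4 ⊢
    gcongr
  have h7 : ∑ m ∈ range N, U0 * ∑ h ∈ range H, ‖r (m + h)‖ ≤ U0 * (H * (2 * N / 2 ^ I)) := by
    rw [← Finset.mul_sum]
    refine mul_le_mul_of_nonneg_left ?_ hU0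
    refine (cst_dbl (fun n => ‖r n‖) (fun _ => norm_nonneg _) N H
        ⌊Z / 2 ^ I⌋₊ (fun n hn => ?_)).trans ?_
    · rw [norm_eq_zero]
      refine cst_res0 _ _ _ ?_
      intro h4
      have := Nat.le_floor h4
      omega
    · refine mul_le_mul_of_nonneg_left ?_ (Nat.cast_nonneg H)
      rw [Finset.sum_range_succ']
      have h8 : ‖r 0‖ = 0 := by
        rw [norm_eq_zero, hr, hf]
        simp [res]
      rw [h8, add_zero]
      calc ∑ n ∈ range ⌊Z / 2 ^ I⌋₊, ‖r (n + 1)‖ ≤ ∑ n ∈ range ⌊Z / 2 ^ I⌋₊, (1 : ℝ) := by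
            exact Finset.sum_le_sum fun n _ => cst_res1 _ _
        _ = (⌊Z / 2 ^ I⌋₊ : ℝ) := by simp
        _ ≤ Z / 2 ^ I := Nat.floor_le (by positivity)
        _ = _ := by rw [hZ]; push_cast; ring
  have h9 : U0 * (H * (ε * (2 * N) + 2 * N / 2 ^ I)) =
      U0 * (H * (ε * (2 * N))) + U0 * (H * (2 * N / 2 ^ I)) := by ring
  rw [h9]
  linarith

end Pool.Agent.Helper40.MR
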