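import Mathlib
import Pool.Agent.Helper40.MR.CSTn
import Pool.Agent.Helper40.MR.CSTo

open Filter Topology Finset
open scoped ComplexConjugate

namespace Pool.Agent.Helper40.MR

open Pool.Agent.Helper40.Mob

universe u v

theorem cst_one3 {A : Type u} [CStarAlgebra A] (α : A →⋆ₐ[ℂ] A) (ρ : ℕ → A →L[ℂ] ℂ)
    (hρ : ∀ m, IsState (ρ m)) (u : A)
    (ζ : ℂ) (hζ : ‖ζ‖ = 1) (N H L d q : ℕ) (e : Fin d → A)
    (c : Fin d → ℕ → ℂ) (U0 κ ε' X : ℝ) (B3 : ℕ → ℝ) (s : ℕ → Prop)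
    (hL : 1 ≤ L) (hN : 1 ≤ N) (hH : 1 ≤ H) (hU0 : 0 < U0) (hu : ‖u‖ ≤ U0) (hX : 0 ≤ X)
    (hXN : X ≤ 2 * N)
    (hd : (d : ℝ) ≤ (L : ℝ) ^ (κ / 4)) (hB3 : ∀ j < L, 0 ≤ B3 j)
    (hB3s : ∑ j ∈ range L, B3 j ≤ 2 * ε' * (N * H) * L)
    (hc : ∀ k j, ‖c k j‖ ≤ U0)
    (hNT : ∀ c : ℕ → ℂ, (∀ j, ‖c j‖ ≤ 1) →
      ∑ m ∈ range (⌊2 * X⌋₊ + 1), ‖∑ j ∈ range L,
      res (fun n => X < n ∧ (n : ℝ) ≤ 2 * X ∧ s n)
        (fun n => (ArithmeticFunction.moebius n : ℂ)) (m + q * j) * c j‖ ^ 2 ≤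
      X * (L : ℝ) ^ (2 - κ))
    (hg : ∀ k, ∑ m ∈ range N, ∑ h ∈ range H, ‖ρ m (α^[h] (e k))‖ ^ 2 ≤ 2 * (N * H))
    (hz : ∀ j < L, ∑ m ∈ range N, ∑ h ∈ range H,
      ‖ρ m (α^[h] (α^[q * j] u - ∑ k, c k j • e k))‖ ^ 2 ≤ B3 j) :
    ∑ m ∈ range N, ‖∑ h ∈ range H, res (fun n => X < n ∧ (n : ℝ) ≤ 2 * X ∧ s n)
      (fun n => (ArithmeticFunction.moebius n : ℂ)) (m + h) * (ζ ^ h * ρ m (α^[h] u))‖ ≤
      N * H * (2 * q * L * U0 / H + 2 * U0 * (L : ℝ) ^ (-(κ / 4)) + 2 * Real.sqrt ε') := by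
  have hζn : ∀ n : ℕ, ‖ζ ^ n‖ = 1 := fun n => by rw [norm_pow, hζ, one_pow]
  refine cst_T2 N H L d q X κ U0 ε' _ B3 hL hN hH hU0.le hX hXN hd hB3 hB3s ?_
  have hNT' : ∀ k, ∑ m ∈ range (⌊2 * X⌋₊ + 1), ‖∑ j ∈ range L,
      res (fun n => X < n ∧ (n : ℝ) ≤ 2 * X ∧ s n)
        (fun n => (ArithmeticFunction.moebius n : ℂ)) (m + q * j) * (ζ ^ (q * j) * c k j)‖ ^ 2 ≤
      U0 ^ 2 * (X * (L : ℝ) ^ (2 - κ)) := by
    intro k
    have h1 := hNT (fun j => ((1 / U0 : ℝ) : ℂ) * (ζ ^ (q * j) * c k j)) (fun j => by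
      rw [norm_mul, norm_mul, hζn, one_mul, Complex.norm_real,
        Real.norm_of_nonneg (by positivity), one_div, inv_mul_le_iff₀ hU0, mul_one]
      exact hc k j)
    have h2 : ∀ m, ‖∑ j ∈ range L, res (fun n => X < n ∧ (n : ℝ) ≤ 2 * X ∧ s n)
        (fun n => (ArithmeticFunction.moebius n : ℂ)) (m + q * j) * (ζ ^ (q * j) * c k j)‖ ^ 2 =
        U0 ^ 2 * ‖∑ j ∈ range L, res (fun n => X < n ∧ (n : ℝ) ≤ 2 * X ∧ s n)
        (fun n => (ArithmeticFunction.moebius n : ℂ)) (m + q * j) *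
          (((1 / U0 : ℝ) : ℂ) * (ζ ^ (q * j) * c k j))‖ ^ 2 := by
      intro m
      have h3 : ∑ j ∈ range L, res (fun n => X < n ∧ (n : ℝ) ≤ 2 * X ∧ s n)
        (fun n => (ArithmeticFunction.moebius n : ℂ)) (m + q * j) *
          (((1 / U0 : ℝ) : ℂ) * (ζ ^ (q * j) * c k j)) = ((1 / U0 : ℝ) : ℂ) *
          ∑ j ∈ range L, res (fun n => X < n ∧ (n : ℝ) ≤ 2 * X ∧ s n)
        (fun n => (ArithmeticFunction.moebius n : ℂ)) (m + q * j) *
          (ζ ^ (q * j) * c k j) := by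
        rw [Finset.mul_sum]
        exact Finset.sum_congr rfl fun j _ => by ring
      rw [h3, norm_mul, Complex.norm_real, Real.norm_of_nonneg (by positivity), mul_pow]
      have : U0 ≠ 0 := hU0.ne'
      field_simp
    simp only [h2]
    rw [← Finset.mul_sum]
    exact mul_le_mul_of_nonneg_left h1 (by positivity)
  refine cst_block2 (res (fun n => X < n ∧ (n : ℝ) ≤ 2 * X ∧ s n)
      (fun n => (ArithmeticFunction.moebius n : ℂ))) (fun m h => ζ ^ h * ρ m (α^[h] u))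
      N H L d q ⌊2 * X⌋₊ U0
      (fun k j => ζ ^ (q * j) * c k j)
      (fun k m h => ζ ^ h * ρ m (α^[h] (e k)))
      (fun j m h => ζ ^ (h + q * j) * ρ m (α^[h] (α^[q * j] u - ∑ k, c k j • e k)))
      (U0 ^ 2 * (X * (L : ℝ) ^ (2 - κ))) (2 * (N * H)) B3 (fun n => cst_res1 _ n) ?_ ?_ hU0.le ?_
      hNT' (fun k => ?_) (fun j hj => ?_)
  · intro n hn
    refine cst_res0 _ _ _ ?_
    rintro ⟨-, h2, -⟩
    have := Nat.le_floor h2
    omega
  · intro m h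
    rw [norm_mul, hζn, one_mul]
    exact ((cst_state_le _ (hρ m) _).trans (cst_iter_norm α h u)).trans hu
  · intro m h j hj
    have h1 : α^[h + q * j] u = α^[h] (α^[q * j] u) := Function.iterate_add_apply α h (q * j) u
    have h2 : α^[h] (α^[q * j] u) = ∑ k, c k j • α^[h] (e k) +
        α^[h] (α^[q * j] u - ∑ k, c k j • e k) := by
      rw [cst_iter_sub, cst_iter_sum]
      simp only [cst_iter_smul]
      abel
    change ζ ^ (h + q * j) * ρ m (α^[h + q * j] u) = _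
    rw [h1, h2, map_add, map_sum, mul_add, Finset.mul_sum]
    simp only [map_smul, smul_eq_mul]
    congr 1
    refine Finset.sum_congr rfl fun k _ => ?_
    rw [pow_add]
    ring
  · have := hg k
    simpa only [norm_mul, hζn, one_mul] using this
  · have := hz j hj
    simpa only [norm_mul, hζn, one_mul] using this

theorem cst_momo (S : Set ℕ) (hNT : ST_NTS S) {A : Type u} {B : Type v} [CStarAlgebra A] [CStarAlgebra B]
    (i : A →⋆ₐ[ℂ] B) (hi : Function.Injective i) (α : A →⋆ₐ[ℂ] A) (u : A)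
    (hyp : ∀ φ : B →L[ℂ] ℂ, IsState φ → (∀ a, φ (i (α a)) = φ (i a)) →
      ∃ C : ℝ, 0 < C ∧ ∀ ε : ℝ, 0 < ε → ∀ τ : ℝ, 0 < τ → ∃ᶠ n : ℕ in atTop,
        ∃ q ∈ S, 1 ≤ q ∧ ∑ p ∈ q.primeFactors, 1 / (p : ℝ) ≤ C ∧
        ∃ F : Submodule ℂ B, FiniteDimensional ℂ F ∧ (Module.finrank ℂ F : ℝ) ≤ (n : ℝ) ^ τ ∧
          ∃ y : ℕ → B, (∀ j < n, y j ∈ F) ∧
            ∑ j ∈ range n, ‖φ (star (i (α^[q * j] u) - y j) * (i (α^[q * j] u) - y j))‖ ≤ ε * n)
    (δ₀ : ℝ) (hδ₀ : 0 < δ₀) :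
    ∀ᶠ H : ℕ in atTop, ∀ᶠ N : ℕ in atTop, ∀ z : ℂ, ‖z‖ = 1 →
      ∑ m ∈ range N, ‖∑ h ∈ range H,
        ((ArithmeticFunction.moebius (m + h) : ℂ) * z ^ h) • α^[h] u‖ ≤ δ₀ * (H * N) := by
  rcases subsingleton_or_nontrivial A with hA | hA
  · refine Filter.Eventually.of_forall fun H => Filter.Eventually.of_forall fun N z _ => ?_
    have : ∑ m ∈ range N, ‖∑ h ∈ range H,
        ((ArithmeticFunction.moebius (m + h) : ℂ) * z ^ h) • α^[h] u‖ = 0 :=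
      Finset.sum_eq_zero fun m _ => by
        rw [Subsingleton.elim (∑ h ∈ range H,
          ((ArithmeticFunction.moebius (m + h) : ℂ) * z ^ h) • α^[h] u) 0, norm_zero]
    rw [this]
    positivity
  by_contra hcon
  rw [Filter.not_eventually] at hcon
  have hchoice : ∀ H : ℕ, ∃ (N : ℕ) (z : ℂ) (ρ : ℕ → A →L[ℂ] ℂ), H ≤ N ∧ ‖z‖ = 1 ∧
      (∀ m, IsState (ρ m)) ∧
      ((¬ ∀ᶠ N : ℕ in atTop, ∀ z : ℂ, ‖z‖ = 1 →
        ∑ m ∈ range N, ‖∑ h ∈ range H,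
        ((ArithmeticFunction.moebius (m + h) : ℂ) * z ^ h) • α^[h] u‖ ≤ δ₀ * (H * N)) →
      δ₀ / 2 * (H * N) < ∑ m ∈ range N, ‖∑ h ∈ range H,
        (ArithmeticFunction.moebius (m + h) : ℂ) * (z ^ h * ρ m (α^[h] u))‖) := by
    intro H
    by_cases h : ∀ᶠ N : ℕ in atTop, ∀ z : ℂ, ‖z‖ = 1 →
        ∑ m ∈ range N, ‖∑ h ∈ range H,
        ((ArithmeticFunction.moebius (m + h) : ℂ) * z ^ h) • α^[h] u‖ ≤ δ₀ * (H * N)
    · obtain ⟨ρ, hρ, -⟩ := cst_exists_state (1 : A)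
      exact ⟨H, 1, fun _ => ρ, le_rfl, norm_one, fun _ => hρ, fun h' => absurd h h'⟩
    · have h' := h
      rw [Filter.not_eventually] at h'
      obtain ⟨N, hN, hHN⟩ := (h'.and_eventually (eventually_ge_atTop H)).exists
      rw [not_forall] at hN
      obtain ⟨z, hz⟩ := hN
      rw [Classical.not_imp, not_le] at hz
      choose ρ hρ h2 using fun m : ℕ => cst_exists_state (∑ h ∈ range H,
        ((ArithmeticFunction.moebius (m + h) : ℂ) * z ^ h) • α^[h] u)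
      refine ⟨N, z, ρ, hHN, hz.1, hρ, fun _ => ?_⟩
      have h3 : ∀ m, ρ m (∑ h ∈ range H,
        ((ArithmeticFunction.moebius (m + h) : ℂ) * z ^ h) • α^[h] u) =
          ∑ h ∈ range H, (ArithmeticFunction.moebius (m + h) : ℂ) *
            (z ^ h * ρ m (α^[h] u)) := by
        intro m
        rw [map_sum]
        refine Finset.sum_congr rfl fun n _ => ?_
        rw [map_smul, smul_eq_mul, mul_assoc]
      have h4 : ∑ m ∈ range N, ‖∑ h ∈ range H,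
        ((ArithmeticFunction.moebius (m + h) : ℂ) * z ^ h) • α^[h] u‖ ≤
        2 * ∑ m ∈ range N, ‖∑ h ∈ range H, (ArithmeticFunction.moebius (m + h) : ℂ) *
            (z ^ h * ρ m (α^[h] u))‖ := by
        rw [Finset.mul_sum]
        refine Finset.sum_le_sum fun m _ => ?_
        rw [← h3]
        exact h2 m
      have := hz.2
      linarith
  choose NN ζ ρ hHN hζ hρ hbad using hchoice
  have hζn : ∀ N n : ℕ, ‖ζ N ^ n‖ = 1 := fun N n => by rw [norm_pow, hζ, one_pow]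
  set δ : ℝ := δ₀ / 2 with hδdef
  have hδ : 0 < δ := by positivity
  have hfr : ∃ᶠ H : ℕ in atTop, δ * (H * NN H) < ∑ m ∈ range (NN H), ‖∑ h ∈ range H,
        (ArithmeticFunction.moebius (m + h) : ℂ) * (ζ H ^ h * ρ H m (α^[h] u))‖ :=
    hcon.mono fun H hH => hbad H hH
  have hne : NeBot (atTop ⊓ 𝓟 {H : ℕ | δ * (H * NN H) < ∑ m ∈ range (NN H), ‖∑ h ∈ range H,
        (ArithmeticFunction.moebius (m + h) : ℂ) * (ζ H ^ h * ρ H m (α^[h] u))‖}) :=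
    Filter.frequently_iff_neBot.mp hfr
  set F : Ultrafilter ℕ := Ultrafilter.of (atTop ⊓ 𝓟 {H : ℕ | δ * (H * NN H) <
      ∑ m ∈ range (NN H), ‖∑ h ∈ range H,
        (ArithmeticFunction.moebius (m + h) : ℂ) * (ζ H ^ h * ρ H m (α^[h] u))‖}) with hFdef
  have hF1 : (F : Filter ℕ) ≤ atTop := (Ultrafilter.of_le _).trans inf_le_left
  have hF2 : ∀ᶠ H : ℕ in (F : Filter ℕ), δ * (H * NN H) < ∑ m ∈ range (NN H), ‖∑ h ∈ range H,
        (ArithmeticFunction.moebius (m + h) : ℂ) * (ζ H ^ h * ρ H m (α^[h] u))‖ :=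
    ((Ultrafilter.of_le _).trans inf_le_right) (Filter.mem_principal_self _)
  have evH1 : ∀ᶠ H : ℕ in (F : Filter ℕ), 1 ≤ H := hF1 (eventually_ge_atTop 1)
  obtain ⟨φ, hφ, hinv, hlim⟩ := cst_limit3 α (fun H a => cstg α (ρ H) (NN H) H a) F
    (fun H a b => cstg_add α (ρ H) (NN H) H a b) (fun H c a => cstg_smul α (ρ H) (NN H) H c a)
    (fun H a => cstg_norm α (ρ H) (hρ H) (NN H) H a)
    (by
      filter_upwards [evH1] with H hH
      exact cstg_one α (ρ H) (hρ H) (NN H) H (hH.trans (hHN H)) hH)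
    (fun a => by
      refine squeeze_zero_norm (fun H => cstg_inv α (ρ H) (hρ H) (NN H) H a) ?_
      exact (tendsto_const_div_atTop_nhds_zero_nat (2 * ‖a‖)).mono_left hF1)
  have hsq : ∀ x : A, ∀ η : ℝ, 0 < η → ∀ᶠ H : ℕ in (F : Filter ℕ),
      ∑ m ∈ range (NN H), ∑ h ∈ range H, ‖ρ H m (α^[h] x)‖ ^ 2 ≤
        NN H * H * (‖φ (star x * x)‖ + η) := by
    intro x η hη
    have h1 : ∀ᶠ H in (F : Filter ℕ), ‖cstg α (ρ H) (NN H) H (star x * x)‖ <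
        ‖φ (star x * x)‖ + η := (hlim (star x * x)).norm.eventually_lt_const (by linarith)
    filter_upwards [h1] with H hH
    refine (cstg_sumsq α (ρ H) (hρ H) (NN H) H x).trans ?_
    exact mul_le_mul_of_nonneg_left hH.le (by positivity)
  obtain ⟨ψ, hψ, hψφ⟩ := cst_ext i hi φ hφ
  set U0 : ℝ := ‖u‖ + 1 with hU0def
  have hU0 : 0 < U0 := by positivity
  obtain ⟨C, hC, hyp'⟩ := hyp ψ hψ (fun a => by rw [hψφ, hψφ]; exact hinv a)
  obtain ⟨I, hI⟩ := pow_unbounded_of_one_lt (16 * U0 / δ) (one_lt_two (α := ℝ))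
  set ε : ℝ := min (min (δ / (16 * U0)) (1 / 2 ^ I)) (1 / 2) with hεdef
  have hε : 0 < ε := by
    rw [hεdef]; refine lt_min (lt_min (by positivity) (by positivity)) (by norm_num)
  have hε1 : ε < 1 := (min_le_right _ _).trans_lt (by norm_num)
  have hε2 : ε ≤ δ / (16 * U0) := (min_le_left _ _).trans (min_le_left _ _)
  have hε3 : ε ≤ 1 / 2 ^ I := (min_le_left _ _).trans (min_le_right _ _)
  obtain ⟨κ, hκ, L0, hL0⟩ := hNT ε C hε hε1 hC
  set ε' : ℝ := (δ / (16 * (I + 1))) ^ 2 with hε'def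
  have hε' : 0 < ε' := by positivity
  have hsqε' : Real.sqrt ε' = δ / (16 * (I + 1)) := Real.sqrt_sq (by positivity)
  have hbig : ∀ᶠ L : ℕ in atTop, 2 * I * U0 * (L : ℝ) ^ (-(κ / 4)) < δ / 16 := by
    have h2 : Tendsto (fun L : ℕ => 2 * I * U0 * (L : ℝ) ^ (-(κ / 4))) atTop (𝓝 (2 * I * U0 * 0)) :=
      ((tendsto_rpow_neg_atTop (by positivity)).comp tendsto_natCast_atTop_atTop).const_mul _
    rw [mul_zero] at h2
    exact h2.eventually_lt_const (by positivity)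
  obtain ⟨L, ⟨q, hqS, hq1, hqC, Fs, hfin, hrank, y, hy, hsum⟩, hLbig, hLge⟩ :=
    ((hyp' (ε' / 8) (by positivity) (κ / 4)
      (by positivity)).and_eventually (hbig.and (eventually_ge_atTop (max L0 1)))).exists
  have hLL0 : L0 ≤ L := (le_max_left _ _).trans hLge
  have hL1 : 1 ≤ L := (le_max_right _ _).trans hLge
  have hLr : (0 : ℝ) < L := by exact_mod_cast hL1
  obtain ⟨Hs, i1, i2, i3, ι, hι⟩ := cst_gns_vec' ψ hψ
  have hιn : ∀ x : B, ‖ψ (star x * x)‖ = ‖ι x‖ ^ 2 := by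
    intro x
    rw [hι, inner_self_eq_norm_sq_to_K]
    simp
  have hιle : ∀ x : B, ‖ι x‖ ≤ ‖x‖ := by
    intro x
    have h2 : ‖ι x‖ ^ 2 ≤ ‖x‖ ^ 2 := by
      rw [← hιn]
      refine (cst_state_le ψ hψ _).trans ?_
      rw [CStarRing.norm_star_mul_self, sq]
    exact le_of_sq_le_sq h2 (norm_nonneg _)
  have hφn : ∀ x : A, ‖φ (star x * x)‖ = ‖ι (i x)‖ ^ 2 := by
    intro x
    rw [← hψφ, map_mul, map_star, hιn]
  have hile : ∀ x : A, ‖i x‖ ≤ ‖x‖ := fun x => NonUnitalStarAlgHom.norm_apply_le i x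
  set dd : ℕ := Module.finrank ℂ Fs with hdd
  set η : ℝ := min (1 / 4) (Real.sqrt (ε' / 8) / ((dd + 1) * U0)) with hηdef
  have hη : 0 < η := lt_min (by norm_num) (by positivity)
  have hη1 : η ≤ 1 / 4 := min_le_left _ _
  have hη2 : (dd + 1) * U0 * η ≤ Real.sqrt (ε' / 8) := by
    have : η ≤ Real.sqrt (ε' / 8) / ((dd + 1) * U0) := min_le_right _ _
    rwa [le_div_iff₀ (by positivity), mul_comm] at this
  obtain ⟨d, b, e, hd, hb1, he1, he2⟩ :=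
    cst_proj' (ι ∘ₗ (i : A →ₗ[ℂ] B)) ι Fs η hη
  have hcoe : ∀ x : A, (ι ∘ₗ (i : A →ₗ[ℂ] B)) x = ι (i x) := fun x => rfl
  simp only [hcoe] at he1 he2
  set c : Fin d → ℕ → ℂ := fun k j => inner ℂ (b k) (ι (i (α^[q * j] u))) with hcdef
  have hc : ∀ k j, ‖c k j‖ ≤ U0 := by
    intro k j
    calc ‖c k j‖ ≤ ‖b k‖ * ‖ι (i (α^[q * j] u))‖ := norm_inner_le_norm _ _
      _ ≤ 1 * ‖u‖ := by
          rw [hb1]
          gcongr
          exact (hιle _).trans ((hile _).trans (cst_iter_norm α (q * j) u))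
      _ ≤ U0 := by rw [hU0def]; linarith
  have hφe : ∀ k, ‖φ (star (e k) * e k)‖ ≤ 3 / 2 + 1 / 10 := by
    intro k
    rw [hφn]
    have h2 : ‖ι (i (e k))‖ ≤ 5 / 4 := by
      calc ‖ι (i (e k))‖ = ‖(ι (i (e k)) - b k) + b k‖ := by rw [sub_add_cancel]
        _ ≤ ‖ι (i (e k)) - b k‖ + ‖b k‖ := norm_add_le _ _
        _ ≤ 1 / 4 + 1 := add_le_add ((he1 k).trans hη1) (hb1 k).le
        _ = _ := by norm_num
    calc ‖ι (i (e k))‖ ^ 2 ≤ (5 / 4) ^ 2 := by gcongr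
      _ ≤ _ := by norm_num
  have hz : ∀ j < L, ‖φ (star (α^[q * j] u - ∑ k, c k j • e k) *
      (α^[q * j] u - ∑ k, c k j • e k))‖ ≤
      2 * ‖ψ (star (i (α^[q * j] u) - y j) * (i (α^[q * j] u) - y j))‖ + 2 * (ε' / 8) := by
    intro j hj
    rw [hφn, hιn]
    have h2 : ι (i (α^[q * j] u - ∑ k, c k j • e k)) =
        (ι (i (α^[q * j] u)) - ∑ k, c k j • b k) - ∑ k, c k j • (ι (i (e k)) - b k) := by
      rw [map_sub, map_sub, map_sum, map_sum]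
      simp only [map_smul, smul_sub, Finset.sum_sub_distrib]
      abel
    have h3 : ‖ι (i (α^[q * j] u)) - ∑ k, c k j • b k‖ ≤ ‖ι (i (α^[q * j] u) - y j)‖ := by
      rw [map_sub]
      exact he2 (α^[q * j] u) (y j) (hy j hj)
    have h4 : ‖∑ k, c k j • (ι (i (e k)) - b k)‖ ≤ Real.sqrt (ε' / 8) := by
      refine le_trans ?_ hη2
      refine (norm_sum_le _ _).trans ?_
      calc ∑ k, ‖c k j • (ι (i (e k)) - b k)‖ ≤ ∑ k : Fin d, U0 * η := by
            refine Finset.sum_le_sum fun k _ => ?_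
            rw [norm_smul]
            exact mul_le_mul (hc k j) (he1 k) (norm_nonneg _) hU0.le
        _ = d * (U0 * η) := by simp
        _ ≤ (dd + 1) * (U0 * η) := by
            gcongr
            have : (d : ℝ) ≤ dd := by exact_mod_cast hd
            linarith
        _ = _ := by ring
    rw [h2]
    have h5 : ‖(ι (i (α^[q * j] u)) - ∑ k, c k j • b k) - ∑ k, c k j • (ι (i (e k)) - b k)‖ ≤
        ‖ι (i (α^[q * j] u) - y j)‖ + Real.sqrt (ε' / 8) :=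
      (norm_sub_le _ _).trans (add_le_add h3 h4)
    have h6 : Real.sqrt (ε' / 8) ^ 2 = ε' / 8 := Real.sq_sqrt (by positivity)
    calc _ ≤ (‖ι (i (α^[q * j] u) - y j)‖ + Real.sqrt (ε' / 8)) ^ 2 := by gcongr
      _ ≤ 2 * ‖ι (i (α^[q * j] u) - y j)‖ ^ 2 + 2 * Real.sqrt (ε' / 8) ^ 2 := by
          nlinarith [sq_nonneg (‖ι (i (α^[q * j] u) - y j)‖ - Real.sqrt (ε' / 8))]
      _ = _ := by rw [h6]
  obtain ⟨Z0, hZ0⟩ := hL0 L hLL0 q hqS hq1 hqC
  have ev1 : ∀ᶠ H : ℕ in (F : Filter ℕ), Z0 ≤ ((2 * NN H : ℕ) : ℝ) := by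
    filter_upwards [hF1 ((tendsto_natCast_atTop_atTop (R := ℝ)).eventually_ge_atTop Z0)]
      with H hH
    refine hH.trans ?_
    have := hHN H
    exact_mod_cast (by omega : H ≤ 2 * NN H)
  have ev2 : ∀ᶠ H : ℕ in (F : Filter ℕ), I * (2 * q * L * U0 / H) ≤ δ / 16 := by
    have h2 : Tendsto (fun H : ℕ => I * (2 * q * L * U0 / (H : ℝ))) atTop (𝓝 (I * 0)) :=
      (tendsto_const_div_atTop_nhds_zero_nat (2 * q * L * U0)).const_mul _
    rw [mul_zero] at h2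
    exact hF1 ((h2.eventually_lt_const (by positivity)).mono fun H hH => hH.le)
  have ev4 : ∀ᶠ H : ℕ in (F : Filter ℕ), ∀ k : Fin d,
      ∑ m ∈ range (NN H), ∑ h ∈ range H, ‖ρ H m (α^[h] (e k))‖ ^ 2 ≤ 2 * (NN H * H) := by
    rw [Filter.eventually_all]
    intro k
    filter_upwards [hsq (e k) (2 / 5) (by norm_num)] with H hH
    refine hH.trans ?_
    have h2 := hφe k
    have h3 : (0 : ℝ) ≤ NN H * H := by positivity
    nlinarith
  have ev5 : ∀ᶠ H : ℕ in (F : Filter ℕ), ∀ j ∈ range L,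
      ∑ m ∈ range (NN H), ∑ h ∈ range H,
        ‖ρ H m (α^[h] (α^[q * j] u - ∑ k, c k j • e k))‖ ^ 2 ≤
        NN H * H * (‖φ (star (α^[q * j] u - ∑ k, c k j • e k) *
          (α^[q * j] u - ∑ k, c k j • e k))‖ + ε') := by
    rw [Filter.eventually_all_finset]
    intro j _
    exact hsq _ ε' hε'
  obtain ⟨H, hH0, hH1, hH2, hH3, hH4, hH5⟩ :=
    (hF2.and (ev1.and (ev2.and (evH1.and (ev4.and ev5))))).exists
  set N : ℕ := NN H with hNdef
  obtain ⟨s, hs⟩ := hZ0 ((2 * N : ℕ) : ℝ) hH1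
  have hHNr : H ≤ N := hHN H
  have hN1 : 1 ≤ N := hH3.trans hHNr
  have hNr : (0 : ℝ) < N := by exact_mod_cast hN1
  have hHr : (0 : ℝ) < H := by exact_mod_cast hH3
  have hZr : (0 : ℝ) < ((2 * N : ℕ) : ℝ) := by exact_mod_cast (by omega : 0 < 2 * N)
  have hXi : ∀ l < I, ((2 * N : ℕ) : ℝ) / 2 ^ I ≤ ((2 * N : ℕ) : ℝ) / 2 ^ (l + 1) := by
    intro l hl
    gcongr
    · norm_num
    · omega
  have hsX : ∀ l < I, ε * ((2 * N : ℕ) : ℝ) ≤ ((2 * N : ℕ) : ℝ) / 2 ^ (l + 1) ∧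
      ((2 * N : ℕ) : ℝ) / 2 ^ (l + 1) ≤ ((2 * N : ℕ) : ℝ) := by
    intro l hl
    constructor
    · refine le_trans ?_ (hXi l hl)
      calc ε * ((2 * N : ℕ) : ℝ) ≤ (1 / 2 ^ I) * ((2 * N : ℕ) : ℝ) := by gcongr
        _ = ((2 * N : ℕ) : ℝ) / 2 ^ I := by ring
    · exact div_le_self hZr.le (one_le_pow₀ (by norm_num))
  have hblock : ∀ l < I, ∑ m ∈ range N, ‖∑ h ∈ range H,
      res (fun n => ((2 * N : ℕ) : ℝ) / 2 ^ (l + 1) < n ∧
        (n : ℝ) ≤ 2 * (((2 * N : ℕ) : ℝ) / 2 ^ (l + 1)) ∧ s n)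
      (fun n => (ArithmeticFunction.moebius n : ℂ)) (m + h) *
        (ζ H ^ h * ρ H m (α^[h] u))‖ ≤
      N * H * (2 * q * L * U0 / H + 2 * U0 * (L : ℝ) ^ (-(κ / 4)) + 2 * Real.sqrt ε') := by
    intro l hl
    refine cst_one3 α (ρ H) (hρ H) u (ζ H) (hζ H) N H L d q e c U0 κ ε' _
      (fun j => N * H * (‖φ (star (α^[q * j] u - ∑ k, c k j • e k) *
        (α^[q * j] u - ∑ k, c k j • e k))‖ + ε')) s hL1 hN1 hH3 hU0
      (by rw [hU0def]; linarith) (by positivity) ?_ ?_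
      (fun j _ => by positivity) ?_ hc (hs _ (hsX l hl).1 (hsX l hl).2).2 hH4
      (fun j hj => hH5 j (Finset.mem_range.mpr hj))
    · refine (hsX l hl).2.trans (le_of_eq ?_)
      push_cast
      ring
    · refine le_trans ?_ hrank
      exact_mod_cast hd
    · rw [← Finset.mul_sum, Finset.sum_add_distrib, Finset.sum_const, Finset.card_range,
        nsmul_eq_mul]
      have h3 : ∑ j ∈ range L, ‖φ (star (α^[q * j] u - ∑ k, c k j • e k) *
        (α^[q * j] u - ∑ k, c k j • e k))‖ ≤ ε' * L := by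
        calc ∑ j ∈ range L, ‖φ (star (α^[q * j] u - ∑ k, c k j • e k) *
              (α^[q * j] u - ∑ k, c k j • e k))‖
            ≤ ∑ j ∈ range L, (2 * ‖ψ (star (i (α^[q * j] u) - y j) *
                (i (α^[q * j] u) - y j))‖ + 2 * (ε' / 8)) :=
              Finset.sum_le_sum fun j hj => hz j (Finset.mem_range.mp hj)
          _ = 2 * ∑ j ∈ range L, ‖ψ (star (i (α^[q * j] u) - y j) *
                (i (α^[q * j] u) - y j))‖ + L * (2 * (ε' / 8)) := by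
              rw [Finset.sum_add_distrib, ← Finset.mul_sum, Finset.sum_const, Finset.card_range,
                nsmul_eq_mul]
          _ ≤ 2 * (ε' / 8 * L) + L * (2 * (ε' / 8)) := by gcongr
          _ ≤ ε' * L := by nlinarith
      calc _ ≤ (N * H : ℝ) * (ε' * L + L * ε') := by gcongr
        _ = _ := by ring
  have hfinal := cst_dyadic2 (fun m h => ζ H ^ h * ρ H m (α^[h] u)) U0 hU0.le (fun m h => by
      rw [norm_mul, hζn, one_mul]
      refine ((cst_state_le (ρ H m) (hρ H m) _).trans (cst_iter_norm α h u)).trans ?_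
      rw [hU0def]; linarith) s N H hHNr ε
      (N * H * (2 * q * L * U0 / H + 2 * U0 * (L : ℝ) ^ (-(κ / 4)) + 2 * Real.sqrt ε')) hε.le I
      hblock (fun l hl => (hs _ (hsX l hl).1 (hsX l hl).2).1)
  have hb1 : U0 * (H * (ε * (2 * N) + 2 * N / 2 ^ I)) ≤ H * N * (δ / 8 + δ / 8) := by
    have h3 : U0 / 2 ^ I ≤ δ / 16 := by
      rw [div_le_div_iff₀ (by positivity) (by norm_num)]
      rw [div_lt_iff₀ hδ] at hI
      linarith
    have h4 : U0 * ε ≤ δ / 16 := by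
      calc U0 * ε ≤ U0 * (δ / (16 * U0)) := by gcongr
        _ = δ / 16 := by field_simp
    calc U0 * (H * (ε * (2 * N) + 2 * N / 2 ^ I)) =
        H * N * (2 * (U0 * ε) + 2 * (U0 / 2 ^ I)) := by ring
      _ ≤ H * N * (2 * (δ / 16) + 2 * (δ / 16)) := by gcongr
      _ = _ := by ring
  have hb2 : (I : ℝ) * (N * H * (2 * q * L * U0 / H + 2 * U0 * (L : ℝ) ^ (-(κ / 4)) +
      2 * Real.sqrt ε')) ≤ H * N * (δ / 16 + δ / 16 + δ / 8) := by
    have h3 : (I : ℝ) * (2 * Real.sqrt ε') ≤ δ / 8 := by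
      rw [hsqε']
      have h4 : (0 : ℝ) ≤ I := Nat.cast_nonneg I
      have h5 : (I : ℝ) * (2 * (δ / (16 * (I + 1)))) = δ / 8 * (I / (I + 1)) := by
        field_simp; ring
      rw [h5]
      have h6 : (I : ℝ) / (I + 1) ≤ 1 := by
        rw [div_le_one (by positivity)]; linarith
      calc δ / 8 * (I / (I + 1)) ≤ δ / 8 * 1 := by gcongr
        _ = _ := mul_one _
    calc (I : ℝ) * (N * H * (2 * q * L * U0 / H + 2 * U0 * (L : ℝ) ^ (-(κ / 4)) +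
          2 * Real.sqrt ε'))
        = H * N * (I * (2 * q * L * U0 / H) + 2 * I * U0 * (L : ℝ) ^ (-(κ / 4)) +
          I * (2 * Real.sqrt ε')) := by ring
      _ ≤ _ := by gcongr
  have hpos : (0 : ℝ) < H * N := by positivity
  have hH0' : δ * (H * N) < ∑ m ∈ range N, ‖∑ h ∈ range H,
        (ArithmeticFunction.moebius (m + h) : ℂ) * (ζ H ^ h * ρ H m (α^[h] u))‖ := hH0
  nlinarith

end Pool.Agent.Helper40.MR
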