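import Mathlib
import Pool.Agent.Helper40.MR.CSTp
import Pool.Agent.Helper40.MR.Defs

open Filter Topology Finset
open scoped ComplexConjugate

namespace Pool.Agent.Helper40.MR

open Pool.Agent.Helper40.Mob

universe u v

theorem cst_shift3 {E : Type*} [NormedAddCommGroup E] (f : ℕ → E) (N i : ℕ) (B : ℝ)
    (hf : ∀ n, ‖f n‖ ≤ B) :
    ‖∑ h ∈ range N, f h - ∑ h ∈ range N, f (h + i)‖ ≤ 2 * i * B := by
  have e1 : ∑ n ∈ range (i + N), f n = ∑ n ∈ range i, f n + ∑ h ∈ range N, f (i + h) :=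
    Finset.sum_range_add f i N
  have e2 : ∑ n ∈ range (N + i), f n = ∑ n ∈ range N, f n + ∑ h ∈ range i, f (N + h) :=
    Finset.sum_range_add f N i
  rw [add_comm i N, e2] at e1
  have e3 : ∑ h ∈ range N, f (h + i) = ∑ h ∈ range N, f (i + h) :=
    Finset.sum_congr rfl fun h _ => by rw [add_comm]
  have e4 : ∑ h ∈ range N, f h - ∑ h ∈ range N, f (h + i) =
      ∑ n ∈ range i, f n - ∑ h ∈ range i, f (N + h) := by
    rw [e3, sub_eq_sub_iff_add_eq_add, e1]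
  rw [e4]
  have h1 : ‖∑ n ∈ range i, f n‖ ≤ i * B := by
    refine (norm_sum_le _ _).trans ((Finset.sum_le_sum fun n _ => hf n).trans ?_)
    simp
  have h2 : ‖∑ h ∈ range i, f (N + h)‖ ≤ i * B := by
    refine (norm_sum_le _ _).trans ((Finset.sum_le_sum fun n _ => hf _).trans ?_)
    simp
  refine (norm_sub_le _ _).trans ?_
  linarith

theorem cst_long {A : Type u} [CStarAlgebra A] (α : A →⋆ₐ[ℂ] A) (u : A) (N H : ℕ) (z : ℂ)
    (hz : ‖z‖ = 1) :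
    H * ‖∑ n ∈ range N, ((ArithmeticFunction.moebius n : ℂ) * z ^ n) • α^[n] u‖ ≤
      ∑ m ∈ range N, ‖∑ h ∈ range H,
        ((ArithmeticFunction.moebius (m + h) : ℂ) * z ^ h) • α^[h] u‖ +
      H * (2 * H * ‖u‖) := by
  set x : ℕ → A := fun n => ((ArithmeticFunction.moebius n : ℂ) * z ^ n) • α^[n] u with hx
  have hxn : ∀ n, ‖x n‖ ≤ ‖u‖ := by
    intro n
    rw [hx]
    simp only
    rw [norm_smul, norm_mul, norm_pow, hz, one_pow, mul_one]
    calc _ ≤ 1 * ‖u‖ := mul_le_mul (cst_mob n) (cst_iter_norm α n u) (norm_nonneg _) zero_le_one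
      _ = ‖u‖ := one_mul _
  have e1 : ∀ m, ∑ h ∈ range H, x (m + h) = z ^ m • α^[m] (∑ h ∈ range H,
        ((ArithmeticFunction.moebius (m + h) : ℂ) * z ^ h) • α^[h] u) := by
    intro m
    rw [cst_iter_sum, Finset.smul_sum]
    refine Finset.sum_congr rfl fun h _ => ?_
    rw [cst_iter_smul, smul_smul, hx]
    simp only
    rw [Function.iterate_add_apply, pow_add]
    congr 1
    ring
  have e2 : ‖∑ m ∈ range N, ∑ h ∈ range H, x (m + h)‖ ≤ ∑ m ∈ range N, ‖∑ h ∈ range H,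
        ((ArithmeticFunction.moebius (m + h) : ℂ) * z ^ h) • α^[h] u‖ := by
    refine (norm_sum_le _ _).trans (Finset.sum_le_sum fun m _ => ?_)
    rw [e1, norm_smul, norm_pow, hz, one_pow, one_mul]
    exact cst_iter_norm α m _
  have e3 : ‖(H : ℂ) • ∑ n ∈ range N, x n - ∑ m ∈ range N, ∑ h ∈ range H, x (m + h)‖ ≤
      H * (2 * H * ‖u‖) := by
    rw [Finset.sum_comm]
    have e4 : (H : ℂ) • ∑ n ∈ range N, x n = ∑ h ∈ range H, ∑ n ∈ range N, x n := by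
      rw [Finset.sum_const, Finset.card_range, ← Nat.cast_smul_eq_nsmul ℂ]
    rw [e4, ← Finset.sum_sub_distrib]
    refine (norm_sum_le _ _).trans ?_
    calc ∑ h ∈ range H, ‖∑ n ∈ range N, x n - ∑ m ∈ range N, x (m + h)‖
        ≤ ∑ h ∈ range H, 2 * H * ‖u‖ := by
          refine Finset.sum_le_sum fun h hh => ?_
          refine (cst_shift3 x N h ‖u‖ hxn).trans ?_
          have : (h : ℝ) ≤ H := by exact_mod_cast (Finset.mem_range.mp hh).le
          gcongr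
      _ = _ := by simp
  have e5 : (H : ℝ) * ‖∑ n ∈ range N, x n‖ = ‖(H : ℂ) • ∑ n ∈ range N, x n‖ := by
    rw [norm_smul]; simp
  rw [e5]
  have e6 := norm_add_le ((H : ℂ) • ∑ n ∈ range N, x n - ∑ m ∈ range N, ∑ h ∈ range H, x (m + h))
    (∑ m ∈ range N, ∑ h ∈ range H, x (m + h))
  rw [sub_add_cancel] at e6
  linarith

theorem cst_states {A : Type u} [CStarAlgebra A] (α : A →⋆ₐ[ℂ] A) (u : A)
    (h : ∀ δ : ℝ, 0 < δ → ∀ᶠ H : ℕ in atTop, ∀ᶠ N : ℕ in atTop, ∀ z : ℂ, ‖z‖ = 1 →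
      ∑ m ∈ range N, ‖∑ h ∈ range H,
        ((ArithmeticFunction.moebius (m + h) : ℂ) * z ^ h) • α^[h] u‖ ≤ δ * (H * N))
    (ρ : A →L[ℂ] ℂ) (hρ : IsState ρ) (z : ℂ) (hz : ‖z‖ = 1) :
    Tendsto (fun N : ℕ => (1 / (N : ℂ)) *
      ∑ n ∈ Icc 1 N, (ArithmeticFunction.moebius n : ℂ) * (z ^ n * ρ (α^[n] u)))
      atTop (𝓝 0) := by
  rw [Metric.tendsto_nhds]
  intro δ hδ
  obtain ⟨H, hH, hH1⟩ := ((h (δ / 8) (by positivity)).and (eventually_ge_atTop 1)).exists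
  have hHr : (0 : ℝ) < H := by exact_mod_cast hH1
  have h2 : ∀ᶠ N : ℕ in atTop, 2 * H * ‖u‖ ≤ δ / 8 * N := by
    filter_upwards [(tendsto_natCast_atTop_atTop (R := ℝ)).eventually_ge_atTop
      (2 * H * ‖u‖ / (δ / 8))] with N hN
    rw [div_le_iff₀ (by positivity)] at hN
    linarith
  have hsucc : ∀ᶠ N : ℕ in atTop, (∀ z : ℂ, ‖z‖ = 1 →
      ∑ m ∈ range (N + 1), ‖∑ h ∈ range H,
        ((ArithmeticFunction.moebius (m + h) : ℂ) * z ^ h) • α^[h] u‖ ≤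
        δ / 8 * (H * ((N + 1 : ℕ) : ℝ))) ∧ 2 * H * ‖u‖ ≤ δ / 8 * ((N + 1 : ℕ) : ℝ) :=
    (tendsto_add_atTop_nat 1).eventually (hH.and h2)
  filter_upwards [hsucc, eventually_ge_atTop 1] with N hN hN1
  have hNr : (1 : ℝ) ≤ N := by exact_mod_cast hN1
  have e1 := cst_long α u (N + 1) H z hz
  have e2 := hN.1 z hz
  have e3 : H * ‖∑ n ∈ range (N + 1), ((ArithmeticFunction.moebius n : ℂ) * z ^ n) • α^[n] u‖ ≤
      H * (δ / 4 * ((N + 1 : ℕ) : ℝ)) := by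
    have := mul_le_mul_of_nonneg_left hN.2 hHr.le
    linarith
  have e4 := le_of_mul_le_mul_left e3 hHr
  have e5 : ∑ n ∈ Icc 1 N, (ArithmeticFunction.moebius n : ℂ) * (z ^ n * ρ (α^[n] u)) =
      ρ (∑ n ∈ range (N + 1), ((ArithmeticFunction.moebius n : ℂ) * z ^ n) • α^[n] u) := by
    rw [map_sum, Finset.sum_range_succ']
    have e6 : ρ (((ArithmeticFunction.moebius 0 : ℂ) * z ^ 0) • α^[0] u) = 0 := by simp
    rw [e6, add_zero, Finset.range_eq_Ico, Finset.sum_Ico_add' (fun n => ρ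
      (((ArithmeticFunction.moebius n : ℂ) * z ^ n) • α^[n] u)) 0 N 1]
    refine Finset.sum_congr (by ext; simp) fun n _ => ?_
    rw [map_smul, smul_eq_mul, mul_assoc]
  rw [dist_zero_right, e5, norm_mul, norm_div, norm_one, Complex.norm_natCast, one_div,
    inv_mul_lt_iff₀ (by positivity)]
  refine (cst_state_le ρ hρ _).trans_lt (e4.trans_lt ?_)
  push_cast
  nlinarith

theorem cst_nt1 (h : ST_NT) : ST_NTS {1} := by
  intro ε C hε hε1 hC
  obtain ⟨κ, hκ, L0, hL0⟩ := h ε hε hε1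
  refine ⟨κ, hκ, L0, fun L hL q hq _ _ => ?_⟩
  rw [Set.mem_singleton_iff] at hq
  subst hq
  obtain ⟨Z0, hZ0⟩ := hL0 L hL
  refine ⟨Z0, fun Z hZ => ?_⟩
  obtain ⟨s, hs⟩ := hZ0 Z hZ
  refine ⟨s, fun X h1 h2 => ?_⟩
  simpa only [one_mul] using hs X h1 h2

end Pool.Agent.Helper40.MR
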